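import Mathlib

/-! The integer solutions of the relations, second part. -/

namespace Pool.Agent.Zst

private theorem ArithB_supp {ι : Type*} (B : Finset ι) (o : ι) (ho : o ∈ B) (c : ι → ℤ)
    (hc : c o = 1) (m : ℕ) (hm : m ≤ 3) (h1 : ∑ χ ∈ B, c χ ^ 2 = m + 1) :
    ∃ S ⊆ B, o ∉ S ∧ S.card = m ∧ (∀ χ ∈ S, c χ = 1 ∨ c χ = -1) ∧
      ∀ χ ∈ B, χ ≠ o → χ ∉ S → c χ = 0 := by
  classical
  have h2 : ∑ χ ∈ B.erase o, c χ ^ 2 = m := by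
    have h3 := Finset.add_sum_erase B (fun χ => c χ ^ 2) ho
    simp only [hc] at h3
    linarith
  have h4 : ∀ χ ∈ B.erase o, c χ ^ 2 ≤ 3 := by
    intro χ hχ
    have h5 := Finset.single_le_sum (f := fun χ => c χ ^ 2) (fun i _ => sq_nonneg (c i)) hχ
    have h6 : (m : ℤ) ≤ 3 := by exact_mod_cast hm
    linarith
  have h5 : ∀ χ ∈ B.erase o, c χ ≠ 0 → c χ = 1 ∨ c χ = -1 := by
    intro χ hχ h0
    have h6 := h4 χ hχ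
    have h7 : c χ < 2 := by nlinarith
    have h8 : -2 < c χ := by nlinarith
    omega
  refine ⟨(B.erase o).filter (fun χ => c χ ≠ 0), ?_, ?_, ?_, ?_, ?_⟩
  · exact (Finset.filter_subset _ _).trans (Finset.erase_subset _ _)
  · intro h
    exact (Finset.mem_erase.1 (Finset.mem_filter.1 h).1).1 rfl
  · have h6 : ∑ χ ∈ B.erase o, c χ ^ 2 = ∑ χ ∈ (B.erase o).filter (fun χ => c χ ≠ 0), (1 : ℤ) := by
      rw [Finset.sum_filter]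
      refine Finset.sum_congr rfl fun χ hχ => ?_
      by_cases h : c χ = 0
      · simp [h]
      · rw [if_pos h]
        rcases h5 χ hχ h with h7 | h7 <;> rw [h7] <;> norm_num
    rw [h2, Finset.sum_const, nsmul_eq_mul, mul_one] at h6
    exact_mod_cast h6.symm
  · intro χ hχ
    obtain ⟨h6, h7⟩ := Finset.mem_filter.1 hχ
    exact h5 χ h6 h7
  · intro χ hχ h6 h7
    by_contra h8
    exact h7 (Finset.mem_filter.2 ⟨Finset.mem_erase.2 ⟨h6, hχ⟩, h8⟩)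

private theorem ArithB_sum {ι R : Type*} [CommRing R] {B S : Finset ι} {o : ι} (ho : o ∈ B)
    (hS : S ⊆ B) (hoS : o ∉ S) {c : ι → ℤ} (hc : c o = 1)
    (hz : ∀ χ ∈ B, χ ≠ o → χ ∉ S → c χ = 0) (g : ι → R) :
    ∑ χ ∈ B, (c χ : R) * g χ = g o + ∑ χ ∈ S, (c χ : R) * g χ := by
  classical
  rw [← Finset.add_sum_erase B _ ho, hc, Int.cast_one, one_mul]
  congr 1
  symm
  refine Finset.sum_subset ?_ ?_
  · intro χ hχ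
    exact Finset.mem_erase.2 ⟨fun h => hoS (h ▸ hχ), hS hχ⟩
  · intro χ hχ hχ'
    obtain ⟨h1, h2⟩ := Finset.mem_erase.1 hχ
    rw [hz χ h2 h1 hχ', Int.cast_zero, zero_mul]

/-- one even and two odd numbers -/
private theorem ArithB_core {a₁ a₂ a₃ n₁ n₂ n₃ m₃ : ℤ} (ha : a₁ + a₂ + a₃ = -1)
    (h : n₁ ^ 2 * (a₂ * a₃) + n₂ ^ 2 * (a₁ * a₃) + n₃ ^ 2 * (a₁ * a₂) = 0)
    (h1 : ¬ 2 ∣ n₁) (h2 : ¬ 2 ∣ n₂) (h3 : 2 ∣ n₃) (hm : 2 ∣ m₃) (h4 : (4 : ℤ) ∣ a₃ - (1 + 2 * m₃)) :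
    False := by
  obtain ⟨u, hu⟩ : ∃ u, n₁ = 2 * u + 1 := ⟨n₁ / 2, by omega⟩
  obtain ⟨v, hv⟩ : ∃ v, n₂ = 2 * v + 1 := ⟨n₂ / 2, by omega⟩
  obtain ⟨w, hw⟩ := h3
  obtain ⟨s, hs⟩ : ∃ s, a₃ = 4 * s + 1 := by
    obtain ⟨k, hk⟩ := h4
    obtain ⟨j, hj⟩ := hm
    exact ⟨k + j, by rw [hj] at hk; linarith⟩
  have h5 : (4 : ℤ) ∣ a₃ * (a₁ + a₂) := by
    refine ⟨-((u ^ 2 + u) * (a₂ * a₃) + (v ^ 2 + v) * (a₁ * a₃) + w ^ 2 * (a₁ * a₂)), ?_⟩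
    rw [hu, hv, hw] at h
    linear_combination h
  have h6 : (4 : ℤ) ∣ a₁ + a₂ := by
    obtain ⟨k, hk⟩ := h5
    refine ⟨k - s * (a₁ + a₂), ?_⟩
    rw [hs] at hk
    linear_combination hk
  omega

/-- descent: divide by a power of two -/
private theorem ArithB_div (a₁ a₂ a₃ : ℤ) : ∀ (n : ℕ) (m₁ m₂ m₃ : ℤ),
    m₁.natAbs + m₂.natAbs + m₃.natAbs = n → ¬ (m₁ = 0 ∧ m₂ = 0 ∧ m₃ = 0) → m₁ + m₂ + m₃ = 0 →
    m₁ ^ 2 * (a₂ * a₃) + m₂ ^ 2 * (a₁ * a₃) + m₃ ^ 2 * (a₁ * a₂) = 0 →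
    ∃ n₁ n₂ n₃ : ℤ, n₁ + n₂ + n₃ = 0 ∧
      n₁ ^ 2 * (a₂ * a₃) + n₂ ^ 2 * (a₁ * a₃) + n₃ ^ 2 * (a₁ * a₂) = 0 ∧
      ¬ (2 ∣ n₁ ∧ 2 ∣ n₂ ∧ 2 ∣ n₃) ∧ (2 ∣ n₁ → 2 ∣ m₁) ∧ (2 ∣ n₂ → 2 ∣ m₂) ∧ (2 ∣ n₃ → 2 ∣ m₃) := by
  intro n
  induction n using Nat.strong_induction_on with
  | _ n ih =>
    intro m₁ m₂ m₃ hn h0 hs hq
    by_cases hall : 2 ∣ m₁ ∧ 2 ∣ m₂ ∧ 2 ∣ m₃
    · obtain ⟨⟨k₁, rfl⟩, ⟨k₂, rfl⟩, ⟨k₃, rfl⟩⟩ := hall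
      have h0' : ¬ (k₁ = 0 ∧ k₂ = 0 ∧ k₃ = 0) := by
        rintro ⟨rfl, rfl, rfl⟩
        exact h0 ⟨by norm_num, by norm_num, by norm_num⟩
      obtain ⟨n₁, n₂, n₃, e1, e2, e3, -⟩ := ih (k₁.natAbs + k₂.natAbs + k₃.natAbs) (by omega)
        k₁ k₂ k₃ rfl h0' (by linarith) (by
          have h4 : 4 * (k₁ ^ 2 * (a₂ * a₃) + k₂ ^ 2 * (a₁ * a₃) + k₃ ^ 2 * (a₁ * a₂)) = 0 := by
            linear_combination hq
          linarith)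
      exact ⟨n₁, n₂, n₃, e1, e2, e3, fun _ => Dvd.intro _ rfl, fun _ => Dvd.intro _ rfl,
        fun _ => Dvd.intro _ rfl⟩
    · exact ⟨m₁, m₂, m₃, hs, hq, hall, id, id, id⟩

/-- PROOF. `a₁ + a₂ + a₃ = -1`; `m₁ + m₂ + m₃ = 0`; `m₁² a₂ a₃ + m₂² a₁ a₃ + m₃² a₁ a₂ = 0`, `a_i ≡ 1 + 2 m_i` modulo `4`.
Claim: all `m_i = 0`. Suppose not. Let `2 ^ t` be the highest power of `2` dividing all three `m_i`, `m_i = 2 ^ t m_i'`. Not all `m_i'` are even and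
their sum is `0`, so exactly one is even, say `m₃'` (three symmetric cases). Dividing by `4 ^ t`:
`m₁'² a₂ a₃ + m₂'² a₁ a₃ + m₃'² a₁ a₂ = 0`; modulo `4` (`m₁'² ≡ m₂'² ≡ 1`, `m₃'² ≡ 0`, the `a_i` are odd): `a₃ (a₁ + a₂) ≡ 0`, so
`a₁ + a₂ ≡ 0` modulo `4` and `a₃ ≡ -1` modulo `4`. But `m₃` is even, so `a₃ ≡ 1` modulo `4`: contradiction. -/
theorem Arith_desc (a₁ a₂ a₃ m₁ m₂ m₃ : ℤ) (ha : a₁ + a₂ + a₃ = -1) (hm : m₁ + m₂ + m₃ = 0)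
    (h : m₁ ^ 2 * (a₂ * a₃) + m₂ ^ 2 * (a₁ * a₃) + m₃ ^ 2 * (a₁ * a₂) = 0)
    (h1 : (4 : ℤ) ∣ a₁ - (1 + 2 * m₁)) (h2 : (4 : ℤ) ∣ a₂ - (1 + 2 * m₂))
    (h3 : (4 : ℤ) ∣ a₃ - (1 + 2 * m₃)) : m₁ = 0 ∧ m₂ = 0 ∧ m₃ = 0 := by
  by_contra h0
  obtain ⟨n₁, n₂, n₃, e1, e2, e3, e4, e5, e6⟩ := ArithB_div a₁ a₂ a₃ _ m₁ m₂ m₃ rfl h0 hm h
  by_cases d1 : 2 ∣ n₁
  · have d2 : ¬ 2 ∣ n₂ := fun d2 => e3 ⟨d1, d2, by omega⟩
    have d3 : ¬ 2 ∣ n₃ := fun d3 => d2 (by omega)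
    exact ArithB_core (a₁ := a₂) (a₂ := a₃) (a₃ := a₁) (n₁ := n₂) (n₂ := n₃) (n₃ := n₁) (m₃ := m₁)
      (by linarith) (by linear_combination e2) d2 d3 d1 (e4 d1) h1
  · by_cases d2 : 2 ∣ n₂
    · have d3 : ¬ 2 ∣ n₃ := fun d3 => d1 (by omega)
      exact ArithB_core (a₁ := a₁) (a₂ := a₃) (a₃ := a₂) (n₁ := n₁) (n₂ := n₃) (n₃ := n₂) (m₃ := m₂)
        (by linarith) (by linear_combination e2) d1 d3 d2 (e5 d2) h2
    · have d3 : 2 ∣ n₃ := by omega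
      exact ArithB_core (a₁ := a₁) (a₂ := a₂) (a₃ := a₃) (n₁ := n₁) (n₂ := n₂) (n₃ := n₃) (m₃ := m₃)
        (by linarith) (by linear_combination e2) d1 d2 d3 (e6 d3) h3

/-- PROOF. `v o = 1`, the other squares add up to `3`, so exactly three others have `v = ε_i = ± 1` (`i = 1, 2, 3`) and the rest
`0`. Put `a_i = ε_i d_i`, `b_i = ε_i e_i`; then `1 + ∑ a_i = 0`, `1 + ∑ b_i = 0`, `1 + ∑ b_i^2 / a_i = 0`. By `h5` `a_i - b_i = 4 m_i`; by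
`h6` `a_i + b_i ≡ 2` modulo `8` (multiply by `ε_i`, `ε_i v_i = 1`), so `a_i ≡ 1 + 2 m_i` modulo `4`. `∑ m_i = 0`, and
`b_i^2 / a_i = (a_i - 4 m_i)^2 / a_i = a_i - 8 m_i + 16 m_i^2 / a_i`, so `∑ m_i^2 / a_i = 0`. `Arith_desc` gives `m₁ = 0`, `e₁ = d₁`. -/
theorem Arith_four {ι : Type*} (B : Finset ι) (o : ι) (ho : o ∈ B) (v d e : ι → ℤ) (hv : v o = 1)
    (hd : d o = 1) (he : e o = 1) (hpos : ∀ χ ∈ B, 0 < d χ) (h1 : ∑ χ ∈ B, v χ ^ 2 = 4)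
    (h2 : ∑ χ ∈ B, v χ * d χ = 0) (h3 : ∑ χ ∈ B, v χ * e χ = 0)
    (h4 : ∑ χ ∈ B, (v χ : ℚ) * ((e χ : ℚ) ^ 2 / (d χ : ℚ)) = 0)
    (h5 : ∀ χ ∈ B, (4 : ℤ) ∣ d χ - e χ) (h6 : ∀ χ ∈ B, (8 : ℤ) ∣ d χ + e χ - 2 * v χ) :
    ∃ χ ∈ B, χ ≠ o ∧ e χ = d χ := by
  classical
  obtain ⟨S, hS, hoS, hcard, hsig, hz⟩ := ArithB_supp B o ho v hv 3 (by norm_num) (by rw [h1]; norm_num)
  obtain ⟨x, y, z, hxy, hxz, hyz, rfl⟩ := Finset.card_eq_three.1 hcard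
  have e1 := ArithB_sum ho hS hoS hv hz d
  have e2 := ArithB_sum ho hS hoS hv hz e
  have e3 := ArithB_sum ho hS hoS hv hz (fun χ => (e χ : ℚ) ^ 2 / (d χ : ℚ))
  rw [Finset.sum_insert (by simp [hxy, hxz]), Finset.sum_pair hyz] at e1 e2 e3
  simp only [Int.cast_id] at e1 e2
  rw [h2, hd] at e1
  rw [h3, he] at e2
  rw [h4, hd, he] at e3
  have hx : x ∈ ({x, y, z} : Finset ι) := by simp
  have hy : y ∈ ({x, y, z} : Finset ι) := by simp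
  have hz' : z ∈ ({x, y, z} : Finset ι) := by simp
  have hdx : (d x : ℚ) ≠ 0 := by exact_mod_cast (hpos x (hS hx)).ne'
  have hdy : (d y : ℚ) ≠ 0 := by exact_mod_cast (hpos y (hS hy)).ne'
  have hdz : (d z : ℚ) ≠ 0 := by exact_mod_cast (hpos z (hS hz')).ne'
  have e4 : (d x : ℚ) * d y * d z + v x * (e x : ℚ) ^ 2 * (d y * d z) +
      v y * (e y : ℚ) ^ 2 * (d x * d z) + v z * (e z : ℚ) ^ 2 * (d x * d y) = 0 := by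
    field_simp at e3
    simp only [Int.cast_one] at e3
    linarith
  have e5 : d x * d y * d z + v x * e x ^ 2 * (d y * d z) + v y * e y ^ 2 * (d x * d z) +
      v z * e z ^ 2 * (d x * d y) = 0 := by exact_mod_cast e4
  refine ⟨x, hS hx, fun h => hoS (h ▸ hx), ?_⟩
  have hkey : ∀ χ ∈ ({x, y, z} : Finset ι), ∃ m : ℤ, v χ * d χ - v χ * e χ = 4 * m ∧
      (4 : ℤ) ∣ v χ * d χ - (1 + 2 * m) := by
    intro χ hχ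
    obtain ⟨m, hm⟩ := h5 χ (hS hχ)
    obtain ⟨k, hk⟩ := h6 χ (hS hχ)
    rcases hsig χ hχ with h | h
    · refine ⟨m, by rw [h]; linarith, ?_⟩
      rw [h] at hk ⊢
      omega
    · refine ⟨-m, by rw [h]; linarith, ?_⟩
      rw [h] at hk ⊢
      omega
  obtain ⟨mx, hmx, hmx'⟩ := hkey x hx
  obtain ⟨my, hmy, hmy'⟩ := hkey y hy
  obtain ⟨mz, hmz, hmz'⟩ := hkey z hz'
  have hsum : mx + my + mz = 0 := by linarith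
  have hA : v x * d x + v y * d y + v z * d z = -1 := by linarith
  have hq : (v x * d x) * (v y * d y) * (v z * d z) +
      (v x * e x) ^ 2 * ((v y * d y) * (v z * d z)) + (v y * e y) ^ 2 * ((v x * d x) * (v z * d z)) +
      (v z * e z) ^ 2 * ((v x * d x) * (v y * d y)) = 0 := by
    linear_combination (v x * v y * v z) * e5
  have hb1 : v x * e x = v x * d x - 4 * mx := by linarith
  have hb2 : v y * e y = v y * d y - 4 * my := by linarith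
  have hb3 : v z * e z = v z * d z - 4 * mz := by linarith
  rw [hb1, hb2, hb3] at hq
  have hquad : mx ^ 2 * ((v y * d y) * (v z * d z)) + my ^ 2 * ((v x * d x) * (v z * d z)) +
      mz ^ 2 * ((v x * d x) * (v y * d y)) = 0 := by
    have h16 : 16 * (mx ^ 2 * ((v y * d y) * (v z * d z)) + my ^ 2 * ((v x * d x) * (v z * d z)) +
      mz ^ 2 * ((v x * d x) * (v y * d y))) = 0 := by
      linear_combination hq + 8 * ((v x * d x) * (v y * d y) * (v z * d z)) * hsum -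
        ((v x * d x) * (v y * d y) * (v z * d z)) * hA
    linarith
  obtain ⟨hm0, -, -⟩ := Arith_desc _ _ _ mx my mz hA hsum hquad hmx' hmy' hmz'
  rw [hm0] at hmx
  rcases hsig x hx with h | h <;> rw [h] at hmx <;> linarith

end Pool.Agent.Zst
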