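import Mathlib

/-! The integer solutions of the relations, first part. -/

namespace Pool.Agent.Zst

private theorem ArithA_supp {ι : Type*} (B : Finset ι) (o : ι) (ho : o ∈ B) (c : ι → ℤ)
    (hc : c o = 1) (m : ℕ) (hm : m ≤ 3) (h1 : ∑ χ ∈ B, c χ ^ 2 = m + 1) :
    ∃ S ⊆ B, o ∉ S ∧ S.card = m ∧ (∀ χ ∈ S, c χ = 1 ∨ c χ = -1) ∧
      ∀ χ ∈ B, χ ≠ o → χ ∉ S → c χ = 0 := by
  classical
  have h2 : ∑ χ ∈ B.erase o, c χ ^ 2 = m := by
    have h3 := Finset.add_sum_erase B (fun χ => c χ ^ 2) ho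
    simp only [hc] at h3
    linarith
  have h4 : ∀ χ ∈ B.erase o, c χ ^ 2 ≤ 3 := by
    intro χ hχ
    have h5 := Finset.single_le_sum (f := fun χ => c χ ^ 2) (fun i _ => sq_nonneg (c i)) hχ
    have h6 : (m : ℤ) ≤ 3 := by exact_mod_cast hm
    linarith
  have h5 : ∀ χ ∈ B.erase o, c χ ≠ 0 → c χ = 1 ∨ c χ = -1 := by
    intro χ hχ h0
    have h6 := h4 χ hχ
    have h7 : c χ < 2 := by nlinarith
    have h8 : -2 < c χ := by nlinarith
    omega
  refine ⟨(B.erase o).filter (fun χ => c χ ≠ 0), ?_, ?_, ?_, ?_, ?_⟩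
  · exact (Finset.filter_subset _ _).trans (Finset.erase_subset _ _)
  · intro h
    exact (Finset.mem_erase.1 (Finset.mem_filter.1 h).1).1 rfl
  · have h6 : ∑ χ ∈ B.erase o, c χ ^ 2 = ∑ χ ∈ (B.erase o).filter (fun χ => c χ ≠ 0), (1 : ℤ) := by
      rw [Finset.sum_filter]
      refine Finset.sum_congr rfl fun χ hχ => ?_
      by_cases h : c χ = 0
      · simp [h]
      · rw [if_pos h]
        rcases h5 χ hχ h with h7 | h7 <;> rw [h7] <;> norm_num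
    rw [h2, Finset.sum_const, nsmul_eq_mul, mul_one] at h6
    exact_mod_cast h6.symm
  · intro χ hχ
    obtain ⟨h6, h7⟩ := Finset.mem_filter.1 hχ
    exact h5 χ h6 h7
  · intro χ hχ h6 h7
    by_contra h8
    exact h7 (Finset.mem_filter.2 ⟨Finset.mem_erase.2 ⟨h6, hχ⟩, h8⟩)

private theorem ArithA_sum {ι R : Type*} [CommRing R] {B S : Finset ι} {o : ι} (ho : o ∈ B)
    (hS : S ⊆ B) (hoS : o ∉ S) {c : ι → ℤ} (hc : c o = 1)
    (hz : ∀ χ ∈ B, χ ≠ o → χ ∉ S → c χ = 0) (g : ι → R) :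
    ∑ χ ∈ B, (c χ : R) * g χ = g o + ∑ χ ∈ S, (c χ : R) * g χ := by
  classical
  rw [← Finset.add_sum_erase B _ ho, hc, Int.cast_one, one_mul]
  congr 1
  symm
  refine Finset.sum_subset ?_ ?_
  · intro χ hχ
    exact Finset.mem_erase.2 ⟨fun h => hoS (h ▸ hχ), hS hχ⟩
  · intro χ hχ hχ'
    obtain ⟨h1, h2⟩ := Finset.mem_erase.1 hχ
    rw [hz χ h2 h1 hχ', Int.cast_zero, zero_mul]

/-- PROOF. `c o = 1`, so exactly one other `χ` has `c χ = ε = ± 1`, all others have `c = 0`. Then `1 + ε d(χ) = 0` gives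
`ε = - 1`, `d(χ) = 1`, and `1 + ε e(χ) = 0` gives `e(χ) = 1`. -/
theorem Arith_two {ι : Type*} (B : Finset ι) (o : ι) (ho : o ∈ B) (c d e : ι → ℤ) (hc : c o = 1)
    (hd : d o = 1) (he : e o = 1) (hpos : ∀ χ ∈ B, 0 < d χ) (h1 : ∑ χ ∈ B, c χ ^ 2 = 2)
    (h2 : ∑ χ ∈ B, c χ * d χ = 0) (h3 : ∑ χ ∈ B, c χ * e χ = 0) :
    ∃ χ ∈ B, χ ≠ o ∧ e χ = d χ := by
  obtain ⟨S, hS, hoS, hcard, hsig, hz⟩ := ArithA_supp B o ho c hc 1 (by norm_num) (by rw [h1]; norm_num)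
  obtain ⟨x, rfl⟩ := Finset.card_eq_one.1 hcard
  have e1 := ArithA_sum ho hS hoS hc hz d
  have e2 := ArithA_sum ho hS hoS hc hz e
  simp only [Finset.sum_singleton, Int.cast_id] at e1 e2
  rw [h2, hd] at e1
  rw [h3, he] at e2
  have hx : x ∈ ({x} : Finset ι) := Finset.mem_singleton_self x
  refine ⟨x, hS hx, fun h => hoS (h ▸ hx), ?_⟩
  rcases hsig x hx with h | h
  · rw [h] at e1 e2
    linarith
  · rw [h] at e1 e2
    linarith

/-- PROOF. `c o = 1`, so exactly two others have `c = ε₁, ε₂ = ± 1`. Put `a_i = ε_i d_i`, `b_i = ε_i e_i`: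
`1 + a₁ + a₂ = 0`, `1 + b₁ + b₂ = 0`, `1 + b₁^2 / a₁ + b₂^2 / a₂ = 0`. Insert `a₂ = - 1 - a₁`, `b₂ = - 1 - b₁` and multiply
by `a₁ (1 + a₁)`: `(a₁ - b₁)^2 = 0`. So `d₁ = e₁`. -/
theorem Arith_three {ι : Type*} (B : Finset ι) (o : ι) (ho : o ∈ B) (c d e : ι → ℤ) (hc : c o = 1)
    (hd : d o = 1) (he : e o = 1) (hpos : ∀ χ ∈ B, 0 < d χ) (h1 : ∑ χ ∈ B, c χ ^ 2 = 3)
    (h2 : ∑ χ ∈ B, c χ * d χ = 0) (h3 : ∑ χ ∈ B, c χ * e χ = 0)
    (h4 : ∑ χ ∈ B, (c χ : ℚ) * ((e χ : ℚ) ^ 2 / (d χ : ℚ)) = 0) :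
    ∃ χ ∈ B, χ ≠ o ∧ e χ = d χ := by
  classical
  obtain ⟨S, hS, hoS, hcard, hsig, hz⟩ := ArithA_supp B o ho c hc 2 (by norm_num) (by rw [h1]; norm_num)
  obtain ⟨x, y, hxy, rfl⟩ := Finset.card_eq_two.1 hcard
  have e1 := ArithA_sum ho hS hoS hc hz d
  have e2 := ArithA_sum ho hS hoS hc hz e
  have e3 := ArithA_sum ho hS hoS hc hz (fun χ => (e χ : ℚ) ^ 2 / (d χ : ℚ))
  rw [Finset.sum_pair hxy] at e1 e2 e3
  simp only [Int.cast_id] at e1 e2
  rw [h2, hd] at e1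
  rw [h3, he] at e2
  rw [h4, hd, he] at e3
  have hx : x ∈ ({x, y} : Finset ι) := by simp
  have hy : y ∈ ({x, y} : Finset ι) := by simp
  have hdx : (d x : ℚ) ≠ 0 := by exact_mod_cast (hpos x (hS hx)).ne'
  have hdy : (d y : ℚ) ≠ 0 := by exact_mod_cast (hpos y (hS hy)).ne'
  have e4 : (d x : ℚ) * d y + c x * (e x : ℚ) ^ 2 * d y + c y * (e y : ℚ) ^ 2 * d x = 0 := by
    field_simp at e3
    simp only [Int.cast_one] at e3
    linarith
  have e5 : d x * d y + c x * e x ^ 2 * d y + c y * e y ^ 2 * d x = 0 := by exact_mod_cast e4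
  refine ⟨x, hS hx, fun h => hoS (h ▸ hx), ?_⟩
  have key : (e x - d x) ^ 2 = 0 := by
    rcases hsig x hx with h | h <;> rcases hsig y hy with h' | h' <;> rw [h, h'] at e1 e2 e5
    · have h6 : d y = -1 - d x := by linarith
      have h7 : e y = -1 - e x := by linarith
      rw [h6, h7] at e5
      linear_combination -e5
    · have h6 : d y = 1 + d x := by linarith
      have h7 : e y = 1 + e x := by linarith
      rw [h6, h7] at e5
      linear_combination e5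
    · have h6 : d y = -1 + d x := by linarith
      have h7 : e y = -1 + e x := by linarith
      rw [h6, h7] at e5
      linear_combination e5
    · have h6 : d y = 1 - d x := by linarith
      have h7 : e y = 1 - e x := by linarith
      rw [h6, h7] at e5
      linear_combination -e5
  have := pow_eq_zero_iff (two_ne_zero) |>.1 key
  linarith

end Pool.Agent.Zst
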