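import Pool.Agent.Zst.Defs

/-! Elementary properties of isolated involutions. -/

namespace Pool.Agent.Zst

open Pool.Agent.KB

variable {G : Type} [Group G]

theorem Base_sq {x : G} (h : Isol x) : x * x = 1 := h.1

theorem Base_inv {x : G} (h : Isol x) : x⁻¹ = x := inv_eq_of_mul_eq_one_left h.1

theorem Base_csq {x : G} (h : Isol x) (g : G) : (g * x * g⁻¹) * (g * x * g⁻¹) = 1 := by
  have : (g * x * g⁻¹) * (g * x * g⁻¹) = g * (x * x) * g⁻¹ := by group
  rw [this, h.1]; group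

/-- A conjugate which commutes with `x` is `x`. -/
theorem Base_comm {x : G} (h : Isol x) (g : G) (hc : x * (g * x * g⁻¹) = (g * x * g⁻¹) * x) :
    g * x * g⁻¹ = x := by
  set y := g * x * g⁻¹ with hy
  have hyy : y * y = 1 := Base_csq h g
  have h1 : (x * y) ^ 2 = 1 := by
    rw [pow_two]
    calc x * y * (x * y) = x * (y * x) * y := by group
      _ = x * (x * y) * y := by rw [hc]
      _ = (x * x) * (y * y) := by group
      _ = 1 := by rw [h.1, hyy, one_mul]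
  have h2 : orderOf (x * y) ∣ 2 := orderOf_dvd_of_pow_eq_one h1
  have h3 : Odd (orderOf (x * y)) := h.2 g
  have h4 : orderOf (x * y) = 1 := by
    rcases (Nat.dvd_prime Nat.prime_two).1 h2 with h5 | h5
    · exact h5
    · rw [h5] at h3; exact absurd h3 (by decide)
  have h5 : x * y = 1 := orderOf_eq_one_iff.1 h4
  calc y = x * (x * y) := by rw [← mul_assoc, h.1, one_mul]
    _ = x := by rw [h5, mul_one]

theorem Base_conj {x : G} (h : Isol x) (g : G) : Isol (g * x * g⁻¹) := by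
  refine ⟨Base_csq h g, fun k => ?_⟩
  have h1 : g * x * g⁻¹ * (k * (g * x * g⁻¹) * k⁻¹) =
      g * (x * ((g⁻¹ * k * g) * x * (g⁻¹ * k * g)⁻¹)) * g⁻¹ := by group
  rw [h1]
  have h2 : orderOf (g * (x * ((g⁻¹ * k * g) * x * (g⁻¹ * k * g)⁻¹)) * g⁻¹) =
      orderOf (x * ((g⁻¹ * k * g) * x * (g⁻¹ * k * g)⁻¹)) :=
    orderOf_injective (MulAut.conj g).toMonoidHom (MulAut.conj g).injective _
  rw [h2]
  exact h.2 _

/-- Two conjugates of `x` in one `2`-subgroup are equal. -/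
theorem Base_two {x : G} (h : Isol x) (a b : G) (T : Subgroup G) (hT : IsPGroup 2 T)
    (ha : a * x * a⁻¹ ∈ T) (hb : b * x * b⁻¹ ∈ T) : a * x * a⁻¹ = b * x * b⁻¹ := by
  set y := a * x * a⁻¹ with hy
  have h1 : b * x * b⁻¹ = (b * a⁻¹) * y * (b * a⁻¹)⁻¹ := by rw [hy]; group
  have h2 : Isol y := Base_conj h a
  have h3 := h2.2 (b * a⁻¹)
  rw [← h1] at h3
  have h4 : y * (b * x * b⁻¹) ∈ T := T.mul_mem ha hb
  obtain ⟨k, hk⟩ := hT ⟨_, h4⟩
  have h5 : (y * (b * x * b⁻¹)) ^ 2 ^ k = 1 := by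
    have := congrArg (fun z : T => (z : G)) hk
    simpa using this
  have h6 : orderOf (y * (b * x * b⁻¹)) ∣ 2 ^ k := orderOf_dvd_of_pow_eq_one h5
  have h7 : orderOf (y * (b * x * b⁻¹)) = 1 := by
    have h8 : Nat.Coprime (orderOf (y * (b * x * b⁻¹))) (2 ^ k) :=
      (Nat.coprime_two_right.2 h3).pow_right k
    exact Nat.Coprime.eq_one_of_dvd h8 h6
  have h8 : y * (b * x * b⁻¹) = 1 := orderOf_eq_one_iff.1 h7
  have h9 : (b * x * b⁻¹) * (b * x * b⁻¹) = 1 := Base_csq h b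
  calc y = y * ((b * x * b⁻¹) * (b * x * b⁻¹)) := by rw [h9, mul_one]
    _ = (y * (b * x * b⁻¹)) * (b * x * b⁻¹) := by group
    _ = b * x * b⁻¹ := by rw [h8, one_mul]

theorem Base_sub {x : G} (h : Isol x) (H : Subgroup G) (hx : x ∈ H) : Isol (⟨x, hx⟩ : H) := by
  refine ⟨Subtype.ext h.1, fun g => ?_⟩
  have h1 : orderOf ((⟨x, hx⟩ : H) * (g * ⟨x, hx⟩ * g⁻¹)) =
      orderOf (x * ((g : G) * x * (g : G)⁻¹)) := by
    rw [← Subgroup.orderOf_coe]
    rfl
  rw [h1]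
  exact h.2 _

theorem Base_map {G' : Type} [Group G'] {x : G} (h : Isol x) (f : G →* G')
    (hf : Function.Surjective f) : Isol (f x) := by
  refine ⟨by rw [← map_mul, h.1, map_one], fun g => ?_⟩
  obtain ⟨k, rfl⟩ := hf g
  have h1 : f x * (f k * f x * (f k)⁻¹) = f (x * (k * x * k⁻¹)) := by simp
  rw [h1]
  exact Odd.of_dvd_nat (h.2 k) (orderOf_map_dvd f _)

/-- Two commuting involutions lie in a `2`-subgroup. -/
theorem Base_klein {x z : G} (hx : x * x = 1) (hz : z * z = 1) (hc : x * z = z * x) :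
    ∃ T : Subgroup G, IsPGroup 2 T ∧ x ∈ T ∧ z ∈ T := by
  have hxi : x⁻¹ = x := inv_eq_of_mul_eq_one_left hx
  have hzi : z⁻¹ = z := inv_eq_of_mul_eq_one_left hz
  have h1 : x * (x * z) = z := by rw [← mul_assoc, hx, one_mul]
  have h2 : z * (x * z) = x := by rw [hc, ← mul_assoc, hz, one_mul]
  have h3 : x * z * x = z := by rw [hc, mul_assoc, hx, mul_one]
  have h4 : x * z * z = x := by rw [mul_assoc, hz, mul_one]
  have h5 : x * z * (x * z) = 1 := by rw [← mul_assoc, h3, hz]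
  refine ⟨⟨⟨⟨{g | g = 1 ∨ g = x ∨ g = z ∨ g = x * z}, ?_⟩, ?_⟩, ?_⟩, ?_, ?_, ?_⟩
  · rintro a b (rfl | rfl | rfl | rfl) (rfl | rfl | rfl | rfl) <;>
      simp [hx, hz, h1, h2, h3, h4, h5, hc.symm]
  · simp
  · rintro a (rfl | rfl | rfl | rfl) <;> simp [hxi, hzi, hc.symm]
  · rintro ⟨g, hg⟩
    refine ⟨1, Subtype.ext ?_⟩
    change g ^ 2 ^ 1 = 1
    rw [pow_one, pow_two]
    rcases hg with rfl | rfl | rfl | rfl <;> simp [hx, hz, h5]
  · exact Or.inr (Or.inl rfl)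
  · exact Or.inr (Or.inr (Or.inl rfl))

/-- Conversely: if conjugates of `x` which lie with `x` in a `2`-subgroup are equal to `x`, then
`x` is isolated. -/
theorem Base_of [Finite G] {x : G} (hx : x * x = 1)
    (h : ∀ (g : G) (T : Subgroup G), IsPGroup 2 T → x ∈ T → g * x * g⁻¹ ∈ T → g * x * g⁻¹ = x) :
    Isol x := by
  refine ⟨hx, fun g => ?_⟩
  by_contra hodd
  rw [Nat.not_odd_iff_even] at hodd
  obtain ⟨k, hk⟩ := hodd
  set y := g * x * g⁻¹ with hy
  set w := x * y with hw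
  have hyy : y * y = 1 := by
    have : (g * x * g⁻¹) * (g * x * g⁻¹) = g * (x * x) * g⁻¹ := by group
    rw [hy, this, hx]; group
  have hxi : x⁻¹ = x := inv_eq_of_mul_eq_one_left hx
  have hyi : y⁻¹ = y := inv_eq_of_mul_eq_one_left hyy
  have hpos : 0 < orderOf w := orderOf_pos w
  have hkpos : 0 < k := by omega
  have hwk : w ^ k ≠ 1 := by
    intro h1
    have h2 := Nat.le_of_dvd hkpos (orderOf_dvd_of_pow_eq_one h1)
    omega
  have hwk2 : w ^ k * w ^ k = 1 := by rw [← pow_add, ← hk, pow_orderOf_eq_one]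
  have hinv : ∀ j : ℕ, x * w ^ j * x⁻¹ = (w ^ j)⁻¹ := by
    intro j
    rw [← conj_pow, ← inv_pow]
    congr 1
    rw [hw, hxi]
    calc x * (x * y) * x = (x * x) * (y * x) := by group
      _ = y * x := by rw [hx, one_mul]
      _ = (x * y)⁻¹ := by rw [mul_inv_rev, hxi, hyi]
  have hinv' : ∀ j : ℕ, x * w ^ j = (w ^ j)⁻¹ * x := by
    intro j
    rw [← hinv j]
    group
  have hcomm : x * w ^ k = w ^ k * x := by
    rw [hinv' k, inv_eq_of_mul_eq_one_left hwk2]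
  obtain ⟨T, hT, hxT, hwT⟩ := Base_klein hx hwk2 hcomm
  have hmem : x * w ^ k ∈ T := T.mul_mem hxT hwT
  -- `x * w ^ k` is a conjugate of `x`
  obtain ⟨c, hc⟩ : ∃ c : G, c * x * c⁻¹ = x * w ^ k := by
    rcases Nat.even_or_odd' k with ⟨j, hj | hj⟩
    · refine ⟨(w ^ j)⁻¹, ?_⟩
      rw [inv_inv, ← hinv' j, mul_assoc, ← pow_add]
      congr 2
      omega
    · refine ⟨(w ^ j)⁻¹ * g, ?_⟩
      have h1 : (w ^ j)⁻¹ * g * x * ((w ^ j)⁻¹ * g)⁻¹ = (w ^ j)⁻¹ * y * w ^ j := by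
        rw [hy]; group
      have h2 : y = x * w := by rw [hw, ← mul_assoc, hx, one_mul]
      rw [h1, h2, ← mul_assoc, ← hinv' j, mul_assoc, mul_assoc, ← pow_succ', ← pow_add]
      congr 2
      omega
  have h2 := h c T hT hxT (by rw [hc]; exact hmem)
  rw [hc] at h2
  exact hwk (mul_left_cancel (h2.trans (mul_one x).symm))

end Pool.Agent.Zst
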