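import Pool.Agent.Zst.Norm
import Pool.Agent.Zst.Char

/-! A nontrivial irreducible character with `x` in its kernel gives a contradiction. -/

namespace Pool.Agent.Zst

open Pool.Agent.KB

theorem End_main {G : Type} [Group G] [Finite G] {x : G} (h : Min G x) (χ : G → ℂ)
    (hχ : χ ∈ Irr G) (hne : χ ≠ fun _ => 1) (hx : χ x = χ 1) : False := by
  obtain ⟨M, hM, hM2⟩ := Char_ker χ hχ
  have h1 : M = ⊤ := Norm_main h M hM ((hM2 x).2 hx)
  refine hne (Char_one χ hχ fun g => (hM2 g).1 ?_)
  rw [h1]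
  exact Subgroup.mem_top g

end Pool.Agent.Zst
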