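import Pool.Agent.Zst.Base
import Pool.Agent.Zst.Char

/-! The three relations. -/

namespace Pool.Agent.Zst

open Pool.Agent.KB

/-- PROOF. `hB.orth` with `u = 1`, `r = s = 1`. -/
theorem Rel_one {G : Type} [Group G] [Finite G] {B : Finset (G → ℂ)} (hB : PBlock G B) (v : G)
    (hv : ∃ m : ℕ, v ^ 2 ^ m = 1) (hv1 : v ≠ 1) : ∑ χ ∈ B, χ 1 * χ v⁻¹ = 0 := by
  have h := hB.orth 1 v 1 1 ⟨0, one_pow _⟩ hv (by rw [orderOf_one]; exact odd_one)
    (by rw [orderOf_one]; exact odd_one) rfl (by rw [mul_one, one_mul])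
    (fun hc => hv1 (isConj_one_right.1 hc))
  simpa only [mul_one] using h

/-- PROOF. `hB.orth` with `u = x`, `r = s = 1`. -/
theorem Rel_inv {G : Type} [Group G] [Finite G] {B : Finset (G → ℂ)} (hB : PBlock G B) (x v : G)
    (hx : x * x = 1) (hv : ∃ m : ℕ, v ^ 2 ^ m = 1) (hxv : ¬ IsConj x v) :
    ∑ χ ∈ B, χ x * χ v⁻¹ = 0 := by
  have h := hB.orth x v 1 1 ⟨1, by rw [pow_one, pow_two, hx]⟩ hv
    (by rw [orderOf_one]; exact odd_one) (by rw [orderOf_one]; exact odd_one)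
    (by rw [mul_one, one_mul]) (by rw [mul_one, one_mul]) hxv
  simpa only [mul_one] using h

/-- PROOF. By `Char_avg` (`a = b = x`), `χ(x)^2 / χ(1) = (1/|G|) ∑_g χ(x * (g * x * g⁻¹))`; exchange the sums; for every `g`
the element `r = x * (g * x * g⁻¹)` has odd order, and `hB.orth` with `u = 1`, this `r`, and `s = 1` gives `0`. -/
theorem Rel_avg {G : Type} [Group G] [Finite G] {B : Finset (G → ℂ)} (hB : PBlock G B) (x v : G)
    (hx : Isol x) (hv : ∃ m : ℕ, v ^ 2 ^ m = 1) (hv1 : v ≠ 1) :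
    ∑ χ ∈ B, (χ x * χ x / χ 1) * χ v⁻¹ = 0 := by
  have := Fintype.ofFinite G
  have hG : (Nat.card G : ℂ) ≠ 0 := by
    rw [Nat.cast_ne_zero]
    exact Nat.card_pos.ne'
  have h1 : ∀ χ ∈ B, (χ x * χ x / χ 1) * χ v⁻¹ =
      ∑ g : G, (Nat.card G : ℂ)⁻¹ * (χ (x * (g * x * g⁻¹)) * χ v⁻¹) := by
    intro χ hχ
    have h2 := Char_avg χ (hB.irr χ hχ) x x
    obtain ⟨d, hd, hd1⟩ := Char_deg χ (hB.irr χ hχ)
    have h3 : χ 1 ≠ 0 := by
      rw [hd1]
      exact_mod_cast hd.ne'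
    rw [← Finset.mul_sum, ← Finset.sum_mul]
    have h4 : χ x * χ x / χ 1 = (Nat.card G : ℂ)⁻¹ * ∑ g : G, χ (x * (g * x * g⁻¹)) := by
      rw [div_eq_iff h3, mul_assoc, eq_inv_mul_iff_mul_eq₀ hG, ← h2]
      ring
    rw [h4]
    ring
  rw [Finset.sum_congr rfl h1, Finset.sum_comm]
  refine Finset.sum_eq_zero fun g _ => ?_
  rw [← Finset.mul_sum]
  have h := hB.orth 1 v (x * (g * x * g⁻¹)) 1 ⟨0, one_pow _⟩ hv (hx.2 g)
    (by rw [orderOf_one]; exact odd_one) (by rw [mul_one, one_mul]) (by rw [mul_one, one_mul])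
    (fun hc => hv1 (isConj_one_right.1 hc))
  simp only [one_mul, mul_one] at h
  rw [h, mul_zero]

end Pool.Agent.Zst
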