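import Pool.Agent.Zst.Pair
import Pool.Agent.Zst.Rel
import Pool.Agent.Zst.Arith
import Pool.Agent.Zst.End

/-! The case where `a` is not conjugate to its inverse. -/

namespace Pool.Agent.Zst

open Pool.Agent.KB

/-- powers of two annihilate the powers of `a` -/
private theorem caseI_two {G : Type} [Group G] [Finite G] {x a : G} {n : ℕ} {K : Subgroup G}
    (hC : Cyc G x a n K) (t : ℕ) : ∃ m : ℕ, (a ^ t) ^ 2 ^ m = 1 :=
  ⟨n, by rw [← pow_mul, mul_comm, pow_mul, ← hC.ord, pow_orderOf_eq_one, one_pow]⟩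

private theorem caseI_an {G : Type} [Group G] [Finite G] {x a : G} {n : ℕ} {K : Subgroup G}
    (hC : Cyc G x a n K) : a ^ 2 ^ n = 1 := by
  rw [← hC.ord, pow_orderOf_eq_one]

/-- reflection of the sum -/
private theorem caseI_refl {G : Type} [Group G] [Finite G] {x a : G} {n : ℕ} {K : Subgroup G}
    (hC : Cyc G x a n K) (χ : G → ℂ) (α : ℕ → ℂ) (h0 : α 0 = 0)
    (hs : ∀ t : ℕ, 0 < t → t < 2 ^ n → α (2 ^ n - t) = α t) :
    ∑ t ∈ Finset.range (2 ^ n), α t * χ (a ^ t)⁻¹ =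
      ∑ t ∈ Finset.range (2 ^ n), α t * χ (a ^ t) := by
  obtain ⟨N, hN⟩ : ∃ N, 2 ^ n = N + 1 := ⟨2 ^ n - 1, by
    have : 0 < 2 ^ n := by positivity
    omega⟩
  rw [hN, Finset.sum_range_succ', Finset.sum_range_succ', h0, zero_mul, zero_mul, add_zero,
    add_zero]
  rw [← Finset.sum_range_reflect (fun t => α (t + 1) * χ (a ^ (t + 1)))]
  refine Finset.sum_congr rfl fun t ht => ?_
  have ht' := Finset.mem_range.1 ht
  have h1 := hs (t + 1) (by omega) (by omega)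
  have h2 : N - 1 - t + 1 = 2 ^ n - (t + 1) := by omega
  rw [h2, h1]
  congr 2
  rw [inv_eq_iff_mul_eq_one, ← pow_add]
  have h3 : t + 1 + (2 ^ n - (t + 1)) = 2 ^ n := by omega
  rw [h3, caseI_an hC]

theorem CaseI_main {G : Type} [Group G] [Finite G] {x a : G} {n : ℕ} {K : Subgroup G} (h : Min G x)
    (hC : Cyc G x a n K) (hu : ∀ u : G, u * u = 1 → x * u = u * x → u = 1 ∨ u = x)
    {B : Finset (G → ℂ)} (hB : PBlock G B) (ha : ¬ IsConj a a⁻¹) : False := by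
  classical
  have hx : x * x = 1 := h.isol.1
  have hn2 := hC.two
  have han := caseI_an hC
  let α : ℕ → ℂ := fun t => 1 - (-1) ^ t
  have hpar : ∀ t : ℕ, a ^ (2 * t) = 1 → Even t := by
    intro t ht
    have h1 := orderOf_dvd_of_pow_eq_one ht
    rw [hC.ord] at h1
    have h2 : 2 ^ 2 ∣ 2 * t := (pow_dvd_pow 2 hn2).trans h1
    rw [even_iff_two_dvd]
    omega
  have hα : ∀ t : ℕ, a ^ (2 * t) = 1 → α t = 0 := by
    intro t ht
    change 1 - (-1 : ℂ) ^ t = 0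
    rw [(hpar t ht).neg_one_pow, sub_self]
  have hev : Even (2 ^ n) := by
    rw [even_iff_two_dvd]
    exact dvd_pow_self 2 (by omega)
  have hs : ∀ t : ℕ, 0 < t → t < 2 ^ n → α (2 ^ n - t) = α t := by
    intro t _ ht
    change 1 - (-1 : ℂ) ^ (2 ^ n - t) = 1 - (-1 : ℂ) ^ t
    congr 1
    rcases Nat.even_or_odd t with h1 | h1
    · rw [h1.neg_one_pow, Even.neg_one_pow]
      exact (Nat.even_sub ht.le).2 (iff_of_true hev h1)
    · rw [h1.neg_one_pow, Odd.neg_one_pow]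
      exact (Nat.odd_sub ht.le).2 (by
        constructor
        · intro h2; exact absurd h2 (Nat.not_odd_iff_even.2 hev)
        · intro h2; exact absurd h1 (Nat.not_odd_iff_even.2 h2))
  have hpos : 0 < 2 ^ n := by positivity
  -- the multiplicities
  have hc : ∀ χ : G → ℂ, ∃ c : ℤ, χ ∈ Irr G → ∑ t ∈ Finset.range (2 ^ n), α t * χ (a ^ t) =
      2 ^ n * c := by
    intro χ
    by_cases hχ : χ ∈ Irr G
    · obtain ⟨k0, hk0⟩ := Char_cyc χ hχ a 1 (2 ^ n) hpos han (one_pow _)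
      obtain ⟨k1, hk1⟩ := Char_cyc χ hχ a (-1) (2 ^ n) hpos han hev.neg_one_pow
      refine ⟨(k0 : ℤ) - k1, fun _ => ?_⟩
      have h1 : ∑ t ∈ Finset.range (2 ^ n), α t * χ (a ^ t) =
          (∑ t ∈ Finset.range (2 ^ n), (1 : ℂ) ^ t * χ (a ^ t)) -
            ∑ t ∈ Finset.range (2 ^ n), (-1 : ℂ) ^ t * χ (a ^ t) := by
        rw [← Finset.sum_sub_distrib]
        refine Finset.sum_congr rfl fun t _ => ?_
        change (1 - (-1 : ℂ) ^ t) * _ = _
        rw [one_pow]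
        ring
      rw [h1, hk0, hk1]
      push_cast
      ring
    · exact ⟨0, fun h' => absurd h' hχ⟩
  choose c hc using hc
  have hd : ∀ χ : G → ℂ, ∃ d : ℤ, χ ∈ Irr G → 0 < d ∧ χ 1 = d := by
    intro χ
    by_cases hχ : χ ∈ Irr G
    · obtain ⟨d, h1, h2⟩ := Char_deg χ hχ
      exact ⟨d, fun _ => ⟨by exact_mod_cast h1, by rw [h2]; norm_cast⟩⟩
    · exact ⟨0, fun h' => absurd h' hχ⟩
  choose d hd using hd
  have he : ∀ χ : G → ℂ, ∃ e : ℤ, χ ∈ Irr G → χ x = e := by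
    intro χ
    by_cases hχ : χ ∈ Irr G
    · obtain ⟨e, h1⟩ := Char_inv χ hχ x hx
      exact ⟨e, fun _ => h1⟩
    · exact ⟨0, fun h' => absurd h' hχ⟩
  choose e he using he
  have hone : ((2 : ℂ) ^ n) ≠ 0 := pow_ne_zero _ two_ne_zero
  -- sums over `α`
  have hcI : ∀ χ ∈ B, ∑ t ∈ Finset.range (2 ^ n), α t * χ (a ^ t)⁻¹ = 2 ^ n * c χ := by
    intro χ hχ
    rw [caseI_refl hC χ α (by change 1 - (-1 : ℂ) ^ 0 = 0; norm_num) hs, hc χ (hB.irr χ hχ)]
  have hα2 : ∑ t ∈ Finset.range (2 ^ n), α t ^ 2 = 2 * 2 ^ n := by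
    have h1 : ∀ t ∈ Finset.range (2 ^ n), α t ^ 2 = 2 - 2 * (-1 : ℂ) ^ t := by
      intro t _
      change (1 - (-1 : ℂ) ^ t) ^ 2 = _
      have h2 : ((-1 : ℂ) ^ t) ^ 2 = 1 := by rw [← pow_mul, mul_comm, pow_mul, neg_one_sq, one_pow]
      linear_combination h2
    rw [Finset.sum_congr rfl h1, Finset.sum_sub_distrib, Finset.sum_const, Finset.card_range,
      ← Finset.mul_sum, neg_one_geom_sum, if_pos hev]
    simp
    ring
  have hsum1 : ∑ χ ∈ B, c χ ^ 2 = 2 := by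
    have h1 := Pair_one hC hu hB ha α hα
    have h2 : ∑ χ ∈ B, (∑ t ∈ Finset.range (2 ^ n), α t * χ (a ^ t)) *
        (∑ t ∈ Finset.range (2 ^ n), α t * χ (a ^ t)⁻¹) =
        (2 ^ n) * (2 ^ n) * ∑ χ ∈ B, (c χ : ℂ) ^ 2 := by
      rw [Finset.mul_sum]
      refine Finset.sum_congr rfl fun χ hχ => ?_
      rw [hcI χ hχ, hc χ (hB.irr χ hχ)]
      ring
    rw [h2, hα2] at h1
    have h3 : ∑ χ ∈ B, (c χ : ℂ) ^ 2 = 2 := by
      refine mul_left_cancel₀ (mul_ne_zero hone hone) (h1.trans ?_)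
      ring
    exact_mod_cast h3
  have ho : c (fun _ => 1) = 1 := by
    have h1 := hc _ (hB.irr _ hB.one)
    have h2 : ∑ t ∈ Finset.range (2 ^ n), α t * (1 : ℂ) = 2 ^ n := by
      have h3 : ∀ t ∈ Finset.range (2 ^ n), α t * (1 : ℂ) = 1 - (-1 : ℂ) ^ t := fun t _ => by
        rw [mul_one]
      rw [Finset.sum_congr rfl h3, Finset.sum_sub_distrib, Finset.sum_const, Finset.card_range,
        neg_one_geom_sum, if_pos hev]
      simp
    rw [h2] at h1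
    have h3 : ((c (fun _ => 1) : ℤ) : ℂ) = 1 := by
      refine mul_left_cancel₀ hone ?_
      rw [← h1, mul_one]
    exact_mod_cast h3
  have hdo : d (fun _ => 1) = 1 := by
    have h1 := (hd _ (hB.irr _ hB.one)).2
    exact_mod_cast h1.symm
  have heo : e (fun _ => 1) = 1 := by
    have h1 := he _ (hB.irr _ hB.one)
    exact_mod_cast h1.symm
  have hne1 : ∀ t : ℕ, a ^ (2 * t) ≠ 1 → a ^ t ≠ 1 := by
    intro t ht h1
    apply ht
    rw [mul_comm, pow_mul, h1, one_pow]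
  have hnx : ∀ t : ℕ, a ^ (2 * t) ≠ 1 → ¬ IsConj x (a ^ t) := by
    intro t ht h1
    apply ht
    obtain ⟨g, hg⟩ := isConj_iff.1 h1
    rw [mul_comm, pow_mul, ← hg, conj_pow, pow_two, hx]
    group
  have hrel : ∀ F : (G → ℂ) → ℂ, (∀ t : ℕ, a ^ (2 * t) ≠ 1 → ∑ χ ∈ B, F χ * χ (a ^ t)⁻¹ = 0) →
      ∑ χ ∈ B, F χ * c χ = 0 := by
    intro F hF
    have h1 := Pair_rel a n B F α hα hF
    have h2 : ∑ χ ∈ B, F χ * (∑ t ∈ Finset.range (2 ^ n), α t * χ (a ^ t)⁻¹) =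
        2 ^ n * ∑ χ ∈ B, F χ * c χ := by
      rw [Finset.mul_sum]
      refine Finset.sum_congr rfl fun χ hχ => ?_
      rw [hcI χ hχ]
      ring
    rw [h2] at h1
    exact (mul_eq_zero.1 h1).resolve_left hone
  have hsum2 : ∑ χ ∈ B, c χ * d χ = 0 := by
    have h1 := hrel (fun χ => χ 1) fun t ht => Rel_one hB _ (caseI_two hC t) (hne1 t ht)
    have h2 : ∑ χ ∈ B, χ 1 * (c χ : ℂ) = ((∑ χ ∈ B, c χ * d χ : ℤ) : ℂ) := by
      push_cast
      refine Finset.sum_congr rfl fun χ hχ => ?_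
      rw [(hd χ (hB.irr χ hχ)).2]
      ring
    rw [h2] at h1
    exact_mod_cast h1
  have hsum3 : ∑ χ ∈ B, c χ * e χ = 0 := by
    have h1 := hrel (fun χ => χ x) fun t ht => Rel_inv hB x _ hx (caseI_two hC t) (hnx t ht)
    have h2 : ∑ χ ∈ B, χ x * (c χ : ℂ) = ((∑ χ ∈ B, c χ * e χ : ℤ) : ℂ) := by
      push_cast
      refine Finset.sum_congr rfl fun χ hχ => ?_
      rw [he χ (hB.irr χ hχ)]
      ring
    rw [h2] at h1
    exact_mod_cast h1
  obtain ⟨χ, hχ, hχ1, hχ2⟩ := Arith_two B _ hB.one c d e ho hdo heo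
    (fun χ hχ => (hd χ (hB.irr χ hχ)).1) hsum1 hsum2 hsum3
  refine End_main h χ (hB.irr χ hχ) hχ1 ?_
  rw [he χ (hB.irr χ hχ), (hd χ (hB.irr χ hχ)).2, hχ2]

end Pool.Agent.Zst
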