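import Pool.Agent.Zst.Pair
import Pool.Agent.Zst.Rel
import Pool.Agent.Zst.Arith
import Pool.Agent.Zst.End

/-! The case where `a` is conjugate to its inverse and has order at least eight. -/

namespace Pool.Agent.Zst

open Pool.Agent.KB

/-- powers of two annihilate the powers of `a` -/
private theorem caseII_two {G : Type} [Group G] [Finite G] {x a : G} {n : ℕ} {K : Subgroup G}
    (hC : Cyc G x a n K) (t : ℕ) : ∃ m : ℕ, (a ^ t) ^ 2 ^ m = 1 :=
  ⟨n, by rw [← pow_mul, mul_comm, pow_mul, ← hC.ord, pow_orderOf_eq_one, one_pow]⟩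

private theorem caseII_an {G : Type} [Group G] [Finite G] {x a : G} {n : ℕ} {K : Subgroup G}
    (hC : Cyc G x a n K) : a ^ 2 ^ n = 1 := by
  rw [← hC.ord, pow_orderOf_eq_one]

/-- reflection of the sum -/
private theorem caseII_refl {G : Type} [Group G] [Finite G] {x a : G} {n : ℕ} {K : Subgroup G}
    (hC : Cyc G x a n K) (χ : G → ℂ) (α β : ℕ → ℂ) (h0 : α 0 = β 0)
    (hs : ∀ t : ℕ, 0 < t → t < 2 ^ n → β (2 ^ n - t) = α t) :
    ∑ t ∈ Finset.range (2 ^ n), α t * χ (a ^ t)⁻¹ =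
      ∑ t ∈ Finset.range (2 ^ n), β t * χ (a ^ t) := by
  obtain ⟨N, hN⟩ : ∃ N, 2 ^ n = N + 1 := ⟨2 ^ n - 1, by
    have : 0 < 2 ^ n := by positivity
    omega⟩
  rw [hN, Finset.sum_range_succ', Finset.sum_range_succ', h0, pow_zero, inv_one]
  congr 1
  rw [← Finset.sum_range_reflect (fun t => β (t + 1) * χ (a ^ (t + 1)))]
  refine Finset.sum_congr rfl fun t ht => ?_
  have ht' := Finset.mem_range.1 ht
  have h1 := hs (t + 1) (by omega) (by omega)
  have h2 : N - 1 - t + 1 = 2 ^ n - (t + 1) := by omega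
  rw [h2, h1]
  congr 2
  rw [inv_eq_iff_mul_eq_one, ← pow_add]
  have h3 : t + 1 + (2 ^ n - (t + 1)) = 2 ^ n := by omega
  rw [h3, caseII_an hC]

private theorem caseII_geom {ζ : ℂ} {N : ℕ} (h1 : ζ ≠ 1) (hN : ζ ^ N = 1) :
    ∑ t ∈ Finset.range N, ζ ^ t = 0 := by
  rw [geom_sum_eq h1, hN, sub_self, zero_div]

theorem CaseII_main {G : Type} [Group G] [Finite G] {x a : G} {n : ℕ} {K : Subgroup G}
    (h : Min G x) (hC : Cyc G x a n K)
    (hu : ∀ u : G, u * u = 1 → x * u = u * x → u = 1 ∨ u = x) {B : Finset (G → ℂ)}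
    (hB : PBlock G B) (ha : IsConj a a⁻¹) (hn : 3 ≤ n) : False := by
  classical
  have hx : x * x = 1 := h.isol.1
  have han := caseII_an hC
  have hII : (-Complex.I) * Complex.I = 1 := by
    rw [neg_mul, Complex.I_mul_I, neg_neg]
  have hnI4 : (-Complex.I) ^ 4 = 1 := by
    rw [Even.neg_pow (by decide), Complex.I_pow_four]
  let α : ℕ → ℂ := fun t => 1 - (Complex.I ^ t + (-Complex.I) ^ t) / 2
  have h4n : 4 ∣ 2 ^ n := by
    have : 2 ^ 2 ∣ 2 ^ n := pow_dvd_pow 2 (by omega)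
    exact this
  have hI4 : ∀ t : ℕ, 4 ∣ t → Complex.I ^ t = 1 ∧ (-Complex.I) ^ t = 1 := by
    rintro t ⟨k, rfl⟩
    rw [pow_mul, pow_mul, Complex.I_pow_four, hnI4, one_pow]
    exact ⟨rfl, rfl⟩
  have hdvd : ∀ t : ℕ, a ^ (2 * t) = 1 → 4 ∣ t := by
    intro t ht
    have h1 := orderOf_dvd_of_pow_eq_one ht
    rw [hC.ord] at h1
    have h2 : 2 ^ 3 ∣ 2 * t := (pow_dvd_pow 2 hn).trans h1
    omega
  have hα : ∀ t : ℕ, a ^ (2 * t) = 1 → α t = 0 := by
    intro t ht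
    change 1 - (Complex.I ^ t + (-Complex.I) ^ t) / 2 = 0
    rw [(hI4 t (hdvd t ht)).1, (hI4 t (hdvd t ht)).2]
    norm_num
  have hI1 : ∀ t : ℕ, Complex.I ^ t * (-Complex.I) ^ t = 1 := by
    intro t
    rw [← mul_pow, mul_comm, hII, one_pow]
  have hIr : ∀ t : ℕ, t ≤ 2 ^ n → Complex.I ^ (2 ^ n - t) = (-Complex.I) ^ t := by
    intro t ht
    have h1 : Complex.I ^ (2 ^ n - t) * Complex.I ^ t = 1 := by
      rw [← pow_add, Nat.sub_add_cancel ht]
      exact (hI4 _ h4n).1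
    have h2 := hI1 t
    have h3 : Complex.I ^ t ≠ 0 := pow_ne_zero _ Complex.I_ne_zero
    refine mul_right_cancel₀ h3 ?_
    rw [h1, mul_comm, h2]
  have hIr' : ∀ t : ℕ, t ≤ 2 ^ n → (-Complex.I) ^ (2 ^ n - t) = Complex.I ^ t := by
    intro t ht
    have h1 := hIr (2 ^ n - t) (Nat.sub_le _ _)
    rw [Nat.sub_sub_self ht] at h1
    exact h1.symm
  have hs : ∀ t : ℕ, 0 < t → t < 2 ^ n → α (2 ^ n - t) = α t := by
    intro t _ ht
    change 1 - (Complex.I ^ (2 ^ n - t) + (-Complex.I) ^ (2 ^ n - t)) / 2 =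
      1 - (Complex.I ^ t + (-Complex.I) ^ t) / 2
    rw [hIr t ht.le, hIr' t ht.le, add_comm]
  have hα0 : α 0 = 0 := by
    change 1 - (Complex.I ^ 0 + (-Complex.I) ^ 0) / 2 = 0
    norm_num
  have hpos : 0 < 2 ^ n := by positivity
  have hinv : ∀ χ ∈ Irr G, ∀ t : ℕ, χ (a ^ t)⁻¹ = χ (a ^ t) := by
    intro χ hχ t
    obtain ⟨g, hg⟩ := isConj_iff.1 ha
    refine (KBL.Col_class hχ (isConj_iff.2 ⟨g, ?_⟩)).symm
    rw [← conj_pow, hg, inv_pow]
  -- the multiplicities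
  have hc : ∀ χ : G → ℂ, ∃ c : ℤ, χ ∈ Irr G → ∑ t ∈ Finset.range (2 ^ n), α t * χ (a ^ t) =
      2 ^ n * c := by
    intro χ
    by_cases hχ : χ ∈ Irr G
    · obtain ⟨k0, hk0⟩ := Char_cyc χ hχ a 1 (2 ^ n) hpos han (one_pow _)
      obtain ⟨k1, hk1⟩ := Char_cyc χ hχ a Complex.I (2 ^ n) hpos han (hI4 _ h4n).1
      refine ⟨(k0 : ℤ) - k1, fun _ => ?_⟩
      have hk2 : ∑ t ∈ Finset.range (2 ^ n), (-Complex.I) ^ t * χ (a ^ t) =
          ((2 ^ n : ℕ) : ℂ) * k1 := by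
        rw [← hk1, ← caseII_refl hC χ (fun t => (-Complex.I) ^ t) (fun t => Complex.I ^ t)
          (by simp) (fun t _ ht => hIr t ht.le)]
        refine Finset.sum_congr rfl fun t _ => ?_
        rw [hinv χ hχ]
      have h1 : ∑ t ∈ Finset.range (2 ^ n), α t * χ (a ^ t) =
          (∑ t ∈ Finset.range (2 ^ n), (1 : ℂ) ^ t * χ (a ^ t)) -
            ((∑ t ∈ Finset.range (2 ^ n), Complex.I ^ t * χ (a ^ t)) +
              ∑ t ∈ Finset.range (2 ^ n), (-Complex.I) ^ t * χ (a ^ t)) / 2 := by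
        rw [← Finset.sum_add_distrib, Finset.sum_div, ← Finset.sum_sub_distrib]
        refine Finset.sum_congr rfl fun t _ => ?_
        change (1 - (Complex.I ^ t + (-Complex.I) ^ t) / 2) * _ = _
        rw [one_pow]
        ring
      rw [h1, hk0, hk1, hk2]
      push_cast
      ring
    · exact ⟨0, fun h' => absurd h' hχ⟩
  choose c hc using hc
  have hd : ∀ χ : G → ℂ, ∃ d : ℤ, χ ∈ Irr G → 0 < d ∧ χ 1 = d := by
    intro χ
    by_cases hχ : χ ∈ Irr G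
    · obtain ⟨d, h1, h2⟩ := Char_deg χ hχ
      exact ⟨d, fun _ => ⟨by exact_mod_cast h1, by rw [h2]; norm_cast⟩⟩
    · exact ⟨0, fun h' => absurd h' hχ⟩
  choose d hd using hd
  have he : ∀ χ : G → ℂ, ∃ e : ℤ, χ ∈ Irr G → χ x = e := by
    intro χ
    by_cases hχ : χ ∈ Irr G
    · obtain ⟨e, h1⟩ := Char_inv χ hχ x hx
      exact ⟨e, fun _ => h1⟩
    · exact ⟨0, fun h' => absurd h' hχ⟩
  choose e he using he
  have hone : ((2 : ℂ) ^ n) ≠ 0 := pow_ne_zero _ two_ne_zero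
  have hcI : ∀ χ ∈ B, ∑ t ∈ Finset.range (2 ^ n), α t * χ (a ^ t)⁻¹ = 2 ^ n * c χ := by
    intro χ hχ
    rw [← hc χ (hB.irr χ hχ)]
    refine Finset.sum_congr rfl fun t _ => ?_
    rw [hinv χ (hB.irr χ hχ)]
  -- geometric sums
  have hneI : Complex.I ≠ 1 := by
    intro h1
    have := congrArg Complex.im h1
    simp at this
  have hnenI : -Complex.I ≠ 1 := by
    intro h1
    have := congrArg Complex.im h1
    simp at this
  have g1 : ∑ t ∈ Finset.range (2 ^ n), Complex.I ^ t = 0 := caseII_geom hneI (hI4 _ h4n).1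
  have g2 : ∑ t ∈ Finset.range (2 ^ n), (-Complex.I) ^ t = 0 := caseII_geom hnenI (hI4 _ h4n).2
  have hev : Even (2 ^ n) := by
    rw [even_iff_two_dvd]
    exact dvd_pow_self 2 (by omega)
  have g3 : ∑ t ∈ Finset.range (2 ^ n), (-1 : ℂ) ^ t = 0 := by
    rw [neg_one_geom_sum, if_pos hev]
  have hα2 : ∑ t ∈ Finset.range (2 ^ n), α t ^ 2 = 3 / 2 * 2 ^ n := by
    have h1 : ∀ t ∈ Finset.range (2 ^ n), α t ^ 2 =
        (3 / 2 - Complex.I ^ t - (-Complex.I) ^ t) + 1 / 2 * (-1 : ℂ) ^ t := by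
      intro t _
      change (1 - (Complex.I ^ t + (-Complex.I) ^ t) / 2) ^ 2 = _
      have h2 : (Complex.I ^ t) ^ 2 = (-1) ^ t := by
        rw [← pow_mul, mul_comm, pow_mul, Complex.I_sq]
      have h3 : ((-Complex.I) ^ t) ^ 2 = (-1) ^ t := by
        rw [← pow_mul, mul_comm, pow_mul, neg_sq, Complex.I_sq]
      linear_combination h2 / 4 + h3 / 4 + hI1 t / 2
    rw [Finset.sum_congr rfl h1, Finset.sum_add_distrib, Finset.sum_sub_distrib,
      Finset.sum_sub_distrib, Finset.sum_const, Finset.card_range,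
      ← Finset.mul_sum, g1, g2, g3]
    simp
    ring
  have hsum1 : ∑ χ ∈ B, c χ ^ 2 = 3 := by
    have h1 := Pair_two hC hu hB ha α hα hs
    have h2 : ∑ χ ∈ B, (∑ t ∈ Finset.range (2 ^ n), α t * χ (a ^ t)) *
        (∑ t ∈ Finset.range (2 ^ n), α t * χ (a ^ t)⁻¹) =
        (2 ^ n) * (2 ^ n) * ∑ χ ∈ B, (c χ : ℂ) ^ 2 := by
      rw [Finset.mul_sum]
      refine Finset.sum_congr rfl fun χ hχ => ?_
      rw [hcI χ hχ, hc χ (hB.irr χ hχ)]
      ring
    rw [h2, hα2] at h1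
    have h3 : ∑ χ ∈ B, (c χ : ℂ) ^ 2 = 3 := by
      refine mul_left_cancel₀ (mul_ne_zero hone hone) (h1.trans ?_)
      ring
    exact_mod_cast h3
  have ho : c (fun _ => 1) = 1 := by
    have h1 := hc _ (hB.irr _ hB.one)
    have h2 : ∑ t ∈ Finset.range (2 ^ n), α t * (1 : ℂ) = 2 ^ n := by
      have h3 : ∀ t ∈ Finset.range (2 ^ n), α t * (1 : ℂ) =
          1 - (Complex.I ^ t + (-Complex.I) ^ t) / 2 := fun t _ => by
        rw [mul_one]
      rw [Finset.sum_congr rfl h3, Finset.sum_sub_distrib, Finset.sum_const, Finset.card_range,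
        ← Finset.sum_div, Finset.sum_add_distrib, g1, g2]
      simp
    rw [h2] at h1
    have h3 : ((c (fun _ => 1) : ℤ) : ℂ) = 1 := by
      refine mul_left_cancel₀ hone ?_
      rw [← h1, mul_one]
    exact_mod_cast h3
  have hdo : d (fun _ => 1) = 1 := by
    have h1 := (hd _ (hB.irr _ hB.one)).2
    exact_mod_cast h1.symm
  have heo : e (fun _ => 1) = 1 := by
    have h1 := he _ (hB.irr _ hB.one)
    exact_mod_cast h1.symm
  have hne1 : ∀ t : ℕ, a ^ (2 * t) ≠ 1 → a ^ t ≠ 1 := by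
    intro t ht h1
    apply ht
    rw [mul_comm, pow_mul, h1, one_pow]
  have hnx : ∀ t : ℕ, a ^ (2 * t) ≠ 1 → ¬ IsConj x (a ^ t) := by
    intro t ht h1
    apply ht
    obtain ⟨g, hg⟩ := isConj_iff.1 h1
    rw [mul_comm, pow_mul, ← hg, conj_pow, pow_two, hx]
    group
  have hrel : ∀ F : (G → ℂ) → ℂ, (∀ t : ℕ, a ^ (2 * t) ≠ 1 → ∑ χ ∈ B, F χ * χ (a ^ t)⁻¹ = 0) →
      ∑ χ ∈ B, F χ * c χ = 0 := by
    intro F hF
    have h1 := Pair_rel a n B F α hα hF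
    have h2 : ∑ χ ∈ B, F χ * (∑ t ∈ Finset.range (2 ^ n), α t * χ (a ^ t)⁻¹) =
        2 ^ n * ∑ χ ∈ B, F χ * c χ := by
      rw [Finset.mul_sum]
      refine Finset.sum_congr rfl fun χ hχ => ?_
      rw [hcI χ hχ]
      ring
    rw [h2] at h1
    exact (mul_eq_zero.1 h1).resolve_left hone
  have hsum2 : ∑ χ ∈ B, c χ * d χ = 0 := by
    have h1 := hrel (fun χ => χ 1) fun t ht => Rel_one hB _ (caseII_two hC t) (hne1 t ht)
    have h2 : ∑ χ ∈ B, χ 1 * (c χ : ℂ) = ((∑ χ ∈ B, c χ * d χ : ℤ) : ℂ) := by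
      push_cast
      refine Finset.sum_congr rfl fun χ hχ => ?_
      rw [(hd χ (hB.irr χ hχ)).2]
      ring
    rw [h2] at h1
    exact_mod_cast h1
  have hsum3 : ∑ χ ∈ B, c χ * e χ = 0 := by
    have h1 := hrel (fun χ => χ x) fun t ht => Rel_inv hB x _ hx (caseII_two hC t) (hnx t ht)
    have h2 : ∑ χ ∈ B, χ x * (c χ : ℂ) = ((∑ χ ∈ B, c χ * e χ : ℤ) : ℂ) := by
      push_cast
      refine Finset.sum_congr rfl fun χ hχ => ?_
      rw [he χ (hB.irr χ hχ)]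
      ring
    rw [h2] at h1
    exact_mod_cast h1
  have hsum4 : ∑ χ ∈ B, (c χ : ℚ) * ((e χ : ℚ) ^ 2 / (d χ : ℚ)) = 0 := by
    have h1 := hrel (fun χ => χ x * χ x / χ 1) fun t ht =>
      Rel_avg hB x _ h.isol (caseII_two hC t) (hne1 t ht)
    have h2 : ∑ χ ∈ B, (χ x * χ x / χ 1) * (c χ : ℂ) =
        ((∑ χ ∈ B, (c χ : ℚ) * ((e χ : ℚ) ^ 2 / (d χ : ℚ)) : ℚ) : ℂ) := by
      push_cast
      refine Finset.sum_congr rfl fun χ hχ => ?_
      rw [he χ (hB.irr χ hχ), (hd χ (hB.irr χ hχ)).2]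
      ring
    rw [h2] at h1
    exact_mod_cast h1
  obtain ⟨χ, hχ, hχ1, hχ2⟩ := Arith_three B _ hB.one c d e ho hdo heo
    (fun χ hχ => (hd χ (hB.irr χ hχ)).1) hsum1 hsum2 hsum3 hsum4
  refine End_main h χ (hB.irr χ hχ) hχ1 ?_
  rw [he χ (hB.irr χ hχ), (hd χ (hB.irr χ hχ)).2, hχ2]

end Pool.Agent.Zst
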