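import Pool.Agent.Zst.Char

/-! Values of a character on a quaternion group. -/

namespace Pool.Agent.Zst

open Pool.Agent.KB

private theorem quat_conj {G : Type} [Group G] {χ : G → ℂ} (hχ : χ ∈ Irr G) {a b : G} (c : G)
    (h : c * a * c⁻¹ = b) : χ b = χ a := by
  have h1 : IsConj a b := isConj_iff.2 ⟨c, h⟩
  exact (KBL.Col_class hχ h1).symm

section rel
variable {G : Type} [Group G] {x i j : G}

private theorem quat_xi (hi : i * i = x) : x * i = i * x := by
  rw [← hi, mul_assoc]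

private theorem quat_inv (hx : x * x = 1) (hi : i * i = x) : i⁻¹ = i * x := by
  rw [inv_eq_iff_mul_eq_one, ← mul_assoc, hi, hx]

private theorem quat_iji (hij : j * i * j⁻¹ = i⁻¹) : i * j * i = j := by
  have h1 : j * i = i⁻¹ * j := by rw [← hij, inv_mul_cancel_right]
  rw [mul_assoc, h1, mul_inv_cancel_left]

private theorem quat_ij (hx : x * x = 1) (hi : i * i = x) (hj : j * j = x)
    (hij : j * i * j⁻¹ = i⁻¹) : i * j * i⁻¹ = j⁻¹ := by
  rw [quat_inv hx hi, ← mul_assoc, quat_iji hij, quat_inv hx hj]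

private theorem quat_pow3 (hx : x * x = 1) (hi : i * i = x) : i ^ 3 = i⁻¹ := by
  rw [quat_inv hx hi, ← hi]
  simp only [pow_succ, pow_zero, one_mul, mul_assoc]

private theorem quat_ksq (hj : j * j = x) (hij : j * i * j⁻¹ = i⁻¹) : (i * j) * (i * j) = x := by
  rw [← mul_assoc, quat_iji hij, hj]

private theorem quat_ji (hx : x * x = 1) (hi : i * i = x) (hj : j * j = x)
    (hij : j * i * j⁻¹ = i⁻¹) : (i * j)⁻¹ = j * i := by
  rw [quat_inv hx (quat_ksq hj hij)]
  have h1 : j * i = i⁻¹ * j := by rw [← hij, inv_mul_cancel_right]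
  rw [h1, quat_inv hx hi, mul_assoc, mul_assoc, quat_xi hj]

private theorem quat_move (hx : x * x = 1) (hi : i * i = x) (hij : j * i * j⁻¹ = i⁻¹) (b c : ℕ) :
    j ^ b * i ^ c = i ^ (3 ^ b * c) * j ^ b := by
  have h1 : ∀ c : ℕ, j * i ^ c = i ^ (3 * c) * j := by
    intro c
    have h2 : j * i ^ c * j⁻¹ = i ^ (3 * c) := by
      rw [← conj_pow, hij, pow_mul, quat_pow3 hx hi]
    rw [← h2, inv_mul_cancel_right]
  induction b generalizing c with
  | zero => simp
  | succ b ih =>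
    rw [pow_succ, mul_assoc, h1, ← mul_assoc, ih, mul_assoc, ← pow_succ, pow_succ 3 b, mul_assoc]

end rel

/-- the values at an element of order four -/
private theorem quat_four {G : Type} [Group G] [Finite G] (χ : G → ℂ) (hχ : χ ∈ Irr G) {x i : G}
    (hx : x * x = 1) (hi : i * i = x) (hc : χ i⁻¹ = χ i) {d e k2 : ℤ} (hd : χ 1 = d)
    (he : χ x = e) (hk2 : d + e = 2 * k2) :
    ∃ v k : ℤ, χ i = v ∧ v = 2 * k - k2 := by
  have hi4 : i ^ 4 = 1 := by
    have : i ^ 4 = (i * i) * (i * i) := by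
      simp only [pow_succ, pow_zero, one_mul, mul_assoc]
    rw [this, hi, hx]
  obtain ⟨k, hk⟩ := Char_cyc χ hχ i 1 4 (by norm_num) hi4 (one_pow _)
  have h1 : χ 1 + χ i + χ x + χ i = 4 * k := by
    rw [← hc]
    have h2 : i ^ 2 = x := by rw [pow_two, hi]
    have h3 := quat_pow3 hx hi
    simp only [Finset.sum_range_succ, Finset.sum_range_zero, one_pow, one_mul, pow_zero, pow_one,
      zero_add, h2, h3] at hk
    rw [hc] at hk ⊢
    exact_mod_cast hk
  refine ⟨2 * k - k2, k, ?_, rfl⟩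
  rw [hd, he] at h1
  have h4 : ((d : ℂ) + e) = 2 * k2 := by exact_mod_cast hk2
  push_cast
  linear_combination h1 / 2 - h4 / 2

theorem Quat_main {G : Type} [Group G] [Finite G] (χ : G → ℂ) (hχ : χ ∈ Irr G) (x i j : G)
    (hx : x * x = 1) (hx1 : x ≠ 1) (hi : i * i = x) (hj : j * j = x) (hij : j * i * j⁻¹ = i⁻¹) :
    ∃ d e v1 v2 v3 k k8 : ℤ, 0 < d ∧ χ 1 = d ∧ χ x = e ∧ χ i = v1 ∧ χ j = v2 ∧ χ (i * j) = v3 ∧
      d - e = 4 * k ∧ d + e + 2 * v1 + 2 * v2 + 2 * v3 = 8 * k8 ∧ 2 ∣ v1 + v2 := by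
  classical
  obtain ⟨d, hd0, hd⟩ := Char_deg χ hχ
  obtain ⟨e, he⟩ := Char_inv χ hχ x hx
  -- conjugations
  have ci : χ i⁻¹ = χ i := quat_conj hχ j hij
  have cj : χ j⁻¹ = χ j := quat_conj hχ i (quat_ij hx hi hj hij)
  have cji : χ (j * i) = χ (i * j) := by
    refine quat_conj hχ j ?_
    rw [← mul_assoc, mul_inv_cancel_right]
  have ck : χ (i * j)⁻¹ = χ (i * j) := by
    rw [quat_ji hx hi hj hij, cji]
  -- `d + e` is even
  obtain ⟨k2, hk2⟩ := Char_cyc χ hχ x 1 2 (by norm_num) (by rw [pow_two, hx]) (one_pow _)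
  have hk2' : ((d : ℤ) : ℤ) + e = 2 * (k2 : ℤ) := by
    simp only [Finset.sum_range_succ, Finset.sum_range_zero, one_pow, one_mul, pow_zero, pow_one,
      zero_add, hd, he] at hk2
    exact_mod_cast hk2
  have hdZ : χ 1 = ((d : ℤ) : ℂ) := by rw [hd]; norm_cast
  obtain ⟨v1, k1, hv1, hk1⟩ := quat_four χ hχ hx hi ci hdZ he hk2'
  obtain ⟨v2, k2', hv2, hk2''⟩ := quat_four χ hχ hx hj cj hdZ he hk2'
  obtain ⟨v3, k3, hv3, hk3⟩ := quat_four χ hχ hx (quat_ksq hj hij) ck hdZ he hk2'
  -- `d - e`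
  have hi4 : i ^ 4 = 1 := by
    have : i ^ 4 = (i * i) * (i * i) := by
      simp only [pow_succ, pow_zero, one_mul, mul_assoc]
    rw [this, hi, hx]
  obtain ⟨k, hk⟩ := Char_cyc χ hχ i Complex.I 4 (by norm_num) hi4 Complex.I_pow_four
  have hk' : (d : ℤ) - e = 4 * (k : ℤ) := by
    have h2 : i ^ 2 = x := by rw [pow_two, hi]
    simp only [Finset.sum_range_succ, Finset.sum_range_zero, one_mul, pow_zero, pow_one,
      zero_add, h2, quat_pow3 hx hi, hd, he, ci, Complex.I_sq, Complex.I_pow_three] at hk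
    have h3 : (d : ℂ) - e = 4 * k := by
      push_cast at hk
      linear_combination hk
    exact_mod_cast h3
  -- the group of order eight
  have hji : j ^ 2 = i ^ 2 := by rw [pow_two, pow_two, hi, hj]
  have horder : ∀ a : ℕ, a < 4 → i ^ a = 1 → a = 0 := by
    intro a ha h
    have hi1 : i ≠ 1 := by
      rintro rfl
      exact hx1 (by rw [← hi, one_mul])
    interval_cases a
    · rfl
    · rw [pow_one] at h; exact absurd h hi1
    · rw [pow_two, hi] at h; exact absurd h hx1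
    · rw [quat_pow3 hx hi] at h; exact absurd (inv_eq_one.1 h) hi1
  have hinj : ∀ a < 4, ∀ a' < 4, i ^ a = i ^ a' → a = a' := by
    intro a ha a' ha' h
    rcases le_total a a' with hle | hle
    · have h1 : i ^ (a' - a) = 1 := by
        have h2 : i ^ a * i ^ (a' - a) = i ^ a := by
          rw [← pow_add, Nat.add_sub_cancel' hle, h]
        exact mul_left_cancel (h2.trans (mul_one _).symm)
      have := horder _ (by omega) h1
      omega
    · have h1 : i ^ (a - a') = 1 := by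
        have h2 : i ^ a' * i ^ (a - a') = i ^ a' := by
          rw [← pow_add, Nat.add_sub_cancel' hle, h]
        exact mul_left_cancel (h2.trans (mul_one _).symm)
      have := horder _ (by omega) h1
      omega
  have hjn : ∀ a : ℕ, i ^ a ≠ j := by
    intro a h
    have h1 : j * i = i * j := by
      rw [← h, ← pow_succ, ← pow_succ']
    have h2 : i⁻¹ = i := by
      rw [← hij, h1, mul_inv_cancel_right]
    apply hx1
    rw [← hi]
    nth_rewrite 1 [← h2]
    exact inv_mul_cancel i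
  let f : ℕ × ℕ → G := fun p => i ^ p.1 * j ^ p.2
  let S : Finset (ℕ × ℕ) := Finset.range 4 ×ˢ Finset.range 2
  have hfinj : Set.InjOn f S := by
    rintro ⟨a, b⟩ hab ⟨a', b'⟩ hab' h
    simp only [S, Finset.coe_product, Finset.coe_range, Set.mem_prod, Set.mem_Iio] at hab hab'
    change i ^ a * j ^ b = i ^ a' * j ^ b' at h
    have hcase : ∀ a a' : ℕ, i ^ a * j ^ 0 ≠ i ^ a' * j ^ 1 := by
      intro a a' h
      rw [pow_zero, mul_one, pow_one] at h
      apply hjn (3 * a' + a)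
      have h3 : i ^ (3 * a' + a) = i ^ (4 * a') * j := by
        rw [pow_add, h, ← mul_assoc, ← pow_add]
        congr 2
        ring
      rw [h3, pow_mul, hi4, one_pow, one_mul]
    have hb : b = b' := by
      have h1 : b < 2 := hab.2
      have h2 : b' < 2 := hab'.2
      interval_cases b <;> interval_cases b'
      · rfl
      · exact absurd h (hcase _ _)
      · exact absurd h.symm (hcase _ _)
      · rfl
    subst hb
    have h1 := mul_right_cancel h
    have h2 := hinj a hab.1 a' hab'.1 h1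
    rw [h2]
  have hmem : ∀ a b : ℕ, f (a, b) ∈ S.image f := by
    intro a b
    rw [Finset.mem_image]
    refine ⟨((a + 2 * (b / 2)) % 4, b % 2), ?_, ?_⟩
    · simp only [S, Finset.mem_product, Finset.mem_range]
      omega
    · change i ^ ((a + 2 * (b / 2)) % 4) * j ^ (b % 2) = i ^ a * j ^ b
      have h1 : j ^ b = i ^ (2 * (b / 2)) * j ^ (b % 2) := by
        conv_lhs => rw [← Nat.div_add_mod b 2]
        rw [pow_add, pow_mul, hji, ← pow_mul]
      have h2 : i ^ ((a + 2 * (b / 2)) % 4) = i ^ (a + 2 * (b / 2)) := by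
        conv_rhs => rw [← Nat.div_add_mod (a + 2 * (b / 2)) 4]
        rw [pow_add, pow_mul, hi4, one_pow, one_mul]
      rw [h1, h2, pow_add, mul_assoc]
  obtain ⟨k8, hk8⟩ := Char_sub χ hχ (S.image f) (by
    have := hmem 0 0
    change i ^ 0 * j ^ 0 ∈ _ at this
    rwa [pow_zero, pow_zero, one_mul] at this) (by
    intro g hg g' hg'
    obtain ⟨⟨a, b⟩, -, rfl⟩ := Finset.mem_image.1 hg
    obtain ⟨⟨a', b'⟩, -, rfl⟩ := Finset.mem_image.1 hg'
    have h1 : f (a, b) * f (a', b') = f (a + 3 ^ b * a', b + b') := by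
      change i ^ a * j ^ b * (i ^ a' * j ^ b') = i ^ (a + 3 ^ b * a') * j ^ (b + b')
      rw [pow_add, pow_add]
      calc i ^ a * j ^ b * (i ^ a' * j ^ b') = i ^ a * (j ^ b * i ^ a') * j ^ b' := by group
        _ = _ := by rw [quat_move hx hi hij]; group
    rw [h1]
    exact hmem _ _)
  rw [Finset.card_image_of_injOn hfinj, Finset.sum_image hfinj, Finset.sum_product] at hk8
  have hcard : (S.card : ℂ) = 8 := by
    have : S.card = 8 := rfl
    rw [this]
    norm_num
  have e1 : f (0, 0) = 1 := by change i ^ 0 * j ^ 0 = 1; rw [pow_zero, pow_zero, one_mul]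
  have e2 : f (0, 1) = j := by change i ^ 0 * j ^ 1 = j; rw [pow_zero, pow_one, one_mul]
  have e3 : f (1, 0) = i := by change i ^ 1 * j ^ 0 = i; rw [pow_zero, pow_one, mul_one]
  have e4 : f (1, 1) = i * j := by change i ^ 1 * j ^ 1 = i * j; rw [pow_one, pow_one]
  have e5 : f (2, 0) = x := by change i ^ 2 * j ^ 0 = x; rw [pow_zero, mul_one, pow_two, hi]
  have e6 : f (2, 1) = j⁻¹ := by
    change i ^ 2 * j ^ 1 = j⁻¹
    rw [pow_one, pow_two, hi, quat_xi hj, quat_inv hx hj]
  have e7 : f (3, 0) = i⁻¹ := by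
    change i ^ 3 * j ^ 0 = i⁻¹
    rw [pow_zero, mul_one, quat_pow3 hx hi]
  have e8 : f (3, 1) = j * i := by
    change i ^ 3 * j ^ 1 = j * i
    rw [pow_one, quat_pow3 hx hi, ← hij, inv_mul_cancel_right]
  rw [hcard] at hk8
  simp only [Finset.sum_range_succ, Finset.sum_range_zero, zero_add, e1, e2, e3, e4, e5, e6, e7,
    e8, ci, cj, cji, hd, he, hv1, hv2, hv3] at hk8
  refine ⟨d, e, v1, v2, v3, k, k8, by exact_mod_cast hd0, hdZ, he, hv1, hv2, hv3, hk', ?_, ?_⟩
  · have h1 : (d : ℂ) + e + 2 * v1 + 2 * v2 + 2 * v3 = 8 * k8 := by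
      linear_combination hk8
    exact_mod_cast h1
  · refine ⟨k1 + k2' - k2, ?_⟩
    rw [hk1, hk2'']
    ring

end Pool.Agent.Zst
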