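import Pool.Agent.Zst.Pair
import Pool.Agent.Zst.Rel
import Pool.Agent.Zst.Arith
import Pool.Agent.Zst.End
import Pool.Agent.Zst.Quat

/-! The quaternion case, two classes. -/

namespace Pool.Agent.Zst

open Pool.Agent.KB

/-- PROOF. `c χ = (χ(i) + χ(j)) / 2` is an integer (`Quat_main`). `Fus_val` (`s = 1`, `i ^ 1`): `∑ χ(i) χ(i⁻¹) = 4`,
`∑ χ(j) χ(j⁻¹) = 4`; `Pair_orth`: `∑ χ(i) χ(j⁻¹) = 0`; all values are integers and `χ(i⁻¹) = χ(i)`, `χ(j⁻¹) = χ(j)`
(`j * i * j⁻¹ = i⁻¹`, `i * j * i⁻¹ = j⁻¹`). So `∑ c^2 = 2`, `c 1 = 1`. `Rel_one`, `Rel_inv` for `v = i`, `v = j` (of order four, so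
not conjugate to `x`): `∑ c χ * χ(1) = 0`, `∑ c χ * χ(x) = 0`. `Arith_two`, `End_main`. -/
theorem CaseIII_main {G : Type} [Group G] [Finite G] {x i j : G} {K₁ K₂ : Subgroup G}
    (h : Min G x) {B : Finset (G → ℂ)} (hB : PBlock G B) (h1 : Cyc G x i 2 K₁)
    (h2 : Cyc G x j 2 K₂) (hij : j * i * j⁻¹ = i⁻¹) (hn : ¬ IsConj i j) : False := by
  have hx : x * x = 1 := h.isol.1
  have hi : i * i = x := by
    have := h1.inv
    norm_num at this
    rw [← this, pow_two]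
  have hj : j * j = x := by
    have := h2.inv
    norm_num at this
    rw [← this, pow_two]
  have hi4 : i ^ 4 = 1 := by
    calc i ^ 4 = (i * i) * (i * i) := by
          rw [show (4 : ℕ) = 2 * 2 from rfl, pow_mul, pow_two, pow_two]
      _ = 1 := by rw [hi, hx]
  have hj4 : j ^ 4 = 1 := by
    calc j ^ 4 = (j * j) * (j * j) := by
          rw [show (4 : ℕ) = 2 * 2 from rfl, pow_mul, pow_two, pow_two]
      _ = 1 := by rw [hj, hx]
  have hx1 : x ≠ 1 := by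
    intro e
    have h3 := h1.ord
    have h4 : orderOf i ∣ 2 := orderOf_dvd_of_pow_eq_one (by rw [pow_two, hi, e])
    rw [h3] at h4
    norm_num at h4
  have hi1 : i ≠ 1 := by rintro rfl; exact hx1 (by rw [← hi, one_mul])
  have hj1 : j ≠ 1 := by rintro rfl; exact hx1 (by rw [← hj, one_mul])
  have hji : i * j * i⁻¹ = j⁻¹ := by
    have e1 : j * i = i⁻¹ * j := by rw [← hij]; group
    have e2 : i * j * i = j := by rw [mul_assoc, e1]; group
    have e3 : i * j * i⁻¹ = j * (i * i)⁻¹ := by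
      calc i * j * i⁻¹ = (i * j * i) * (i⁻¹ * i⁻¹) := by group
        _ = j * (i * i)⁻¹ := by rw [e2]; group
    rw [e3, hi, ← hj]
    group
  have hpi : ∃ m : ℕ, i ^ 2 ^ m = 1 := ⟨2, by norm_num; exact hi4⟩
  have hpj : ∃ m : ℕ, j ^ 2 ^ m = 1 := ⟨2, by norm_num; exact hj4⟩
  have hxn : ∀ a : G, a * a = x → ¬ IsConj x a := by
    intro a ha hc
    obtain ⟨g, hg⟩ := isConj_iff.mp hc
    apply hx1
    rw [← ha, ← hg]
    calc g * x * g⁻¹ * (g * x * g⁻¹) = g * (x * x) * g⁻¹ := by group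
      _ = 1 := by rw [hx]; group
  have hci : ∀ χ ∈ B, χ i⁻¹ = χ i := fun χ hχ =>
    (Pool.Agent.KBL.Col_class (hB.irr χ hχ) (isConj_iff.mpr ⟨j, hij⟩)).symm
  have hcj : ∀ χ ∈ B, χ j⁻¹ = χ j := fun χ hχ =>
    (Pool.Agent.KBL.Col_class (hB.irr χ hχ) (isConj_iff.mpr ⟨i, hji⟩)).symm
  have hQ := fun χ (hχ : χ ∈ B) => Quat_main χ (hB.irr χ hχ) x i j hx hx1 hi hj hij
  choose! d e v1 v2 v3 k k8 hd0 hd he hv1 hv2 hv3 hk hk8 hdv using hQ
  choose! c hc using hdv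
  have f1 : ∑ χ ∈ B, v1 χ * v1 χ = 4 := by
    have h3 := Fus_val h1 hB 1 (by rw [mul_one, pow_two, hi]; exact hx1)
    have h4 : ((∑ χ ∈ B, v1 χ * v1 χ : ℤ) : ℂ) = 4 := by
      push_cast
      rw [pow_one] at h3
      rw [Finset.sum_congr rfl fun χ hχ => by rw [← hv1 χ hχ]]
      rw [Finset.sum_congr rfl fun χ hχ => by rw [hci χ hχ]] at h3
      rw [h3]; norm_num
    exact_mod_cast h4
  have f2 : ∑ χ ∈ B, v2 χ * v2 χ = 4 := by
    have h3 := Fus_val h2 hB 1 (by rw [mul_one, pow_two, hj]; exact hx1)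
    have h4 : ((∑ χ ∈ B, v2 χ * v2 χ : ℤ) : ℂ) = 4 := by
      push_cast
      rw [pow_one] at h3
      rw [Finset.sum_congr rfl fun χ hχ => by rw [← hv2 χ hχ]]
      rw [Finset.sum_congr rfl fun χ hχ => by rw [hcj χ hχ]] at h3
      rw [h3]; norm_num
    exact_mod_cast h4
  have f3 : ∑ χ ∈ B, v1 χ * v2 χ = 0 := by
    have h3 := Pair_orth hB i j hpi hpj hn
    have h4 : ((∑ χ ∈ B, v1 χ * v2 χ : ℤ) : ℂ) = 0 := by
      push_cast
      rw [Finset.sum_congr rfl fun χ hχ => by rw [← hv1 χ hχ, ← hv2 χ hχ, ← hcj χ hχ]]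
      exact h3
    exact_mod_cast h4
  have r1 : ∑ χ ∈ B, d χ * v1 χ = 0 := by
    have h3 := Rel_one hB i hpi hi1
    have h4 : ((∑ χ ∈ B, d χ * v1 χ : ℤ) : ℂ) = 0 := by
      push_cast
      rw [Finset.sum_congr rfl fun χ hχ => by rw [← hd χ hχ, ← hv1 χ hχ, ← hci χ hχ]]
      exact h3
    exact_mod_cast h4
  have r2 : ∑ χ ∈ B, d χ * v2 χ = 0 := by
    have h3 := Rel_one hB j hpj hj1
    have h4 : ((∑ χ ∈ B, d χ * v2 χ : ℤ) : ℂ) = 0 := by
      push_cast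
      rw [Finset.sum_congr rfl fun χ hχ => by rw [← hd χ hχ, ← hv2 χ hχ, ← hcj χ hχ]]
      exact h3
    exact_mod_cast h4
  have r3 : ∑ χ ∈ B, e χ * v1 χ = 0 := by
    have h3 := Rel_inv hB x i hx hpi (hxn i hi)
    have h4 : ((∑ χ ∈ B, e χ * v1 χ : ℤ) : ℂ) = 0 := by
      push_cast
      rw [Finset.sum_congr rfl fun χ hχ => by rw [← he χ hχ, ← hv1 χ hχ, ← hci χ hχ]]
      exact h3
    exact_mod_cast h4
  have r4 : ∑ χ ∈ B, e χ * v2 χ = 0 := by
    have h3 := Rel_inv hB x j hx hpj (hxn j hj)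
    have h4 : ((∑ χ ∈ B, e χ * v2 χ : ℤ) : ℂ) = 0 := by
      push_cast
      rw [Finset.sum_congr rfl fun χ hχ => by rw [← he χ hχ, ← hv2 χ hχ, ← hcj χ hχ]]
      exact h3
    exact_mod_cast h4
  have g1 : ∑ χ ∈ B, c χ ^ 2 = 2 := by
    have h3 : 4 * ∑ χ ∈ B, c χ ^ 2 = 8 := by
      rw [Finset.mul_sum]
      calc ∑ χ ∈ B, 4 * c χ ^ 2 = ∑ χ ∈ B, (v1 χ * v1 χ + 2 * (v1 χ * v2 χ) + v2 χ * v2 χ) := by
            refine Finset.sum_congr rfl fun χ hχ => ?_
            have := hc χ hχ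
            linear_combination (-(2 * c χ + v1 χ + v2 χ)) * this
        _ = 8 := by
            rw [Finset.sum_add_distrib, Finset.sum_add_distrib, ← Finset.mul_sum, f1, f2, f3]
            norm_num
    omega
  have g2 : ∑ χ ∈ B, c χ * d χ = 0 := by
    have h3 : 2 * ∑ χ ∈ B, c χ * d χ = 0 := by
      rw [Finset.mul_sum]
      calc ∑ χ ∈ B, 2 * (c χ * d χ) = ∑ χ ∈ B, (d χ * v1 χ + d χ * v2 χ) := by
            refine Finset.sum_congr rfl fun χ hχ => ?_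
            have := hc χ hχ
            linear_combination (-d χ) * this
        _ = 0 := by rw [Finset.sum_add_distrib, r1, r2, add_zero]
    omega
  have g3 : ∑ χ ∈ B, c χ * e χ = 0 := by
    have h3 : 2 * ∑ χ ∈ B, c χ * e χ = 0 := by
      rw [Finset.mul_sum]
      calc ∑ χ ∈ B, 2 * (c χ * e χ) = ∑ χ ∈ B, (e χ * v1 χ + e χ * v2 χ) := by
            refine Finset.sum_congr rfl fun χ hχ => ?_
            have := hc χ hχ
            linear_combination (-e χ) * this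
        _ = 0 := by rw [Finset.sum_add_distrib, r3, r4, add_zero]
    omega
  have o1 : v1 (fun _ => 1) = 1 := by
    have := hv1 _ hB.one
    exact_mod_cast this.symm
  have o2 : v2 (fun _ => 1) = 1 := by
    have := hv2 _ hB.one
    exact_mod_cast this.symm
  have o3 : d (fun _ => 1) = 1 := by
    have := hd _ hB.one
    exact_mod_cast this.symm
  have o4 : e (fun _ => 1) = 1 := by
    have := he _ hB.one
    exact_mod_cast this.symm
  have o5 : c (fun _ => 1) = 1 := by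
    have := hc _ hB.one
    omega
  obtain ⟨χ, hχ, hne, hed⟩ := Arith_two B (fun _ => 1) hB.one c d e o5 o3 o4 hd0 g1 g2 g3
  refine End_main h χ (hB.irr χ hχ) hne ?_
  rw [hd χ hχ, he χ hχ, hed]

end Pool.Agent.Zst
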