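import Pool.Agent.Zst.Pair
import Pool.Agent.Zst.Rel
import Pool.Agent.Zst.Arith
import Pool.Agent.Zst.End
import Pool.Agent.Zst.Quat

/-! The quaternion case, one class. -/

namespace Pool.Agent.Zst

open Pool.Agent.KB

/-- PROOF. `v χ = χ(i) = χ(j) = χ(i * j)`, an integer (`Quat_main`); `∑ v^2 = 4` (`Fus_val`), `v 1 = 1`. `Rel_one`, `Rel_inv`,
`Rel_avg` for `v = i`: the three relations. `Quat_main`: `4 ∣ d - e` and `8 ∣ d + e + 6 v`, so `8 ∣ d + e - 2 v`. `Arith_four`,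
`End_main`. -/
theorem CaseIV_main {G : Type} [Group G] [Finite G] {x i j : G} {K₁ : Subgroup G} (h : Min G x)
    {B : Finset (G → ℂ)} (hB : PBlock G B) (h1 : Cyc G x i 2 K₁) (hj : j * j = x)
    (hij : j * i * j⁻¹ = i⁻¹) (hc : IsConj i j) (hc' : IsConj i (i * j)) : False := by
  have hx : x * x = 1 := h.isol.1
  have hi : i * i = x := by
    have := h1.inv
    norm_num at this
    rw [← this, pow_two]
  have hi4 : i ^ 4 = 1 := by
    calc i ^ 4 = (i * i) * (i * i) := by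
          rw [show (4 : ℕ) = 2 * 2 from rfl, pow_mul, pow_two, pow_two]
      _ = 1 := by rw [hi, hx]
  have hx1 : x ≠ 1 := by
    intro e
    have h3 := h1.ord
    have h4 : orderOf i ∣ 2 := orderOf_dvd_of_pow_eq_one (by rw [pow_two, hi, e])
    rw [h3] at h4
    norm_num at h4
  have hi1 : i ≠ 1 := by rintro rfl; exact hx1 (by rw [← hi, one_mul])
  have hpi : ∃ m : ℕ, i ^ 2 ^ m = 1 := ⟨2, by norm_num; exact hi4⟩
  have hxn : ¬ IsConj x i := by
    intro hc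
    obtain ⟨g, hg⟩ := isConj_iff.mp hc
    apply hx1
    rw [← hi, ← hg]
    calc g * x * g⁻¹ * (g * x * g⁻¹) = g * (x * x) * g⁻¹ := by group
      _ = 1 := by rw [hx]; group
  have hci : ∀ χ ∈ B, χ i⁻¹ = χ i := fun χ hχ =>
    (Pool.Agent.KBL.Col_class (hB.irr χ hχ) (isConj_iff.mpr ⟨j, hij⟩)).symm
  have hQ := fun χ (hχ : χ ∈ B) => Quat_main χ (hB.irr χ hχ) x i j hx hx1 hi hj hij
  choose! d e v v2 v3 k k8 hd0 hd he hv hv2 hv3 hk hk8 hdv using hQ
  have hvv2 : ∀ χ ∈ B, v2 χ = v χ := by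
    intro χ hχ
    have := Pool.Agent.KBL.Col_class (hB.irr χ hχ) hc
    rw [hv χ hχ, hv2 χ hχ] at this
    exact_mod_cast this.symm
  have hvv3 : ∀ χ ∈ B, v3 χ = v χ := by
    intro χ hχ
    have := Pool.Agent.KBL.Col_class (hB.irr χ hχ) hc'
    rw [hv χ hχ, hv3 χ hχ] at this
    exact_mod_cast this.symm
  have g1 : ∑ χ ∈ B, v χ ^ 2 = 4 := by
    have h3 := Fus_val h1 hB 1 (by rw [mul_one, pow_two, hi]; exact hx1)
    have h4 : ((∑ χ ∈ B, v χ ^ 2 : ℤ) : ℂ) = 4 := by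
      push_cast
      rw [pow_one] at h3
      rw [Finset.sum_congr rfl fun χ hχ => by rw [← hv χ hχ, pow_two]]
      rw [Finset.sum_congr rfl fun χ hχ => by rw [hci χ hχ]] at h3
      rw [h3]; norm_num
    exact_mod_cast h4
  have g2 : ∑ χ ∈ B, v χ * d χ = 0 := by
    have h3 := Rel_one hB i hpi hi1
    have h4 : ((∑ χ ∈ B, v χ * d χ : ℤ) : ℂ) = 0 := by
      push_cast
      rw [Finset.sum_congr rfl fun χ hχ => by rw [← hd χ hχ, ← hv χ hχ, ← hci χ hχ, mul_comm]]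
      exact h3
    exact_mod_cast h4
  have g3 : ∑ χ ∈ B, v χ * e χ = 0 := by
    have h3 := Rel_inv hB x i hx hpi hxn
    have h4 : ((∑ χ ∈ B, v χ * e χ : ℤ) : ℂ) = 0 := by
      push_cast
      rw [Finset.sum_congr rfl fun χ hχ => by rw [← he χ hχ, ← hv χ hχ, ← hci χ hχ, mul_comm]]
      exact h3
    exact_mod_cast h4
  have g4 : ∑ χ ∈ B, (v χ : ℚ) * ((e χ : ℚ) ^ 2 / (d χ : ℚ)) = 0 := by
    have h3 := Rel_avg hB x i h.isol hpi hi1
    have h4 : ((∑ χ ∈ B, (v χ : ℚ) * ((e χ : ℚ) ^ 2 / (d χ : ℚ)) : ℚ) : ℂ) = 0 := by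
      push_cast
      rw [← h3]
      refine Finset.sum_congr rfl fun χ hχ => ?_
      rw [hci χ hχ, hv χ hχ, he χ hχ, hd χ hχ]
      ring
    exact_mod_cast h4
  have o1 : v (fun _ => 1) = 1 := by
    have := hv _ hB.one
    exact_mod_cast this.symm
  have o3 : d (fun _ => 1) = 1 := by
    have := hd _ hB.one
    exact_mod_cast this.symm
  have o4 : e (fun _ => 1) = 1 := by
    have := he _ hB.one
    exact_mod_cast this.symm
  obtain ⟨χ, hχ, hne, hed⟩ := Arith_four B (fun _ => 1) hB.one v d e o1 o3 o4 hd0 g1 g2 g3 g4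
    (fun χ hχ => ⟨k χ, hk χ hχ⟩) (fun χ hχ => ⟨k8 χ - v χ, by
      have h5 := hk8 χ hχ
      rw [hvv2 χ hχ, hvv3 χ hχ] at h5
      linarith⟩)
  refine End_main h χ (hB.irr χ hχ) hne ?_
  rw [hd χ hχ, he χ hχ, hed]

end Pool.Agent.Zst
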