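import Pool.Agent.Zst.Base

/-! Central involutions. -/

namespace Pool.Agent.Zst

open Pool.Agent.KB

/-- PROOF. Let `N'` be a normal subgroup of odd order `m` of `G ⧸ ⟨z⟩`, `N` its preimage, which is
normal in `G`. If `z = 1` the claim is clear. Otherwise `Nat.card N = 2 * m`. The subgroup `⟨z⟩` of
`N` is normal of order `2`, coprime to its index `m`, so it has a complement `K` of order `m` in `N`
(Schur-Zassenhaus, `Subgroup.exists_right_complement'_of_coprime`). Every element of `N` is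
`z ^ e * k` with `e ∈ {0, 1}`, `k ∈ K`, and `(z ^ e * k) ^ m = z ^ (e * m) = z ^ e` as `z` is central
and `m` is odd; hence `K = {n ∈ N | n ^ m = 1}`, so `K` is normalized by `G`. Since `OddFree G`,
`K = ⊥`, `m = 1` and `N' = ⊥`. -/
theorem Cen_quo {G : Type} [Group G] [Finite G] (hO : OddFree G) (z : G) (hz : z * z = 1)
    (hc : ∀ g, z * g = g * z) [(Subgroup.zpowers z).Normal] :
    OddFree (G ⧸ Subgroup.zpowers z) := by
  intro N' hN' hodd
  have hzc : ∀ h ∈ Subgroup.zpowers z, h * h = 1 ∧ ∀ g, h * g = g * h := by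
    intro h hh
    obtain ⟨k, rfl⟩ := Subgroup.mem_zpowers_iff.1 hh
    refine ⟨?_, fun g => ?_⟩
    · have h1 : z ^ k * z ^ k = (z * z) ^ k := ((Commute.refl z).mul_zpow k).symm
      rw [h1, hz, one_zpow]
    · exact (Commute.zpow_left (show Commute z g from hc g) k).eq
  set π := QuotientGroup.mk' (Subgroup.zpowers z) with hπ
  have hN : (N'.comap π).Normal := hN'.comap π
  set N : Subgroup G := N'.comap π with hNd
  let φ : N →* N' := π.subgroupComap N'
  have hφs : Function.Surjective φ :=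
    π.subgroupComap_surjective_of_surjective N' (QuotientGroup.mk'_surjective _)
  have hker : ∀ n : N, n ∈ φ.ker → (n : G) ∈ Subgroup.zpowers z := by
    intro n hn
    have h1 : φ n = 1 := hn
    have h2 : π (n : G) = 1 := congrArg Subtype.val h1
    exact (QuotientGroup.eq_one_iff _).1 h2
  have hidx : φ.ker.index = Nat.card N' := by
    rw [Subgroup.index_ker, MonoidHom.range_eq_top.2 hφs, Subgroup.card_top]
  have hP : IsPGroup 2 φ.ker := by
    rintro ⟨n, hn⟩
    refine ⟨1, Subtype.ext (Subtype.ext ?_)⟩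
    change (n : G) ^ 2 ^ 1 = 1
    rw [pow_one, pow_two]
    exact (hzc _ (hker n hn)).1
  obtain ⟨k, hk⟩ := IsPGroup.iff_card.1 hP
  have hcop : Nat.Coprime (Nat.card φ.ker) φ.ker.index := by
    rw [hk, hidx]
    exact (Nat.coprime_two_left.2 hodd).pow_left k
  obtain ⟨K, hK⟩ := Subgroup.exists_right_complement'_of_coprime hcop
  have hKc : Nat.card K = Nat.card N' := by
    rw [← hidx]
    exact hK.symm.index_eq_card.symm
  set K' : Subgroup G := K.map N.subtype with hK'
  have hK'c : Nat.card K' = Nat.card N' := by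
    rw [← hKc]
    exact Subgroup.card_map_of_injective N.subtype_injective
  have hK'n : K'.Normal := by
    refine ⟨fun a ha g => ?_⟩
    obtain ⟨b, hb, rfl⟩ := Subgroup.mem_map.1 ha
    have h1 : g * (b : G) * g⁻¹ ∈ N := hN.conj_mem _ b.2 g
    obtain ⟨⟨⟨u, hu⟩, ⟨v, hv⟩⟩, huv, -⟩ := hK.existsUnique (⟨g * (b : G) * g⁻¹, h1⟩ : N)
    have h2 : (u : G) * (v : G) = g * (b : G) * g⁻¹ := congrArg Subtype.val huv
    obtain ⟨h3, h4⟩ := hzc _ (hker u hu)
    have h5 : (g * (b : G) * g⁻¹) ^ Nat.card N' = 1 := by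
      rw [conj_pow]
      have h6 : (b : G) ^ Nat.card N' = 1 := by
        rw [← hKc]
        have h7 := pow_card_eq_one' (x := (⟨b, hb⟩ : K))
        exact congrArg (fun t : K => ((t : N) : G)) h7
      rw [h6]
      group
    have h6 : (v : G) ^ Nat.card N' = 1 := by
      rw [← hKc]
      have h7 := pow_card_eq_one' (x := (⟨v, hv⟩ : K))
      exact congrArg (fun t : K => ((t : N) : G)) h7
    have h7 : (u : G) ^ Nat.card N' = 1 := by
      have h8 : ((u : G) * (v : G)) ^ Nat.card N' = (u : G) ^ Nat.card N' * (v : G) ^ Nat.card N' :=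
        (show Commute (u : G) (v : G) from h4 v).mul_pow _
      rw [h2, h5, h6, mul_one] at h8
      exact h8.symm
    have h8 : (u : G) = 1 := by
      obtain ⟨j, hj⟩ := hodd
      rw [hj, pow_succ, pow_mul, pow_two, h3, one_pow, one_mul] at h7
      exact h7
    rw [h8, one_mul] at h2
    change g * (b : G) * g⁻¹ ∈ K'
    rw [← h2]
    exact Subgroup.mem_map.2 ⟨v, hv, rfl⟩
  have h1 := hO K' hK'n (by rw [hK'c]; exact hodd)
  rw [h1, Subgroup.card_bot] at hK'c
  exact Subgroup.card_eq_one.1 hK'c.symm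

/-- PROOF. Suppose `z ≠ 1`. `⟨z⟩` is normal, `G ⧸ ⟨z⟩` is smaller than `G`, the image `x'` of `x` in
it is isolated (`Base_map`), so `h.ind` gives a normal subgroup `N'` of odd order containing the commutators
with `x'`, and `N' = ⊥` by `Cen_quo`. So `x * g * x⁻¹ * g⁻¹ ∈ ⟨z⟩` for all `g`, so `g * x * g⁻¹` is
`x` or `x * z` (`⟨z⟩ = {1, z}`, `z` central); both commute with `x`, so `g * x * g⁻¹ = x`
(`Base_comm`). This contradicts `h.nc`. -/
theorem Cen_main {G : Type} [Group G] [Finite G] {x : G} (h : Min G x) (z : G) (hz : z * z = 1)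
    (hc : ∀ g, z * g = g * z) : z = 1 := by
  by_contra hz1
  have hnorm : (Subgroup.zpowers z).Normal := by
    refine ⟨fun a ha g => ?_⟩
    obtain ⟨k, rfl⟩ := Subgroup.mem_zpowers_iff.1 ha
    have h1 : g * z ^ k * g⁻¹ = z ^ k := by
      rw [← (Commute.zpow_left (show Commute z g from hc g) k).eq, mul_assoc, mul_inv_cancel,
        mul_one]
    rw [h1]
    exact ha
  have hcard : Nat.card (G ⧸ Subgroup.zpowers z) < Nat.card G := by
    rw [Subgroup.card_eq_card_quotient_mul_card_subgroup (Subgroup.zpowers z)]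
    have h1 : 1 < Nat.card (Subgroup.zpowers z) := by
      rw [Nat.card_zpowers]
      have h2 : orderOf z ≠ 1 := fun h3 => hz1 (orderOf_eq_one_iff.1 h3)
      have h3 : 0 < orderOf z := orderOf_pos z
      omega
    have h2 : 0 < Nat.card (G ⧸ Subgroup.zpowers z) := Nat.card_pos
    exact lt_mul_of_one_lt_right h2 h1
  obtain ⟨N', hN', hodd, hcom⟩ := h.ind (G ⧸ Subgroup.zpowers z)
    (QuotientGroup.mk' (Subgroup.zpowers z) x) hcard
    (Base_map h.isol _ (QuotientGroup.mk'_surjective _))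
  have hbot := Cen_quo h.free z hz hc N' hN' hodd
  obtain ⟨g, hg⟩ := h.nc
  have h1 := hcom (QuotientGroup.mk' (Subgroup.zpowers z) g)
  rw [hbot, Subgroup.mem_bot, ← map_inv, ← map_inv, ← map_mul, ← map_mul, ← map_mul] at h1
  have h2 : x * g * x⁻¹ * g⁻¹ ∈ Subgroup.zpowers z := (QuotientGroup.eq_one_iff _).1 h1
  obtain ⟨k, hk⟩ := Subgroup.mem_zpowers_iff.1 h2
  have hcent : ∀ a, (x * g * x⁻¹ * g⁻¹) * a = a * (x * g * x⁻¹ * g⁻¹) := by
    intro a
    rw [← hk]
    exact (Commute.zpow_left (show Commute z a from hc a) k).eq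
  have h3 : g * x * g⁻¹ = (x * g * x⁻¹ * g⁻¹)⁻¹ * x := by group
  have h4 : x * (g * x * g⁻¹) = (g * x * g⁻¹) * x := by
    have h5 : x * (x * g * x⁻¹ * g⁻¹)⁻¹ = (x * g * x⁻¹ * g⁻¹)⁻¹ * x :=
      (show Commute (x * g * x⁻¹ * g⁻¹) x from hcent x).inv_left.eq.symm
    rw [h3, ← mul_assoc, h5]
  have h5 := Base_comm h.isol g h4
  refine hg ?_
  have h6 : g * x * g⁻¹ * g = x * g := by rw [h5]
  rw [← h6]
  group

end Pool.Agent.Zst
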