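import Pool.Agent.Zst.Defs
import Pool.Agent.KBL.Col
import Pool.Agent.KBL.Cen

/-! Elementary facts about irreducible characters, first part. -/

namespace Pool.Agent.Zst

open Pool.Agent.KB Pool.Agent.KB.ContrAux Pool.Agent.KBL

/-- PROOF. `∑ g, ρ(g b g⁻¹)` commutes with the representation, so it is a scalar (Schur), of trace
`|G| χ(b)`, so it is `|G| χ(b) / χ(1)`; multiply by `ρ(a)` and take the trace. (Compare `Omega_int` in
`Pool/Agent/KB/Omega.lean`, `Alg_schur` in `Pool/Agent/KBU/Alg.lean`, `Cen_main`.) -/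
theorem Char_avg {G : Type} [Group G] [Fintype G] (χ : G → ℂ) (hχ : χ ∈ Irr G) (a b : G) :
    χ 1 * ∑ g : G, χ (a * (g * b * g⁻¹)) = (Nat.card G : ℂ) * (χ a * χ b) := by
  obtain ⟨n, ρ, hρ, rfl⟩ := hχ
  obtain ⟨hdeg, hpos⟩ := Omega_deg ρ hρ
  have := hρ
  have hcomm : ∀ x : G, (∑ g : G, ρ (g * b * g⁻¹)) ∘ₗ ρ x = ρ x ∘ₗ (∑ g : G, ρ (g * b * g⁻¹)) := by
    intro x
    have h1 : (∑ g : G, ρ (g * b * g⁻¹)) * ρ x = ρ x * ∑ g : G, ρ (g * b * g⁻¹) := by
      rw [Finset.sum_mul, Finset.mul_sum]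
      rw [← Equiv.sum_comp (Equiv.mulLeft x) (fun g => ρ (g * b * g⁻¹) * ρ x)]
      refine Finset.sum_congr rfl fun g _ => ?_
      rw [← map_mul, ← map_mul, Equiv.coe_mulLeft]
      congr 1
      group
    exact h1
  let S : Representation.IntertwiningMap ρ ρ :=
    { toLinearMap := ∑ g : G, ρ (g * b * g⁻¹)
      isIntertwining' := hcomm }
  obtain ⟨c, hc⟩ :=
    (Representation.IsIrreducible.algebraMap_intertwiningMap_bijective_of_isAlgClosed
      (ρ := ρ)).2 S
  have hS : (∑ g : G, ρ (g * b * g⁻¹)) = c • (1 : Module.End ℂ (Fin n → ℂ)) := by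
    have := congrArg (fun s : Representation.IntertwiningMap ρ ρ => s.toLinearMap) hc
    have h2 : (∑ g : G, ρ (g * b * g⁻¹)) =
      (algebraMap ℂ (Representation.IntertwiningMap ρ ρ) c).toLinearMap := this.symm
    rw [h2]
    ext v
    simp [Algebra.algebraMap_eq_smul_one]
  have htr : (Nat.card G : ℂ) * ρ.character b = c * ρ.character 1 := by
    have h3 := congrArg (LinearMap.trace ℂ (Fin n → ℂ)) hS
    rw [map_sum] at h3
    have h4 : ∀ g ∈ (Finset.univ : Finset G), LinearMap.trace ℂ (Fin n → ℂ) (ρ (g * b * g⁻¹)) =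
        ρ.character b := by
      intro g _
      exact Representation.char_conj ρ b g
    rw [Finset.sum_congr rfl h4, Finset.sum_const, nsmul_eq_mul, Finset.card_univ,
      ← Nat.card_eq_fintype_card] at h3
    rw [h3, map_smul, LinearMap.trace_one, hdeg, smul_eq_mul]
  have htr2 : ∑ g : G, ρ.character (a * (g * b * g⁻¹)) = c * ρ.character a := by
    have h3 := congrArg (fun f => LinearMap.trace ℂ (Fin n → ℂ) (ρ a * f)) hS
    rw [Finset.mul_sum, map_sum, mul_smul_comm, mul_one, map_smul, smul_eq_mul] at h3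
    rw [show c * ρ.character a = c * LinearMap.trace ℂ (Fin n → ℂ) (ρ a) from rfl, ← h3]
    refine Finset.sum_congr rfl fun g _ => ?_
    rw [← map_mul]
    rfl
  rw [htr2]
  linear_combination (-ρ.character a) * htr

/-- PROOF. `χ(1)` is the dimension of an irreducible (so nonzero) representation. -/
theorem Char_deg {G : Type} [Group G] [Finite G] (χ : G → ℂ) (hχ : χ ∈ Irr G) :
    ∃ d : ℕ, 0 < d ∧ χ 1 = d := by
  have := Fintype.ofFinite G
  exact irr_deg hχ

/-- PROOF. If `χ(g) = χ(1) = d` for all `g` then `∑ g, χ g * χ g⁻¹ = |G| d^2`, so `d = 1` by `Col_row`. -/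
theorem Char_one {G : Type} [Group G] [Finite G] (χ : G → ℂ) (hχ : χ ∈ Irr G)
    (h : ∀ g, χ g = χ 1) : χ = fun _ => 1 := by
  have := Fintype.ofFinite G
  obtain ⟨d, hd, hd1⟩ := Char_deg χ hχ
  have h1 := (Col_row χ χ hχ hχ).1 rfl
  have h2 : ∀ g ∈ (Finset.univ : Finset G), χ g * χ g⁻¹ = (d : ℂ) * d := by
    intro g _
    rw [h g, h g⁻¹, hd1]
  rw [Finset.sum_congr rfl h2, Finset.sum_const, nsmul_eq_mul, Finset.card_univ,
    ← Nat.card_eq_fintype_card] at h1
  have h3 : Nat.card G * (d * d) = Nat.card G := by exact_mod_cast h1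
  have h4 : d * d = 1 := by
    have h5 : Nat.card G * (d * d) = Nat.card G * 1 := by rw [h3, mul_one]
    exact Nat.eq_of_mul_eq_mul_left Nat.card_pos h5
  have h5 : d = 1 := Nat.eq_one_of_mul_eq_one_left h4
  funext g
  rw [h g, hd1, h5, Nat.cast_one]

end Pool.Agent.Zst
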