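import Pool.Agent.Zst.CharA

/-! Elementary facts about irreducible characters, second part. -/

namespace Pool.Agent.Zst

open Pool.Agent.KB Pool.Agent.KB.ContrAux Pool.Agent.KBL

/-- the trace of an idempotent is a natural number -/
private theorem CharB_idem {V : Type} [AddCommGroup V] [Module ℂ V] [FiniteDimensional ℂ V]
    (E : Module.End ℂ V) (h : E * E = E) : ∃ k : ℕ, LinearMap.trace ℂ V E = k :=
  ⟨_, (LinearMap.IsIdempotentElem.isProj_range E h).trace⟩

/-- an endomorphism of finite order with the trace of the identity is the identity -/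
private theorem CharB_tr {V : Type} [AddCommGroup V] [Module ℂ V] [FiniteDimensional ℂ V]
    (f : Module.End ℂ V) (n : ℕ) (hn : 0 < n) (hf : f ^ n = 1)
    (ht : LinearMap.trace ℂ V f = LinearMap.trace ℂ V 1) : f = 1 := by
  classical
  have hn0 : (n : ℂ) ≠ 0 := by exact_mod_cast hn.ne'
  have hss : f.IsSemisimple := by
    apply Module.End.isSemisimple_of_squarefree_aeval_eq_zero
      (p := (Polynomial.X ^ n - 1 : Polynomial ℂ))
    · exact (Polynomial.X_pow_sub_one_separable_iff.2 hn0).squarefree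
    · simp [hf]
  have htop := hss.iSup_eigenspace_eq_top
  have hind := f.eigenspaces_iSupIndep
  have hint : DirectSum.IsInternal (fun μ : ℂ => f.eigenspace μ) :=
    (DirectSum.isInternal_submodule_iff_iSupIndep_and_iSup_eq_top _).2 ⟨hind, htop⟩
  have hN : {μ : ℂ | f.eigenspace μ ≠ ⊥}.Finite :=
    WellFoundedGT.finite_ne_bot_of_iSupIndep hind
  have hmf : ∀ μ : ℂ, Set.MapsTo f (f.eigenspace μ) (f.eigenspace μ) := by
    intro μ v hv
    rw [SetLike.mem_coe, Module.End.mem_eigenspace_iff] at hv ⊢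
    rw [hv, map_smul, hv]
  have hm1 : ∀ μ : ℂ, Set.MapsTo (1 : Module.End ℂ V) (f.eigenspace μ) (f.eigenspace μ) := by
    intro μ v hv
    exact hv
  rw [LinearMap.trace_eq_sum_trace_restrict' hint hN hmf,
    LinearMap.trace_eq_sum_trace_restrict' hint hN hm1] at ht
  have hroot : ∀ μ : ℂ, f.eigenspace μ ≠ ⊥ → ‖μ‖ = 1 := by
    intro μ hμ
    obtain ⟨v, hv, hv0⟩ := Submodule.exists_mem_ne_zero_of_ne_bot hμ
    rw [Module.End.mem_eigenspace_iff] at hv
    have hpow : ∀ k : ℕ, (f ^ k) v = μ ^ k • v := by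
      intro k
      induction k with
      | zero => simp
      | succ k ih => rw [pow_succ', Module.End.mul_apply, ih, map_smul, hv, smul_smul, pow_succ]
    have hμn : μ ^ n = 1 := by
      have h1 := hpow n
      rw [hf] at h1
      have h2 : (μ ^ n - 1) • v = 0 := by
        rw [sub_smul, ← h1]; simp
      rcases smul_eq_zero.1 h2 with h3 | h3
      · exact sub_eq_zero.1 h3
      · exact absurd h3 hv0
    exact Complex.norm_eq_one_of_pow_eq_one hμn hn.ne'
  have e1 : ∀ μ, LinearMap.trace ℂ (f.eigenspace μ) (f.restrict (hmf μ)) =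
      μ * (Module.finrank ℂ (f.eigenspace μ) : ℂ) := by
    intro μ
    have h1 : f.restrict (hmf μ) = μ • LinearMap.id := by
      ext ⟨w, hw⟩
      rw [Module.End.mem_eigenspace_iff] at hw
      exact hw
    rw [h1, map_smul, LinearMap.trace_id, smul_eq_mul]
  have e2 : ∀ μ, LinearMap.trace ℂ (f.eigenspace μ)
      ((1 : Module.End ℂ V).restrict (hm1 μ)) = (Module.finrank ℂ (f.eigenspace μ) : ℂ) := by
    intro μ
    have h1 : (1 : Module.End ℂ V).restrict (hm1 μ) = LinearMap.id := by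
      ext ⟨w, hw⟩
      rfl
    rw [h1, LinearMap.trace_id]
  simp only [e1, e2] at ht
  have h3 : ∑ μ ∈ hN.toFinset, (1 - μ.re) * (Module.finrank ℂ (f.eigenspace μ) : ℝ) = 0 := by
    have h4 := congrArg Complex.re ht
    rw [Complex.re_sum, Complex.re_sum] at h4
    simp only [Complex.mul_re, Complex.natCast_re, Complex.natCast_im, mul_zero, sub_zero] at h4
    simp only [sub_mul, one_mul, Finset.sum_sub_distrib]
    linarith
  have hle : ∀ μ : ℂ, ‖μ‖ = 1 → 0 ≤ 1 - μ.re := by
    intro μ h4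
    have := Complex.re_le_norm μ
    rw [h4] at this
    linarith
  have h5 : ∀ μ ∈ hN.toFinset, μ = 1 := by
    intro μ hμ
    have h6 := (Finset.sum_eq_zero_iff_of_nonneg (fun ν hν => ?_)).1 h3 μ hμ
    · rw [Set.Finite.mem_toFinset] at hμ
      have h7 : (Module.finrank ℂ (f.eigenspace μ) : ℝ) ≠ 0 := by
        have : 0 < Module.finrank ℂ (f.eigenspace μ) := by
          have := (Submodule.nontrivial_iff_ne_bot (p := f.eigenspace μ)).2 hμ
          exact Module.finrank_pos
        exact_mod_cast this.ne'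
      have h8 : μ.re = 1 := by
        rcases mul_eq_zero.1 h6 with h | h
        · linarith
        · exact absurd h h7
      have h9 := hroot μ hμ
      have h10 : μ.im = 0 := by
        have h11 := Complex.sq_norm μ
        rw [h9, Complex.normSq_apply, h8] at h11
        have : μ.im * μ.im = 0 := by linarith
        exact mul_self_eq_zero.1 this
      exact Complex.ext (by rw [h8]; simp) (by rw [h10]; simp)
    · rw [Set.Finite.mem_toFinset] at hν
      exact mul_nonneg (hle ν (hroot ν hν)) (Nat.cast_nonneg _)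
  have h6 : f.eigenspace 1 = ⊤ := by
    rw [eq_top_iff, ← htop]
    refine iSup_le fun μ => ?_
    by_cases hμ : f.eigenspace μ = ⊥
    · rw [hμ]
      exact bot_le
    · rw [h5 μ (by rw [Set.Finite.mem_toFinset]; exact hμ)]
  ext v
  have h7 : v ∈ f.eigenspace 1 := by rw [h6]; exact Submodule.mem_top
  rw [Module.End.mem_eigenspace_iff, one_smul] at h7
  rw [h7]
  rfl

/-- PROOF. `E = (1/m) ∑_t ζ^t ρ(a^t)` is an idempotent: `ζ ρ(a) E = E` because `ζ^m ρ(a^m) = 1`. Its trace is
the dimension of its range (`LinearMap.IsProj.trace`, `LinearMap.IsIdempotentElem.trace_eq_finrank` or similar). -/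
theorem Char_cyc {G : Type} [Group G] [Finite G] (χ : G → ℂ) (hχ : χ ∈ Irr G) (a : G) (ζ : ℂ)
    (m : ℕ) (hm : 0 < m) (ha : a ^ m = 1) (hζ : ζ ^ m = 1) :
    ∃ k : ℕ, ∑ t ∈ Finset.range m, ζ ^ t * χ (a ^ t) = m * k := by
  obtain ⟨n, ρ, hρ, rfl⟩ := hχ
  have hm0 : (m : ℂ) ≠ 0 := by exact_mod_cast hm.ne'
  obtain ⟨f, hf⟩ : ∃ f : Module.End ℂ (Fin n → ℂ), f = ζ • ρ a := ⟨_, rfl⟩
  have hft : ∀ t : ℕ, f ^ t = ζ ^ t • ρ (a ^ t) := by
    intro t
    rw [hf, smul_pow, map_pow]
  have hfm : f ^ m = 1 := by rw [hft, ha, hζ, one_smul, map_one]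
  obtain ⟨S, hS⟩ : ∃ S : Module.End ℂ (Fin n → ℂ), S = ∑ t ∈ Finset.range m, f ^ t := ⟨_, rfl⟩
  have hfS : f * S = S := by
    have h1 : f * S = ∑ t ∈ Finset.range m, f ^ (t + 1) := by
      rw [hS, Finset.mul_sum]
      exact Finset.sum_congr rfl fun t _ => (pow_succ' f t).symm
    have h2 := Finset.sum_range_succ (fun t => f ^ t) m
    have h3 := Finset.sum_range_succ' (fun t => f ^ t) m
    rw [h2, hfm, pow_zero] at h3
    rw [h1, hS]
    exact (add_right_cancel h3).symm
  have hftS : ∀ t : ℕ, f ^ t * S = S := by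
    intro t
    induction t with
    | zero => rw [pow_zero, one_mul]
    | succ t ih => rw [pow_succ, mul_assoc, hfS, ih]
  have hSS : S * S = (m : ℂ) • S := by
    conv_lhs => rw [hS, Finset.sum_mul]
    rw [← hS, Finset.sum_congr rfl fun t _ => hftS t, Finset.sum_const, Finset.card_range,
      ← Nat.cast_smul_eq_nsmul ℂ]
  obtain ⟨k, hk⟩ := CharB_idem ((m : ℂ)⁻¹ • S) (by
    rw [smul_mul_smul_comm, hSS, smul_smul]
    congr 1
    field_simp)
  refine ⟨k, ?_⟩
  rw [← hk, map_smul, smul_eq_mul, mul_inv_cancel_left₀ hm0, hS, map_sum]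
  refine Finset.sum_congr rfl fun t _ => ?_
  rw [hft, map_smul, smul_eq_mul]
  rfl

/-- PROOF. As `Char_cyc`, with `E = (1/|H|) ∑_{h ∈ H} ρ(h)` (`H` is closed under products, nonempty and finite, so it is a
subgroup and multiplication by `b ∈ H` permutes `H`). -/
theorem Char_sub {G : Type} [Group G] [Finite G] (χ : G → ℂ) (hχ : χ ∈ Irr G) (H : Finset G)
    (h1 : 1 ∈ H) (hmul : ∀ a ∈ H, ∀ b ∈ H, a * b ∈ H) :
    ∃ k : ℕ, ∑ h ∈ H, χ h = H.card * k := by
  classical
  obtain ⟨n, ρ, hρ, rfl⟩ := hχ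
  have hm : 0 < H.card := Finset.card_pos.2 ⟨1, h1⟩
  have hm0 : (H.card : ℂ) ≠ 0 := by exact_mod_cast hm.ne'
  obtain ⟨S, hS⟩ : ∃ S : Module.End ℂ (Fin n → ℂ), S = ∑ h ∈ H, ρ h := ⟨_, rfl⟩
  have hbS : ∀ b ∈ H, ρ b * S = S := by
    intro b hb
    have h2 : H.image (fun h => b * h) = H := by
      refine Finset.eq_of_subset_of_card_le ?_ ?_
      · intro x hx
        obtain ⟨h, hh, rfl⟩ := Finset.mem_image.1 hx
        exact hmul b hb h hh
      · rw [Finset.card_image_of_injective _ (mul_right_injective b)]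
    rw [hS, Finset.mul_sum]
    conv_rhs => rw [← h2]
    rw [Finset.sum_image fun x _ y _ hxy => mul_right_injective b hxy]
    exact Finset.sum_congr rfl fun h _ => (map_mul ρ b h).symm
  have hSS : S * S = (H.card : ℂ) • S := by
    conv_lhs => rw [hS, Finset.sum_mul]
    rw [← hS, Finset.sum_congr rfl hbS, Finset.sum_const, ← Nat.cast_smul_eq_nsmul ℂ]
  obtain ⟨k, hk⟩ := CharB_idem ((H.card : ℂ)⁻¹ • S) (by
    rw [smul_mul_smul_comm, hSS, smul_smul]
    congr 1
    field_simp)
  refine ⟨k, ?_⟩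
  rw [← hk, map_smul, smul_eq_mul, mul_inv_cancel_left₀ hm0, hS, map_sum]
  rfl

/-- PROOF. `Char_cyc` with `m = 2`, `ζ = 1`: `χ(1) + χ(x) = 2 k`, and `Char_deg`. -/
theorem Char_inv {G : Type} [Group G] [Finite G] (χ : G → ℂ) (hχ : χ ∈ Irr G) (x : G)
    (hx : x * x = 1) : ∃ e : ℤ, χ x = e := by
  obtain ⟨k, hk⟩ := Char_cyc χ hχ x 1 2 (by norm_num) (by rw [sq, hx]) (one_pow 2)
  obtain ⟨d, -, hd⟩ := Char_deg χ hχ
  refine ⟨2 * k - d, ?_⟩
  rw [Finset.sum_range_succ, Finset.sum_range_succ, Finset.sum_range_zero] at hk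
  simp only [one_mul, zero_add, pow_zero, pow_one, hd] at hk
  push_cast at hk ⊢
  linear_combination hk

/-- PROOF. `M` is the kernel of the representation `ρ` with character `χ`. If `χ(g) = χ(1)` then `ρ(g) = 1`: let `m` be the
order of `g`; by `Char_cyc` (or directly) the eigenvalues of `ρ(g)` are `m`-th roots of unity, `ρ(g)` is diagonalizable
(its minimal polynomial divides `X^m - 1`), and the sum of `n` complex numbers of absolute value `1` is `n` only if all are
`1`. Alternative: let `P` be the projection on the space of fixed vectors of `ρ(g)`; or look for a lemma in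
`Pool/Agent/KB*` (for example about `‖χ g‖ ≤ χ 1`). -/
theorem Char_ker {G : Type} [Group G] [Finite G] (χ : G → ℂ) (hχ : χ ∈ Irr G) :
    ∃ M : Subgroup G, M.Normal ∧ ∀ g, g ∈ M ↔ χ g = χ 1 := by
  obtain ⟨n, ρ, hρ, rfl⟩ := hχ
  refine ⟨MonoidHom.ker ρ, MonoidHom.normal_ker ρ, fun g => ?_⟩
  rw [MonoidHom.mem_ker]
  constructor
  · intro h
    show LinearMap.trace ℂ (Fin n → ℂ) (ρ g) = LinearMap.trace ℂ (Fin n → ℂ) (ρ 1)
    rw [h, map_one ρ]
  · intro h
    refine CharB_tr (ρ g) (Nat.card G) Nat.card_pos ?_ ?_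
    · rw [← map_pow, pow_card_eq_one', map_one]
    · have h2 : LinearMap.trace ℂ (Fin n → ℂ) (ρ g) = LinearMap.trace ℂ (Fin n → ℂ) (ρ 1) := h
      rw [h2, map_one ρ]

end Pool.Agent.Zst
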