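import Pool.Agent.Zst.Base
import Pool.Agent.Zst.TwoGrp

/-! The centralizer of an element of order four when `x` is the only involution commuting with `x`. -/

namespace Pool.Agent.Zst

open Pool.Agent.KB

/-- Burnside: a cyclic Sylow `2`-subgroup has a normal complement. -/
private theorem CycEx_compl {C : Type} [Group C] [Finite C] (P : Sylow 2 C) (hP : IsCyclic P)
    (h2 : 2 ∣ Nat.card C) : ∃ K : Subgroup C, K.Normal ∧ Odd (Nat.card K) ∧
      ∀ c : C, ∃ k ∈ K, ∃ s ∈ P, c = k * s := by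
  have : Fact (Nat.Prime 2) := ⟨Nat.prime_two⟩
  have hp : (Nat.card C).minFac = 2 := (Nat.minFac_eq_two_iff _).2 h2
  have hN := hP.normalizer_le_centralizer hp
  have hc := MonoidHom.ker_transferSylow_isComplement' P hN
  refine ⟨(MonoidHom.transferSylow P hN).ker, MonoidHom.normal_ker _, ?_, ?_⟩
  · rw [← Nat.not_even_iff_odd, even_iff_two_dvd]
    exact MonoidHom.not_dvd_card_ker_transferSylow P hN
  · intro c
    obtain ⟨⟨k, s⟩, hks⟩ := hc.2 c
    exact ⟨k, k.2, s, s.2, hks.symm⟩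

/-- A central `2`-element lies in every Sylow `2`-subgroup. -/
private theorem CycEx_mem {C : Type} [Group C] [Finite C] (P : Sylow 2 C) (y : C)
    (hc : ∀ g : C, y * g = g * y) (hy : ∃ m : ℕ, y ^ 2 ^ m = 1) : y ∈ P := by
  have : Fact (Nat.Prime 2) := ⟨Nat.prime_two⟩
  have hcz : ∀ z ∈ Subgroup.zpowers y, ∀ g : C, g * z * g⁻¹ = z := by
    intro z hz g
    obtain ⟨i, rfl⟩ := Subgroup.mem_zpowers_iff.1 hz
    have h1 : Commute y g := hc g
    have h2 := (h1.zpow_left i).eq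
    rw [← h2]
    group
  have hn : (Subgroup.zpowers y).Normal := ⟨fun z hz g => by
    rw [hcz z hz g]
    exact hz⟩
  have hp : IsPGroup 2 (Subgroup.zpowers y) := by
    obtain ⟨m, hm⟩ := hy
    rintro ⟨z, hz⟩
    obtain ⟨i, rfl⟩ := Subgroup.mem_zpowers_iff.1 hz
    refine ⟨m, Subtype.ext ?_⟩
    show (y ^ i) ^ 2 ^ m = 1
    rw [← zpow_natCast, ← zpow_mul, mul_comm, zpow_mul, zpow_natCast, hm, one_zpow]
  have hsup : IsPGroup 2 ((P : Subgroup C) ⊔ Subgroup.zpowers y : Subgroup C) :=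
    P.2.to_sup_of_normal_right hp
  have heq := P.is_maximal' hsup le_sup_left
  have hle : Subgroup.zpowers y ≤ (P : Subgroup C) := by
    conv_rhs => rw [← heq]
    exact le_sup_right
  exact hle (Subgroup.mem_zpowers y)

/-- Generators of a cyclic `2`-group and an element of order four. -/
private theorem CycEx_gen {P : Type} [Group P] [Finite P] (hP : IsPGroup 2 P) (hcyc : IsCyclic P)
    {x y : P} (hy : y * y = x) (hx : x * x = 1) (hx1 : x ≠ 1) :
    ∃ (a : P) (n : ℕ), 2 ≤ n ∧ orderOf a = 2 ^ n ∧ a ^ 2 ^ (n - 2) = y ∧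
      ∀ s : P, ∃ i : ℕ, s = a ^ i := by
  have : Fact (Nat.Prime 2) := ⟨Nat.prime_two⟩
  obtain ⟨n, hn⟩ := (IsPGroup.iff_card (p := 2)).1 hP
  obtain ⟨a₀, ha₀⟩ := hcyc.exists_generator
  have hord : orderOf a₀ = 2 ^ n := by
    rw [orderOf_eq_card_of_forall_mem_zpowers ha₀, hn]
  have h1 := ha₀ y
  rw [← mem_powers_iff_mem_zpowers, Submonoid.mem_powers_iff] at h1
  obtain ⟨j, hj⟩ := h1
  have hj0 : j ≠ 0 := by
    rintro rfl
    rw [pow_zero] at hj
    rw [← hj, mul_one] at hy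
    exact hx1 hy.symm
  obtain ⟨e, m, hm, rfl⟩ := Nat.exists_eq_two_pow_mul_odd hj0
  have hcop : (orderOf a₀).Coprime m := by
    rw [hord]
    exact (Nat.coprime_two_left.2 hm).pow_left n
  have hord' : orderOf (a₀ ^ m) = 2 ^ n := by
    rw [hcop.orderOf_pow, hord]
  have hae : (a₀ ^ m) ^ 2 ^ e = y := by
    rw [← pow_mul, mul_comm, hj]
  have h2 : (a₀ ^ m) ^ 2 ^ (e + 1) = x := by
    rw [pow_succ, pow_mul, hae, pow_two, hy]
  have h4 : (a₀ ^ m) ^ 2 ^ (e + 2) = 1 := by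
    rw [pow_succ, pow_mul, h2, pow_two, hx]
  have h5 : n ≤ e + 2 := by
    have := orderOf_dvd_of_pow_eq_one h4
    rw [hord'] at this
    exact (Nat.pow_dvd_pow_iff_le_right (by norm_num)).1 this
  have h6 : ¬ n ≤ e + 1 := by
    intro h7
    apply hx1
    rw [← h2]
    apply orderOf_dvd_iff_pow_eq_one.1
    rw [hord']
    exact pow_dvd_pow 2 h7
  refine ⟨a₀ ^ m, n, by omega, hord', ?_, ?_⟩
  · have h7 : n - 2 = e := by omega
    rw [h7, hae]
  · intro s
    have h7 : Subgroup.zpowers (a₀ ^ m) = ⊤ := by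
      apply Subgroup.eq_top_of_card_eq
      rw [Nat.card_zpowers, hord', hn]
    have h8 : s ∈ Subgroup.zpowers (a₀ ^ m) := by rw [h7]; exact Subgroup.mem_top s
    rw [← mem_powers_iff_mem_zpowers, Submonoid.mem_powers_iff] at h8
    obtain ⟨i, hi⟩ := h8
    exact ⟨i, hi.symm⟩

/-- PROOF. Let `C = Subgroup.centralizer {y}` and `P` a Sylow `2`-subgroup of `C`. The subgroup `⟨y⟩` is a
central `2`-subgroup of `C`, so `y ∈ P` (normal `p`-subgroups are contained in every Sylow subgroup), and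
`x = y * y ∈ P`. If `u ∈ P`, `u * u = 1`, then `u` commutes with `y`, so with `x`, so `u = 1` or `u = x`. `TwoGrp_main`: `P` is
cyclic, generated by `a₀` of order `2 ^ n`, `n ≥ 2` because `y` has order `4`. `y = a₀ ^ j` with `j = 2 ^ (n - 2) * m`, `m`
odd; `a = a₀ ^ m` generates `P` and `a ^ 2 ^ (n - 2) = y`, `a ^ 2 ^ (n - 1) = y * y = x`. `2` is the smallest prime divisor
of `Nat.card C`, so the cyclic Sylow subgroup `P` has a normal complement (Burnside:
`IsCyclic.isComplement'`, `MonoidHom.ker_transferSylow_isComplement'`, ...) in `C`; its image in `G` is `K`. -/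
theorem CycEx_main {G : Type} [Group G] [Finite G] {x : G} (hx : x * x = 1) (hx1 : x ≠ 1)
    (hu : ∀ u : G, u * u = 1 → x * u = u * x → u = 1 ∨ u = x) (y : G) (hy : y * y = x) :
    ∃ (a : G) (n : ℕ) (K : Subgroup G), Cyc G x a n K ∧ a ^ 2 ^ (n - 2) = y := by
  have : Fact (Nat.Prime 2) := ⟨Nat.prime_two⟩
  obtain ⟨C, hC⟩ : ∃ C : Subgroup G, ∀ g, g ∈ C ↔ y * g = g * y :=
    ⟨Subgroup.centralizer {y}, fun g => by
      rw [Subgroup.mem_centralizer_singleton_iff]
      exact eq_comm⟩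
  have hyC : y ∈ C := (hC y).2 rfl
  have hxC : x ∈ C := by rw [← hy]; exact C.mul_mem hyC hyC
  obtain ⟨P⟩ : Nonempty (Sylow 2 C) := inferInstance
  have hy4 : (⟨y, hyC⟩ : C) ^ 2 ^ 2 = 1 := by
    apply Subtype.ext
    show y ^ 2 ^ 2 = 1
    have : y ^ 2 ^ 2 = (y * y) * (y * y) := by
      rw [← pow_two, ← pow_two, ← pow_mul]
      norm_num
    rw [this, hy, hx]
  have hyP : (⟨y, hyC⟩ : C) ∈ P := CycEx_mem P _ (fun g => Subtype.ext ((hC g).1 g.2)) ⟨2, hy4⟩
  have hxP : (⟨x, hxC⟩ : C) ∈ P := by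
    have h1 : (⟨x, hxC⟩ : C) = ⟨y, hyC⟩ * ⟨y, hyC⟩ := Subtype.ext hy.symm
    rw [h1]
    exact mul_mem hyP hyP
  have hx1P : (⟨⟨x, hxC⟩, hxP⟩ : P) ≠ 1 := fun h => hx1 (congrArg (fun z : P => ((z : C) : G)) h)
  have hcyc : IsCyclic P := by
    refine TwoGrp_main P.2 ⟨⟨x, hxC⟩, hxP⟩ ⟨⟨y, hyC⟩, hyP⟩ ?_ ?_ hx1P ?_
    · rintro ⟨⟨u, huC⟩, huP⟩ huu
      have h1 : u * u = 1 := congrArg (fun z : P => ((z : C) : G)) huu
      have h2 : y * u = u * y := (hC u).1 huC
      have h3 : x * u = u * x := by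
        rw [← hy]
        calc y * y * u = y * (y * u) := by group
          _ = y * (u * y) := by rw [h2]
          _ = (y * u) * y := by group
          _ = (u * y) * y := by rw [h2]
          _ = u * (y * y) := by group
      rcases hu u h1 h3 with h4 | h4
      · left; exact Subtype.ext (Subtype.ext h4)
      · right; exact Subtype.ext (Subtype.ext h4)
    · exact Subtype.ext (Subtype.ext hy)
    · rintro ⟨⟨g, hg⟩, hgP⟩
      exact Subtype.ext (Subtype.ext ((hC g).1 hg))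
  obtain ⟨⟨⟨a, haC⟩, haP⟩, n, hn, ho, hay, hgen⟩ := CycEx_gen P.2 hcyc
    (x := ⟨⟨x, hxC⟩, hxP⟩) (y := ⟨⟨y, hyC⟩, hyP⟩) (Subtype.ext (Subtype.ext hy))
    (Subtype.ext (Subtype.ext hx)) hx1P
  have hay' : a ^ 2 ^ (n - 2) = y := congrArg (fun z : P => ((z : C) : G)) hay
  have hoa : orderOf a = 2 ^ n := by
    rw [← ho, ← Subgroup.orderOf_coe, ← Subgroup.orderOf_coe]
  have h2 : 2 ∣ Nat.card C := by
    have h3 : orderOf (⟨x, hxC⟩ : C) = 2 := by
      apply orderOf_eq_prime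
      · rw [pow_two]
        exact Subtype.ext hx
      · exact fun h => hx1 (congrArg Subtype.val h)
    rw [← h3]
    exact orderOf_dvd_natCard _
  obtain ⟨K, hKn, hKo, hKd⟩ := CycEx_compl P hcyc h2
  refine ⟨a, n, K.map C.subtype, ⟨hn, hoa, ?_, ?_, ?_, ?_, ?_⟩, hay'⟩
  · have h3 : n - 1 = (n - 2) + 1 := by omega
    rw [h3, pow_succ, pow_mul, hay', pow_two, hy]
  · rintro k ⟨k', hk', rfl⟩
    rw [hay']
    exact (hC _).1 k'.2
  · rintro c hc k ⟨k', hk', rfl⟩
    rw [hay'] at hc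
    have hcC : c ∈ C := (hC c).2 hc
    exact ⟨⟨c, hcC⟩ * k' * ⟨c, hcC⟩⁻¹, hKn.conj_mem k' hk' _, rfl⟩
  · rw [Subgroup.card_map_of_injective C.subtype_injective]
    exact hKo
  · intro c hc
    rw [hay'] at hc
    have hcC : c ∈ C := (hC c).2 hc
    obtain ⟨k, hk, s, hs, hks⟩ := hKd ⟨c, hcC⟩
    obtain ⟨i, hi⟩ := hgen ⟨s, hs⟩
    refine ⟨k, ⟨k, hk, rfl⟩, i, ?_⟩
    have h3 : (s : G) = a ^ i := congrArg (fun z : P => ((z : C) : G)) hi
    have h4 : c = (k : G) * (s : G) := congrArg Subtype.val hks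
    rw [h4, h3]

/-- PROOF. Suppose there is no such `y`. Let `P` be a Sylow `2`-subgroup of `G` with `x ∈ P`. `x` is central in `P`:
for `s ∈ P` the conjugate `s * x * s⁻¹` lies in `P`, so it equals `x` (`Base_two`). So `1` and `x` are the only `u ∈ P` with
`u * u = 1`. If `P` has an element `s ≠ 1, x`, then `s * s ≠ 1`, and a suitable power `s'` of `s` has order `4`, so
`s' * s' = x`, contradiction. So `P = {1, x}` is cyclic, and `G` has a normal complement `K` of `P` (as in `CycEx_main`),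
of odd order. `K = ⊥` by `h.free`, so `G = P` is abelian, contradiction to `h.nc`. -/
theorem CycEx_root {G : Type} [Group G] [Finite G] {x : G} (h : Min G x)
    (hu : ∀ u : G, u * u = 1 → x * u = u * x → u = 1 ∨ u = x) : ∃ y : G, y * y = x := by
  have : Fact (Nat.Prime 2) := ⟨Nat.prime_two⟩
  by_contra hno
  push Not at hno
  have hx1 : x ≠ 1 := fun h1 => hno 1 (by rw [mul_one, h1])
  have hxx : x * x = 1 := Base_sq h.isol
  have hpx : IsPGroup 2 (Subgroup.zpowers x) := by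
    rintro ⟨z, hz⟩
    obtain ⟨i, rfl⟩ := Subgroup.mem_zpowers_iff.1 hz
    refine ⟨1, Subtype.ext ?_⟩
    show (x ^ i) ^ 2 ^ 1 = 1
    rw [← zpow_natCast, ← zpow_mul, mul_comm, zpow_mul, zpow_natCast, pow_one, pow_two, hxx,
      one_zpow]
  obtain ⟨P, hP⟩ := hpx.exists_le_sylow
  have hxP : x ∈ P := hP (Subgroup.mem_zpowers x)
  have hcen : ∀ s ∈ P, x * s = s * x := by
    intro s hs
    have h1 := Base_two h.isol s 1 (P : Subgroup G) P.2
      (mul_mem (mul_mem hs hxP) (inv_mem hs)) (by rw [one_mul, inv_one, mul_one]; exact hxP)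
    rw [one_mul, inv_one, mul_one] at h1
    calc x * s = (s * x * s⁻¹) * s := by rw [h1]
      _ = s * x := by group
  have hall : ∀ s ∈ P, s = 1 ∨ s = x := by
    intro s hs
    obtain ⟨k, hk⟩ := (IsPGroup.iff_orderOf (p := 2)).1 P.2 ⟨s, hs⟩
    rw [← Subgroup.orderOf_coe] at hk
    have hk' : orderOf s = 2 ^ k := hk
    rcases Nat.lt_or_ge k 2 with hk2 | hk2
    · apply hu s _ (hcen s hs)
      have h1 : s ^ 2 ^ k = 1 := by rw [← hk', pow_orderOf_eq_one]
      have h2 : s ^ 2 ^ 1 = 1 := by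
        have h3 : (1 : ℕ) = k + (1 - k) := by omega
        rw [h3, pow_add, pow_mul, h1, one_pow]
      rw [pow_one, pow_two] at h2
      exact h2
    · exfalso
      have h1 : s ^ 2 ^ (k - 1) * s ^ 2 ^ (k - 1) = 1 := by
        rw [← pow_two, ← pow_mul, ← pow_succ]
        have h3 : k - 1 + 1 = k := by omega
        rw [h3, ← hk', pow_orderOf_eq_one]
      have h2 : s ^ 2 ^ (k - 1) ≠ 1 := by
        intro h3
        have h4 := orderOf_dvd_of_pow_eq_one h3
        rw [hk'] at h4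
        have h5 := (Nat.pow_dvd_pow_iff_le_right (by norm_num)).1 h4
        omega
      have h3 := hu _ h1 (hcen _ (pow_mem hs _))
      rcases h3 with h3 | h3
      · exact h2 h3
      · apply hno (s ^ 2 ^ (k - 2))
        rw [← h3, ← pow_two, ← pow_mul, ← pow_succ]
        have h4 : k - 2 + 1 = k - 1 := by omega
        rw [h4]
  have hcyc : IsCyclic P := ⟨⟨⟨x, hxP⟩, fun s => by
    rcases hall s s.2 with h1 | h1
    · rw [show s = 1 from Subtype.ext h1]
      exact ⟨0, zpow_zero _⟩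
    · rw [show s = ⟨x, hxP⟩ from Subtype.ext h1]
      exact ⟨1, zpow_one _⟩⟩⟩
  have h2 : 2 ∣ Nat.card G := by
    have h3 : orderOf x = 2 := orderOf_eq_prime (by rw [pow_two, hxx]) hx1
    rw [← h3]
    exact orderOf_dvd_natCard _
  obtain ⟨K, hKn, hKo, hKd⟩ := CycEx_compl P hcyc h2
  have hK : K = ⊥ := h.free K hKn hKo
  obtain ⟨g, hg⟩ := h.nc
  apply hg
  obtain ⟨k, hk, s, hs, rfl⟩ := hKd g
  rw [hK, Subgroup.mem_bot] at hk
  rw [hk, one_mul]
  exact hcen s hs

end Pool.Agent.Zst
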