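import Mathlib
import Pool.Agent.KB.Defs

/-! Definitions for the proof of Glauberman's theorem on isolated involutions. -/

namespace Pool.Agent.Zst

open Pool.Agent.KB

/-- `x` is an involution (or `1`) and all products of `x` with a conjugate of `x` have odd order. -/
def Isol {G : Type} [Group G] (x : G) : Prop :=
  x * x = 1 ∧ ∀ g : G, Odd (orderOf (x * (g * x * g⁻¹)))

/-- There is no nontrivial normal subgroup of odd order. -/
def OddFree (G : Type) [Group G] : Prop :=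
  ∀ N : Subgroup G, N.Normal → Odd (Nat.card N) → N = ⊥

/-- All commutators with `x` lie in one normal subgroup of odd order. -/
def ZS {G : Type} [Group G] (x : G) : Prop :=
  ∃ N : Subgroup G, N.Normal ∧ Odd (Nat.card N) ∧ ∀ g : G, x * g * x⁻¹ * g⁻¹ ∈ N

/-- A minimal counterexample to `Isol x → ZS x`. -/
structure Min (G : Type) [Group G] [Finite G] (x : G) : Prop where
  free : OddFree G
  isol : Isol x
  nc : ∃ g : G, x * g ≠ g * x
  ind : ∀ (H : Type) [Group H] [Finite H] (y : H), Nat.card H < Nat.card G → Isol y → ZS y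

/-- The properties of the set `B` of the irreducible characters of the principal `2`-block of `G`
which are used. -/
structure PBlock (G : Type) [Group G] [Finite G] (B : Finset (G → ℂ)) : Prop where
  irr : ∀ χ ∈ B, χ ∈ Irr G
  one : (fun _ : G => (1 : ℂ)) ∈ B
  orth : ∀ u v r s : G, (∃ m : ℕ, u ^ 2 ^ m = 1) → (∃ m : ℕ, v ^ 2 ^ m = 1) → Odd (orderOf r) →
    Odd (orderOf s) → u * r = r * u → v * s = s * v → ¬ IsConj u v →
    ∑ χ ∈ B, χ (u * r) * χ (v * s)⁻¹ = 0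
  core : ∀ (u : G) (N : Subgroup G), (∃ m : ℕ, u ^ 2 ^ m = 1) → Odd (Nat.card N) →
    (∀ n ∈ N, u * n = n * u) → (∀ c : G, u * c = c * u → ∀ n ∈ N, c * n * c⁻¹ ∈ N) →
    ∀ n ∈ N, ∀ χ ∈ B, χ (u * n) = χ u
  norm : ∀ (u : G) (K : Subgroup G) (m : ℕ), (∃ m : ℕ, u ^ 2 ^ m = 1) → Odd (Nat.card K) →
    (∀ n ∈ K, u * n = n * u) → (∀ c : G, u * c = c * u → ∀ n ∈ K, c * n * c⁻¹ ∈ K) →
    Nat.card {c : G // u * c = c * u} = 2 ^ m * Nat.card K →
    ∑ χ ∈ B, χ u * χ u⁻¹ = 2 ^ m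

/-- `a` has order `2 ^ n` with `n ≥ 2`, `a ^ 2 ^ (n - 1) = x`, and the centralizer of
`y = a ^ 2 ^ (n - 2)` (an element of order four) is `K ⟨a⟩` with `K` normal of odd order. -/
structure Cyc (G : Type) [Group G] [Finite G] (x a : G) (n : ℕ) (K : Subgroup G) : Prop where
  two : 2 ≤ n
  ord : orderOf a = 2 ^ n
  inv : a ^ 2 ^ (n - 1) = x
  com : ∀ k ∈ K, a ^ 2 ^ (n - 2) * k = k * a ^ 2 ^ (n - 2)
  nor : ∀ c : G, a ^ 2 ^ (n - 2) * c = c * a ^ 2 ^ (n - 2) → ∀ k ∈ K, c * k * c⁻¹ ∈ K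
  odd : Odd (Nat.card K)
  dec : ∀ c : G, a ^ 2 ^ (n - 2) * c = c * a ^ 2 ^ (n - 2) → ∃ k ∈ K, ∃ i : ℕ, c = k * a ^ i

end Pool.Agent.Zst
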