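import Pool.Agent.KBQ.IndA
import Pool.Agent.Zst.Char

/-! Normal subgroups of order prime to `p` lie in the kernels of the characters of the principal
block. -/

namespace Pool.Agent.Zst

open Pool.Agent.KB Pool.Agent.KB.ContrAux Pool.Agent.KBL Pool.Agent.KBZ Pool.Agent.KBU
  Pool.Agent.KBQ

/-- the trivial character is irreducible -/
private theorem KerB_one (G : Type) [Group G] : (fun _ : G => (1 : ℂ)) ∈ Irr G := by
  refine ⟨1, (1 : G →* ((Fin 1 → ℂ) →ₗ[ℂ] (Fin 1 → ℂ))), ?_, ?_⟩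
  · have h1 : IsSimpleOrder (Submodule ℂ (Fin 1 → ℂ)) := by
      have h2 : IsSimpleModule ℂ (Fin 1 → ℂ) := by
        rw [isSimpleModule_iff_finrank_eq_one]
        simp
      exact (isSimpleModule_iff ℂ (Fin 1 → ℂ)).1 h2
    refine { exists_pair_ne := ⟨⊥, ⊤, fun h => ?_⟩, eq_bot_or_eq_top := fun S => ?_ }
    · have h2 := congrArg Subrepresentation.toSubmodule h
      exact bot_ne_top h2
    · rcases h1.eq_bot_or_eq_top S.toSubmodule with h2 | h2
      · left
        exact Subrepresentation.toSubmodule_injective h2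
      · right
        exact Subrepresentation.toSubmodule_injective h2
  · funext g
    show LinearMap.trace ℂ (Fin 1 → ℂ) (1 : (Fin 1 → ℂ) →ₗ[ℂ] (Fin 1 → ℂ)) = 1
    rw [LinearMap.trace_one]
    simp

open Classical in
/-- the sum of a subgroup -/
private noncomputable def KerB_al {C : Type} [Group C] [Fintype C] (N : Subgroup C) :
    MonoidAlgebra AInt C :=
  ∑ x : C with x ∈ N, MonoidAlgebra.of AInt C x

open Classical in
private theorem KerB_coeff {C : Type} [Group C] [Fintype C] (N : Subgroup C) (x : C) :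
    (KerB_al N).coeff x = if x ∈ N then (1 : AInt) else 0 := by
  unfold KerB_al
  rw [MonoidAlgebra.coeff_sum, Finsupp.finsetSum_apply]
  have h1 : ∀ h : C, (MonoidAlgebra.of AInt C h).coeff x = if h = x then (1 : AInt) else 0 := by
    intro h
    rw [MonoidAlgebra.of_apply, MonoidAlgebra.coeff_single, Finsupp.single_apply]
  simp only [h1]
  rw [Finset.sum_ite_eq']
  simp

private theorem KerB_ctr {C : Type} [Group C] [Fintype C] (N : Subgroup C) (hN : N.Normal) :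
    Ctr (KerB_al N) := by
  classical
  intro g x
  have h1 : g * x * g⁻¹ ∈ N ↔ x ∈ N := by
    constructor
    · intro h
      have h2 := hN.conj_mem _ h g⁻¹
      have h3 : g⁻¹ * (g * x * g⁻¹) * g⁻¹⁻¹ = x := by group
      rwa [h3] at h2
    · intro h
      exact hN.conj_mem _ h g
  rw [KerB_coeff, KerB_coeff]
  simp only [h1]

private theorem KerB_card {C : Type} [Group C] [Fintype C] (N : Subgroup C) [DecidablePred (· ∈ N)] :
    (Finset.univ.filter fun x : C => x ∈ N).card = Nat.card N := by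
  rw [Nat.card_eq_fintype_card, ← Fintype.card_subtype]

private theorem KerB_ev {C : Type} [Group C] [Fintype C] (N : Subgroup C) (ψ : C → ℂ)
    [DecidablePred (· ∈ N)] : ev ψ (KerB_al N) = ∑ x : C with x ∈ N, ψ x := by
  unfold ev
  rw [Finset.sum_filter]
  refine Finset.sum_congr rfl fun g _ => ?_
  rw [KerB_coeff]
  by_cases h : g ∈ N <;> simp [h]

private theorem KerB_sq {C : Type} [Group C] [Fintype C] (N : Subgroup C) :
    KerB_al N * KerB_al N = ((Nat.card N : ℕ) : AInt) • KerB_al N := by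
  classical
  refine MonoidAlgebra.ext ?_
  ext x
  rw [Br_prod]
  have h1 : (((Nat.card N : ℕ) : AInt) • KerB_al N).coeff x =
      ((Nat.card N : ℕ) : AInt) * (KerB_al N).coeff x := by
    rw [MonoidAlgebra.coeff_smul]
    rfl
  rw [h1, KerB_coeff]
  simp only [KerB_coeff]
  by_cases hx : x ∈ N
  · rw [if_pos hx, mul_one, ← KerB_card N, Finset.card_eq_sum_ones, Nat.cast_sum,
      Finset.sum_filter]
    congr 1
    refine Finset.sum_congr rfl fun y _ => ?_
    by_cases hy : y ∈ N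
    · have h2 : y⁻¹ * x ∈ N := N.mul_mem (N.inv_mem hy) hx
      rw [if_pos hy, if_pos h2, if_pos hy]
      simp
    · rw [if_neg hy, if_neg hy, zero_mul]
  · rw [if_neg hx, mul_zero]
    congr 1
    refine Finset.sum_eq_zero fun y _ => ?_
    by_cases hy : y ∈ N
    · have h2 : y⁻¹ * x ∉ N := by
        intro h3
        apply hx
        have h4 := N.mul_mem hy h3
        rwa [mul_inv_cancel_left] at h4
      rw [if_neg h2, mul_zero]
    · rw [if_neg hy, zero_mul]

/-- PROOF. `α = ∑_{n ∈ N} n` is central and `α * α = |N| α`, so `omg ψ α` is `0` or `|N|` (`Alg_mul`). `IndA_omg` or the definition of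
`SameBlock` (`Alg_sum`, `Alg_decomp`): `omg 1 α - omg ψ α ∈ 𝔪`, and `omg 1 α = |N|` is prime to `p`, so `omg ψ α ≠ 0`. Hence
`∑_{n ∈ N} ψ n = |N| ψ 1`. By `Char_sub`/the projection on the fixed vectors of `N` (of dimension `(1/|N|) ∑ ψ n = ψ 1`, so `N` acts
trivially), or because `‖ψ n‖ ≤ ψ 1` for every `n`, `ψ n = ψ 1` for all `n ∈ N`. -/
theorem KerB_main {C : Type} [Group C] [Fintype C] (p : ℕ) (hp : p.Prime) (𝔪 : Ideal AInt)
    (h𝔪 : 𝔪.IsMaximal) (hp𝔪 : (p : AInt) ∈ 𝔪) (N : Subgroup C) (hN : N.Normal)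
    (hc : Nat.Coprime (Nat.card N) p) (ψ : C → ℂ) (hψ : ψ ∈ block 𝔪 (fun _ => (1 : ℂ))) (n : C)
    (hn : n ∈ N) : ψ n = ψ 1 := by
  classical
  have hNpos : 0 < Nat.card N := Nat.card_pos
  have hN0 : ((Nat.card N : ℕ) : ℂ) ≠ 0 := by exact_mod_cast hNpos.ne'
  have hψ1 : ψ 1 ≠ 0 := by
    obtain ⟨d, hd, hd1⟩ := irr_deg hψ.1
    rw [hd1]
    exact_mod_cast hd.ne'
  -- the value at the sum of `N`
  have h1 : omg (fun _ : C => (1 : ℂ)) (KerB_al N) = ((Nat.card N : ℕ) : ℂ) := by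
    unfold omg
    rw [KerB_ev, Finset.sum_const, KerB_card]
    simp
  have h2 : omg ψ (KerB_al N) * omg ψ (KerB_al N) =
      ((Nat.card N : ℕ) : ℂ) * omg ψ (KerB_al N) := by
    rw [← Alg_mul ψ hψ.1 _ _ (KerB_ctr N hN), KerB_sq]
    unfold omg
    rw [(CenA_basic ψ).2.1]
    push_cast
    ring
  have h3 := IndA_omg 𝔪 (fun _ : C => (1 : ℂ)) ψ (KerB_one C) hψ.1 hψ.2 (KerB_al N) (KerB_ctr N hN)
  have h4 : omg ψ (KerB_al N) = ((Nat.card N : ℕ) : ℂ) := by
    have h5 : omg ψ (KerB_al N) * (omg ψ (KerB_al N) - ((Nat.card N : ℕ) : ℂ)) = 0 := by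
      linear_combination h2
    rcases mul_eq_zero.1 h5 with h6 | h6
    · exfalso
      rw [h1, h6, sub_zero] at h3
      have h7 : (p : ℤ) ∣ ((Nat.card N : ℕ) : ℤ) := InM_int hp h𝔪 hp𝔪 (by exact_mod_cast h3)
      have h8 : p ∣ Nat.card N := by exact_mod_cast h7
      have h9 := Nat.dvd_gcd h8 (dvd_refl p)
      rw [hc] at h9
      exact hp.one_lt.ne' (Nat.dvd_one.1 h9)
    · exact sub_eq_zero.1 h6
  have h5 : ∑ x : C with x ∈ N, ψ x = ((Nat.card N : ℕ) : ℂ) * ψ 1 := by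
    unfold omg at h4
    rw [KerB_ev, div_eq_iff hψ1] at h4
    exact h4
  -- the projection
  obtain ⟨m, ρ, hρ, hρψ⟩ := hψ.1
  obtain ⟨S, hS⟩ : ∃ S : Module.End ℂ (Fin m → ℂ), S = ∑ x : C with x ∈ N, ρ x := ⟨_, rfl⟩
  have hbS : ∀ b ∈ N, ρ b * S = S := by
    intro b hb
    rw [hS, Finset.mul_sum]
    refine Finset.sum_bij (fun x _ => b * x) ?_ ?_ ?_ ?_
    · intro x hx
      rw [Finset.mem_filter] at hx ⊢
      exact ⟨Finset.mem_univ _, N.mul_mem hb hx.2⟩
    · intro x _ y _ hxy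
      exact mul_left_cancel hxy
    · intro y hy
      rw [Finset.mem_filter] at hy
      refine ⟨b⁻¹ * y, ?_, mul_inv_cancel_left b y⟩
      rw [Finset.mem_filter]
      exact ⟨Finset.mem_univ _, N.mul_mem (N.inv_mem hb) hy.2⟩
    · intro x _
      exact (map_mul ρ b x).symm
  have hSS : S * S = ((Nat.card N : ℕ) : ℂ) • S := by
    conv_lhs => rw [hS, Finset.sum_mul]
    rw [← hS, Finset.sum_congr rfl fun x hx => hbS x (Finset.mem_filter.1 hx).2, Finset.sum_const,
      KerB_card, ← Nat.cast_smul_eq_nsmul ℂ]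
  have hE : IsIdempotentElem (1 - ((Nat.card N : ℕ) : ℂ)⁻¹ • S) := by
    refine IsIdempotentElem.one_sub ?_
    show (((Nat.card N : ℕ) : ℂ)⁻¹ • S) * (((Nat.card N : ℕ) : ℂ)⁻¹ • S) =
      ((Nat.card N : ℕ) : ℂ)⁻¹ • S
    rw [smul_mul_smul_comm, hSS, smul_smul]
    congr 1
    field_simp
  have htr : LinearMap.trace ℂ (Fin m → ℂ) (1 - ((Nat.card N : ℕ) : ℂ)⁻¹ • S) = 0 := by
    have h6 : LinearMap.trace ℂ (Fin m → ℂ) S = ((Nat.card N : ℕ) : ℂ) * ψ 1 := by
      rw [← h5, hS, map_sum, ← hρψ]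
      rfl
    have h7 : LinearMap.trace ℂ (Fin m → ℂ) (1 : Module.End ℂ (Fin m → ℂ)) = ψ 1 := by
      rw [← hρψ, ← map_one ρ]
      rfl
    rw [map_sub, map_smul, h6, h7, smul_eq_mul, inv_mul_cancel_left₀ hN0, sub_self]
  have hE1 := LinearMap.IsIdempotentElem.eq_zero_of_trace_eq_zero hE htr
  have hE2 : ((Nat.card N : ℕ) : ℂ)⁻¹ • S = 1 := (sub_eq_zero.1 hE1).symm
  have h6 : ρ n = 1 := by
    have h7 : ρ n * (((Nat.card N : ℕ) : ℂ)⁻¹ • S) = ((Nat.card N : ℕ) : ℂ)⁻¹ • S := by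
      rw [mul_smul_comm, hbS n hn]
    rwa [hE2, mul_one] at h7
  rw [← hρψ]
  show LinearMap.trace ℂ (Fin m → ℂ) (ρ n) = LinearMap.trace ℂ (Fin m → ℂ) (ρ 1)
  rw [h6, map_one ρ]

end Pool.Agent.Zst
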