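import Pool.Agent.Zst.ThirdB
import Pool.Agent.Zst.KerB
import Pool.Agent.KBQ.SMTb

/-! The principal block: translation by the core of a centralizer. -/

namespace Pool.Agent.Zst

open Pool.Agent.KB Pool.Agent.KB.ContrAux Pool.Agent.KBL Pool.Agent.KBZ Pool.Agent.KBU
  Pool.Agent.KBQ

open Classical in
private theorem PCore_sum {G : Type} [Group G] (𝔪 : Ideal AInt) (B : Finset (G → ℂ))
    (hB : ∀ χ, χ ∈ B ↔ χ ∈ block 𝔪 (fun _ => (1 : ℂ))) {K : ℕ} (X : Fin K → G → ℂ)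
    (hXi : Function.Injective X) (hX : Set.range X = Irr G) (f : (G → ℂ) → ℂ) :
    ∑ χ ∈ B, f χ = ∑ i with X i ∈ block 𝔪 (fun _ => (1 : ℂ)), f (X i) := by
  symm
  refine Finset.sum_bij (fun i _ => X i) ?_ ?_ ?_ ?_
  · intro i hi
    rw [Finset.mem_filter] at hi
    exact (hB _).2 hi.2
  · intro i _ j _ h
    exact hXi h
  · intro χ hχ
    have h1 := (hB χ).1 hχ
    have h2 : χ ∈ Set.range X := by rw [hX]; exact h1.1
    obtain ⟨i, rfl⟩ := h2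
    exact ⟨i, Finset.mem_filter.2 ⟨Finset.mem_univ _, h1⟩, rfl⟩
  · intro i _
    rfl

/-- PROOF. Let `C` be the centralizer of `u`. `SMTb_main` (`χ₀ = 1`, `w = u`) four times:
`∑_{χ ∈ B} (χ(u n) - χ(u)) (χ((u n)⁻¹) - χ(u⁻¹)) = ∑_j (Y_j(n) - Y_j(1)) (Y_j(n⁻¹) - Y_j(1))`, the sum over the `Y_j ∈ Irr C` with
`Ind 𝔪 ι Y_j 1`, i.e. (`Third_main`) `Y_j` in the principal block of `C`; by `KerB_main` for the normal subgroup `N` of `C` every
summand is `0`. On the left `χ(g⁻¹)` is the complex conjugate of `χ(g)` (`irr_inv`), so it is a sum of squares of absolute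
values, and every summand is `0`. -/
theorem PBlk_core {G : Type} [Group G] [Fintype G] (p : ℕ) (hp : p.Prime) (𝔪 : Ideal AInt)
    (h𝔪 : 𝔪.IsMaximal) (hp𝔪 : (p : AInt) ∈ 𝔪) (B : Finset (G → ℂ))
    (hB : ∀ χ, χ ∈ B ↔ χ ∈ block 𝔪 (fun _ => (1 : ℂ))) (u : G) (N : Subgroup G)
    (hu : ∃ m : ℕ, u ^ p ^ m = 1) (hN : Nat.Coprime (Nat.card N) p)
    (hN1 : ∀ n ∈ N, u * n = n * u) (hN2 : ∀ c : G, u * c = c * u → ∀ n ∈ N, c * n * c⁻¹ ∈ N) :
    ∀ n ∈ N, ∀ χ ∈ B, χ (u * n) = χ u := by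
  classical
  intro n hn
  obtain ⟨m, hm⟩ := hu
  obtain ⟨K, X, hXi, hX, -, -⟩ := Col_main G
  obtain ⟨C, hC⟩ : ∃ C : Subgroup G, C = Subgroup.centralizer ({u} : Set G) := ⟨_, rfl⟩
  have hCm : ∀ x : G, x ∈ C ↔ u * x = x * u := by
    intro x
    rw [hC, Subgroup.mem_centralizer_singleton_iff]
    exact eq_comm
  obtain ⟨L, Y, hYi, hY, -, -⟩ := Col_main C
  have hrange : ∀ x : G, (∃ y, C.subtype y = x) ↔ u * x = x * u := by
    intro x
    rw [← hCm]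
    exact ⟨fun ⟨y, hy⟩ => hy ▸ y.2, fun hx => ⟨⟨x, hx⟩, rfl⟩⟩
  have hNC : N ≤ C := fun x hx => (hCm x).2 (hN1 x hx)
  obtain ⟨N', hN'⟩ : ∃ N' : Subgroup C, N' = N.subgroupOf C := ⟨_, rfl⟩
  have hN'm : ∀ c : C, c ∈ N' ↔ (c : G) ∈ N := by
    intro c
    rw [hN', Subgroup.mem_subgroupOf]
  have hN'n : N'.Normal := ⟨fun x hx c => by
    rw [hN'm] at hx ⊢
    exact hN2 c ((hCm c).1 c.2) x hx⟩
  have hN'c : Nat.Coprime (Nat.card N') p := by
    have h1 : Nat.card N' = Nat.card N := by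
      rw [hN']
      exact Nat.card_congr (Subgroup.subgroupOfEquivOfLe hNC).toEquiv
    rwa [h1]
  obtain ⟨y, hy⟩ : ∃ y : C, (y : G) = n := ⟨⟨n, hNC hn⟩, rfl⟩
  have hyN : y ∈ N' := by rw [hN'm, hy]; exact hn
  have hyp : ¬ p ∣ orderOf y := by
    intro h
    have h1 : orderOf y ∣ Nat.card N' := by
      have h2 := orderOf_dvd_natCard (⟨y, hyN⟩ : N')
      rwa [← Subgroup.orderOf_coe] at h2
    have h2 := Nat.dvd_gcd (h.trans h1) (dvd_refl p)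
    rw [hN'c] at h2
    exact hp.one_lt.ne' (Nat.dvd_one.1 h2)
  have h1p : ¬ p ∣ orderOf (1 : C) := by
    rw [orderOf_one]
    exact fun h => hp.one_lt.ne' (Nat.dvd_one.1 h)
  have hYv : ∀ j, Ind 𝔪 C.subtype (Y j) (fun _ => (1 : ℂ)) →
      Y j y = Y j 1 ∧ Y j y⁻¹ = Y j 1 := by
    intro j hj
    have hjI : Y j ∈ Irr C := hY ▸ Set.mem_range_self j
    have h2 := (Third_main p hp 𝔪 h𝔪 hp𝔪 u m hm C.subtype C.subtype_injective hrange (Y j)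
      hjI).1 hj
    exact ⟨KerB_main p hp 𝔪 h𝔪 hp𝔪 N' hN'n hN'c (Y j) h2 y hyN,
      KerB_main p hp 𝔪 h𝔪 hp𝔪 N' hN'n hN'c (Y j) h2 y⁻¹ (N'.inv_mem hyN)⟩
  have hS := fun (a b : C) (ha : ¬ p ∣ orderOf a) (hb : ¬ p ∣ orderOf b) =>
    SMTb_main p hp 𝔪 h𝔪 hp𝔪 (fun _ => (1 : ℂ)) (Third_one G) u m hm C.subtype
      C.subtype_injective hrange X hXi hX Y hYi hY a b ha hb
  have e1 := hS y y hyp hyp
  have e2 := hS y 1 hyp h1p
  have e3 := hS 1 y h1p hyp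
  have e4 := hS 1 1 h1p h1p
  have hr1 : ∀ (a b : C), (∀ j, Ind 𝔪 C.subtype (Y j) (fun _ => (1 : ℂ)) → Y j a = Y j 1) →
      (∀ j, Ind 𝔪 C.subtype (Y j) (fun _ => (1 : ℂ)) → Y j b⁻¹ = Y j 1) →
      ∑ j with Ind 𝔪 C.subtype (Y j) (fun _ => (1 : ℂ)), Y j a * Y j b⁻¹ =
        ∑ j with Ind 𝔪 C.subtype (Y j) (fun _ => (1 : ℂ)), Y j 1 * Y j 1 := by
    intro a b ha hb
    refine Finset.sum_congr rfl fun j hj => ?_
    rw [Finset.mem_filter] at hj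
    rw [ha j hj.2, hb j hj.2]
  rw [hr1 y y (fun j hj => (hYv j hj).1) (fun j hj => (hYv j hj).2)] at e1
  rw [hr1 y 1 (fun j hj => (hYv j hj).1) (fun j _ => by rw [inv_one])] at e2
  rw [hr1 1 y (fun j _ => rfl) (fun j hj => (hYv j hj).2)] at e3
  rw [hr1 1 1 (fun j _ => rfl) (fun j _ => by rw [inv_one])] at e4
  have hy2 : u * C.subtype y = u * n := by
    rw [← hy]
    rfl
  have hy1 : u * C.subtype (1 : C) = u := by rw [map_one, mul_one]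
  rw [hy2] at e1 e2 e3
  rw [hy1] at e2 e3 e4
  -- the sum of squares
  have hsum : ∑ i with X i ∈ block 𝔪 (fun _ => (1 : ℂ)), ‖X i (u * n) - X i u‖ ^ 2 = 0 := by
    have h2 : ((∑ i with X i ∈ block 𝔪 (fun _ => (1 : ℂ)),
        ‖X i (u * n) - X i u‖ ^ 2 : ℝ) : ℂ) = 0 := by
      push_cast
      have h3 : ∀ i, ((‖X i (u * n) - X i u‖ : ℝ) : ℂ) ^ 2 =
          X i (u * n) * X i (u * n)⁻¹ - X i (u * n) * X i u⁻¹ - X i u * X i (u * n)⁻¹ +
            X i u * X i u⁻¹ := by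
        intro i
        have hi : X i ∈ Irr G := hX ▸ Set.mem_range_self i
        rw [← Complex.mul_conj', map_sub, irr_inv hi, irr_inv hi]
        ring
      simp only [h3]
      rw [Finset.sum_add_distrib, Finset.sum_sub_distrib, Finset.sum_sub_distrib, e1, e2, e3, e4]
      ring
    exact_mod_cast h2
  intro χ hχ
  have h1 := (hB χ).1 hχ
  have h2 : χ ∈ Set.range X := by rw [hX]; exact h1.1
  obtain ⟨i, rfl⟩ := h2
  have h3 := (Finset.sum_eq_zero_iff_of_nonneg (fun j _ => by positivity)).1 hsum i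
    (Finset.mem_filter.2 ⟨Finset.mem_univ _, h1⟩)
  have h4 : ‖X i (u * n) - X i u‖ = 0 := by
    simpa using h3
  exact sub_eq_zero.1 (norm_eq_zero.1 h4)

end Pool.Agent.Zst
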