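import Pool.Agent.Zst.ThirdB
import Pool.Agent.Zst.KerB
import Pool.Agent.KBQ.SMTb

/-! The principal block: norm of a column. -/

namespace Pool.Agent.Zst

open Pool.Agent.KB Pool.Agent.KB.ContrAux Pool.Agent.KBL Pool.Agent.KBZ Pool.Agent.KBU
  Pool.Agent.KBQ

open Classical in
private theorem PNorm_sum {G : Type} [Group G] (𝔪 : Ideal AInt) (B : Finset (G → ℂ))
    (hB : ∀ χ, χ ∈ B ↔ χ ∈ block 𝔪 (fun _ => (1 : ℂ))) {K : ℕ} (X : Fin K → G → ℂ)
    (hXi : Function.Injective X) (hX : Set.range X = Irr G) (f : (G → ℂ) → ℂ) :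
    ∑ χ ∈ B, f χ = ∑ i with X i ∈ block 𝔪 (fun _ => (1 : ℂ)), f (X i) := by
  symm
  refine Finset.sum_bij (fun i _ => X i) ?_ ?_ ?_ ?_
  · intro i hi
    rw [Finset.mem_filter] at hi
    exact (hB _).2 hi.2
  · intro i _ j _ h
    exact hXi h
  · intro χ hχ
    have h1 := (hB χ).1 hχ
    have h2 : χ ∈ Set.range X := by rw [hX]; exact h1.1
    obtain ⟨i, rfl⟩ := h2
    exact ⟨i, Finset.mem_filter.2 ⟨Finset.mem_univ _, h1⟩, rfl⟩
  · intro i _
    rfl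

/-- an element of order prime to the index of a normal subgroup -/
private theorem PNorm_mem {C : Type} [Group C] [Finite C] (p m : ℕ) (hp : p.Prime) (N : Subgroup C)
    (hN : N.Normal) (hcard : Nat.card C = p ^ m * Nat.card N) (c : C) (hc : ¬ p ∣ orderOf c) :
    c ∈ N := by
  have h1 : Nat.card (C ⧸ N) = p ^ m := by
    have h2 := Subgroup.card_eq_card_quotient_mul_card_subgroup N
    rw [hcard] at h2
    exact (Nat.eq_of_mul_eq_mul_right Nat.card_pos h2).symm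
  have h2 : orderOf (QuotientGroup.mk c : C ⧸ N) ∣ p ^ m := by
    rw [← h1]
    exact orderOf_dvd_natCard _
  have h3 : orderOf (QuotientGroup.mk c : C ⧸ N) ∣ orderOf c :=
    orderOf_map_dvd (QuotientGroup.mk' N) c
  have h4 : Nat.Coprime (p ^ m) (orderOf c) := by
    apply Nat.Coprime.pow_left
    rwa [Nat.Prime.coprime_iff_not_dvd hp]
  have h5 : orderOf (QuotientGroup.mk c : C ⧸ N) = 1 := Nat.eq_one_of_dvd_coprimes h4 h2 h3
  rw [orderOf_eq_one_iff, QuotientGroup.eq_one_iff] at h5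
  exact h5

/-- PROOF. Let `C` be the centralizer of `u`. `SMTb_main` (`y = y' = 1`) and `Third_main`:
`∑_{χ ∈ B} χ(u) χ(u⁻¹) = ∑_j Y_j(1)^2 =: f(1)`, where `f(c) = ∑_j Y_j(1) Y_j(c⁻¹)`, the sums over the `Y_j` in the principal block of
`C`. `f(c) = 0` if `p ∣ orderOf c` (`Lim_main`), `f(c) = f(1)` for `c ∈ K` (`KerB_main`), and an element `c ∈ C` with `p ∤ orderOf c`
lies in `K` (`[C : K] = p ^ m`, `K` normal in `C`). So `|K| f(1) = ∑_{c ∈ C} f(c) = ∑_j Y_j(1) ∑_c Y_j(c⁻¹) = |C|`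
(`Col_row`: only the trivial character contributes), `f(1) = p ^ m`. -/
theorem PBlk_norm {G : Type} [Group G] [Fintype G] (p : ℕ) (hp : p.Prime) (𝔪 : Ideal AInt)
    (h𝔪 : 𝔪.IsMaximal) (hp𝔪 : (p : AInt) ∈ 𝔪) (B : Finset (G → ℂ))
    (hB : ∀ χ, χ ∈ B ↔ χ ∈ block 𝔪 (fun _ => (1 : ℂ))) (u : G) (K : Subgroup G) (m : ℕ)
    (hu : ∃ m : ℕ, u ^ p ^ m = 1) (hK : Nat.Coprime (Nat.card K) p)
    (hK1 : ∀ n ∈ K, u * n = n * u) (hK2 : ∀ c : G, u * c = c * u → ∀ n ∈ K, c * n * c⁻¹ ∈ K)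
    (hcard : Nat.card {c : G // u * c = c * u} = p ^ m * Nat.card K) :
    ∑ χ ∈ B, χ u * χ u⁻¹ = (p : ℂ) ^ m := by
  classical
  obtain ⟨a, ha⟩ := hu
  obtain ⟨Q, X, hXi, hX, -, -⟩ := Col_main G
  obtain ⟨C, hC⟩ : ∃ C : Subgroup G, C = Subgroup.centralizer ({u} : Set G) := ⟨_, rfl⟩
  have hCm : ∀ x : G, x ∈ C ↔ u * x = x * u := by
    intro x
    rw [hC, Subgroup.mem_centralizer_singleton_iff]
    exact eq_comm
  obtain ⟨L, Y, hYi, hY, hY1, hY2⟩ := Col_main C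
  have hYI : ∀ j, Y j ∈ Irr C := fun j => hY ▸ Set.mem_range_self j
  have hrange : ∀ x : G, (∃ y, C.subtype y = x) ↔ u * x = x * u := by
    intro x
    rw [← hCm]
    exact ⟨fun ⟨y, hy⟩ => hy ▸ y.2, fun hx => ⟨⟨x, hx⟩, rfl⟩⟩
  have hKC : K ≤ C := fun x hx => (hCm x).2 (hK1 x hx)
  obtain ⟨N, hN⟩ : ∃ N : Subgroup C, N = K.subgroupOf C := ⟨_, rfl⟩
  have hNm : ∀ c : C, c ∈ N ↔ (c : G) ∈ K := by
    intro c
    rw [hN, Subgroup.mem_subgroupOf]
  have hNn : N.Normal := ⟨fun x hx c => by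
    rw [hNm] at hx ⊢
    exact hK2 c ((hCm c).1 c.2) x hx⟩
  have hNcard : Nat.card N = Nat.card K := by
    rw [hN]
    exact Nat.card_congr (Subgroup.subgroupOfEquivOfLe hKC).toEquiv
  have hNc : Nat.Coprime (Nat.card N) p := by rwa [hNcard]
  have hCcard : Nat.card C = p ^ m * Nat.card N := by
    rw [hNcard, ← hcard]
    exact Nat.card_congr (Equiv.subtypeEquivRight hCm)
  have h1p : ¬ p ∣ orderOf (1 : C) := by
    rw [orderOf_one]
    exact fun h => hp.one_lt.ne' (Nat.dvd_one.1 h)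
  -- the column
  have e1 := SMTb_main p hp 𝔪 h𝔪 hp𝔪 (fun _ => (1 : ℂ)) (Third_one G) u a ha C.subtype
      C.subtype_injective hrange X hXi hX Y hYi hY 1 1 h1p h1p
  rw [map_one, mul_one] at e1
  obtain ⟨J, hJ⟩ : ∃ J : Finset (Fin L), ∀ j, j ∈ J ↔ Y j ∈ block 𝔪 (fun _ : C => (1 : ℂ)) :=
    ⟨Finset.univ.filter (fun j => Y j ∈ block 𝔪 (fun _ : C => (1 : ℂ))), fun j => by simp⟩
  have hJI : Finset.univ.filter (fun j => Ind 𝔪 C.subtype (Y j) (fun _ => (1 : ℂ))) = J := by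
    ext j
    rw [Finset.mem_filter, hJ, ← Third_main p hp 𝔪 h𝔪 hp𝔪 u a ha C.subtype C.subtype_injective
      hrange (Y j) (hYI j)]
    exact ⟨fun h => h.2, fun h => ⟨Finset.mem_univ _, h⟩⟩
  rw [hJI] at e1
  rw [PNorm_sum 𝔪 B hB X hXi hX (fun χ => χ u * χ u⁻¹), e1]
  -- the function `f`
  obtain ⟨f, hf⟩ : ∃ f : C → ℂ, ∀ c, f c = ∑ j ∈ J, Y j 1 * Y j c⁻¹ := ⟨_, fun _ => rfl⟩
  have hf0 : ∀ c, c ∉ N → f c = 0 := by
    intro c hc
    have h2 : p ∣ orderOf c := by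
      by_contra h3
      exact hc (PNorm_mem p m hp N hNn hCcard c h3)
    rw [hf]
    exact (Lim_main p hp 𝔪 h𝔪 hp𝔪 (fun _ => (1 : ℂ)) (Third_one C) Y hY hY1 hY2 J hJ 1 c h1p h2).1
  have hf1 : ∀ c ∈ N, f c = f 1 := by
    intro c hc
    rw [hf, hf]
    refine Finset.sum_congr rfl fun j hj => ?_
    rw [KerB_main p hp 𝔪 h𝔪 hp𝔪 N hNn hNc (Y j) ((hJ j).1 hj) c⁻¹ (N.inv_mem hc), inv_one]
  have hsum1 : ∑ c, f c = (Nat.card N : ℂ) * f 1 := by
    have h2 : ∀ c, f c = if c ∈ N then f 1 else 0 := by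
      intro c
      split_ifs with h
      · exact hf1 c h
      · exact hf0 c h
    rw [Finset.sum_congr rfl fun c _ => h2 c, ← Finset.sum_filter, Finset.sum_const,
      nsmul_eq_mul, Nat.card_eq_fintype_card, ← Fintype.card_subtype]
  have hsum2 : ∑ c, f c = (Nat.card C : ℂ) := by
    simp only [hf]
    rw [Finset.sum_comm]
    obtain ⟨j₀, hj₀⟩ : ∃ j₀, Y j₀ = fun _ => (1 : ℂ) := by
      have h2 : (fun _ : C => (1 : ℂ)) ∈ Set.range Y := by rw [hY]; exact Third_one C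
      exact h2
    have hj₀J : j₀ ∈ J := by
      rw [hJ, hj₀]
      exact KBL.CDAux.mem_self (Third_one C)
    rw [Finset.sum_eq_single j₀]
    · rw [hj₀]
      simp
    · intro j _ hne
      rw [← Finset.mul_sum]
      have h2 := (Col_row (fun _ : C => (1 : ℂ)) (Y j) (Third_one C) (hYI j)).2 (fun h => hne (hYi (by
        rw [hj₀, h])))
      simp only [one_mul] at h2
      rw [h2, mul_zero]
    · intro h
      exact absurd hj₀J h
  have hN0 : (Nat.card N : ℂ) ≠ 0 := by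
    have : 0 < Nat.card N := Nat.card_pos
    exact_mod_cast this.ne'
  have h2 : (Nat.card N : ℂ) * f 1 = (Nat.card N : ℂ) * (p : ℂ) ^ m := by
    rw [← hsum1, hsum2, hCcard]
    push_cast
    ring
  have h3 := mul_left_cancel₀ hN0 h2
  rw [← h3, hf]

end Pool.Agent.Zst
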