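import Pool.Agent.Zst.POrth
import Pool.Agent.Zst.PCore
import Pool.Agent.Zst.PNorm

/-! The principal 2-block. -/

namespace Pool.Agent.Zst

open Pool.Agent.KB Pool.Agent.KB.ContrAux Pool.Agent.KBL Pool.Agent.KBZ Pool.Agent.KBU
  Pool.Agent.KBQ

/-- `2` is not a unit in the ring of algebraic integers. -/
private lemma PMain_two : ¬ IsUnit ((2 : ℕ) : AInt) := by
  intro h
  obtain ⟨w, hw⟩ := h.exists_right_inv
  have h1 : (2 : ℂ) * (w : ℂ) = 1 := by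
    have h0 : (((((2 : ℕ) : AInt) * w : AInt)) : ℂ) = ((1 : AInt) : ℂ) :=
      congrArg (fun z : AInt => (z : ℂ)) hw
    have h00 : (((2 : ℕ) : AInt) : ℂ) = 2 := by
      have h000 : (((2 : ℕ) : AInt) : ℂ) = ((2 : ℕ) : ℂ) := rfl
      rw [h000]
      norm_num
    calc (2 : ℂ) * (w : ℂ) = (((2 : ℕ) : AInt) : ℂ) * (w : ℂ) := by rw [h00]
      _ = (((((2 : ℕ) : AInt) * w : AInt)) : ℂ) := rfl
      _ = ((1 : AInt) : ℂ) := h0
      _ = 1 := rfl
  have h2 : IsIntegral ℤ (w : ℂ) := w.2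
  have h3 : (w : ℂ) = algebraMap ℚ ℂ (1 / 2) := by
    have h5 : (w : ℂ) = 1 / 2 := by
      rw [eq_div_iff (by norm_num : (2 : ℂ) ≠ 0), mul_comm]
      exact h1
    rw [h5]
    simp
  rw [h3] at h2
  have h4 : IsIntegral ℤ (1 / 2 : ℚ) :=
    (isIntegral_algebraMap_iff (algebraMap ℚ ℂ).injective).1 h2
  obtain ⟨b, hb⟩ := IsIntegrallyClosed.isIntegral_iff.1 h4
  have h5 : (b : ℚ) = 1 / 2 := by simpa using hb
  have h6 : (2 * b : ℚ) = 1 := by rw [h5]; norm_num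
  have h7 : (2 * b : ℤ) = 1 := by exact_mod_cast h6
  omega

/-- PROOF. `Irr G` is finite (`Col_finite`), a maximal ideal `𝔪` of `AInt` with `2 ∈ 𝔪` exists (`2` is not a unit of `AInt`, because
`1/2` is not an algebraic integer), `B` is the set of the elements of `block 𝔪 1`; `PBlk_orth`, `PBlk_core`, `PBlk_norm` for
`p = 2`; `Third_one`. -/
theorem PBlk_main (G : Type) [Group G] [Finite G] : ∃ B : Finset (G → ℂ), PBlock G B := by
  classical
  have : Fintype G := Fintype.ofFinite G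
  obtain ⟨𝔪, h𝔪, h2𝔪⟩ := exists_max_ideal_of_mem_nonunits (mem_nonunits_iff.2 PMain_two)
  have hfin : (block 𝔪 (fun _ : G => (1 : ℂ))).Finite := by
    have h1 : Finite (Irr G) := Col_finite G
    exact (Set.toFinite (Irr G)).subset fun χ hχ => hχ.1
  have hB : ∀ χ, χ ∈ hfin.toFinset ↔ χ ∈ block 𝔪 (fun _ : G => (1 : ℂ)) := fun χ =>
    hfin.mem_toFinset
  have hodd : ∀ n : ℕ, Odd n → ¬ 2 ∣ n := fun n hn h => by
    obtain ⟨k, hk⟩ := hn
    omega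
  have hcop : ∀ n : ℕ, Odd n → Nat.Coprime n 2 := fun n hn => Nat.coprime_two_right.2 hn
  refine ⟨hfin.toFinset, ?_, ?_, ?_, ?_, ?_⟩
  · intro χ hχ
    exact ((hB χ).1 hχ).1
  · rw [hB]
    refine ⟨Third_one G, fun g => ⟨0, 𝔪.zero_mem, ?_⟩⟩
    simp
  · intro u v r s hu hv hr hs hur hvs h
    exact PBlk_orth 2 Nat.prime_two 𝔪 h𝔪 h2𝔪 hfin.toFinset hB u v r s hu hv (hodd _ hr)
      (hodd _ hs) hur hvs h
  · intro u N hu hN hN1 hN2
    exact PBlk_core 2 Nat.prime_two 𝔪 h𝔪 h2𝔪 hfin.toFinset hB u N hu (hcop _ hN) hN1 hN2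
  · intro u K m hu hK hK1 hK2 hcard
    have h := PBlk_norm 2 Nat.prime_two 𝔪 h𝔪 h2𝔪 hfin.toFinset hB u K m hu (hcop _ hK) hK1 hK2
      hcard
    rw [h]
    norm_num

end Pool.Agent.Zst
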