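import Pool.Agent.Zst.StepA
import Pool.Agent.Zst.End

/-! In a minimal counterexample `x` is the only involution which commutes with `x`. -/

namespace Pool.Agent.Zst

open Pool.Agent.KB

/-- PROOF. By `StepA_main`, `hB.core` and since characters are class functions, every summand in `Char_avg` (`a = x`,
`b = u`) equals `χ(z * r) = χ(z) = χ(x * u)`; so `χ(1) |G| χ(x * u) = |G| χ(x) χ(u)`. -/
theorem StepB_mul {G : Type} [Group G] [Finite G] {x : G} (h : Min G x) {B : Finset (G → ℂ)}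
    (hB : PBlock G B) (u : G) (hu : u * u = 1) (hu1 : u ≠ 1) (hux : u ≠ x) (hc : x * u = u * x)
    (χ : G → ℂ) (hχ : χ ∈ B) : χ x * χ u = χ 1 * χ (x * u) := by
  cases nonempty_fintype G
  have h1 : ∀ g : G, χ (x * (g * u * g⁻¹)) = χ (x * u) := by
    intro g
    obtain ⟨z, r, N, e, hz, hcz, hN1, hN2, hN3, hr⟩ := StepA_main h u hu hu1 hux hc g
    rw [e, hB.core z N ⟨1, by rw [pow_one, pow_two, hz]⟩ hN3 (fun n hn => hN1 n hn) hN2 r hr χ hχ]
    exact (Pool.Agent.KBL.Col_class (hB.irr χ hχ) hcz).symm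
  have h2 := Char_avg χ (hB.irr χ hχ) x u
  rw [Finset.sum_congr rfl fun g _ => h1 g, Finset.sum_const, Finset.card_univ, nsmul_eq_mul,
    ← Nat.card_eq_fintype_card] at h2
  have h3 : (Nat.card G : ℂ) ≠ 0 := by
    have : 0 < Nat.card G := Nat.card_pos
    exact_mod_cast this.ne'
  have h4 : (Nat.card G : ℂ) * (χ x * χ u) = (Nat.card G : ℂ) * (χ 1 * χ (x * u)) := by
    rw [← h2]; ring
  exact mul_left_cancel₀ h3 h4

/-- PROOF. Suppose `u ≠ 1`, `u ≠ x`. `StepB_mul` for `u` and for `x * u` (also an involution commuting with `x`, not `1`,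
not `x`; `x * (x * u) = u`) gives, for all `χ ∈ B`, `χ(x)^2 χ(u) = χ(1)^2 χ(u)`. So `χ(u) = 0` or `χ(x) = ± χ(1)`.
By `hB.orth` (`r = s = 1`): `∑ χ(1) χ(u⁻¹) = 0` and `∑ χ(x) χ(u⁻¹) = 0` (`x` and `u` are not conjugate by `Base_comm`),
`u⁻¹ = u`. So `∑_χ (χ(1) + χ(x)) χ(u) = 0`; here only the `χ` with `χ(x) = χ(1)` contribute, so
`∑_{χ ∈ B, χ(x) = χ(1)} χ(1) χ(u) = 0`. The trivial character is one of them. If all the `χ ∈ B` with `χ(x) = χ(1)` were
trivial the sum would be `1`. So there is a nontrivial one: contradiction by `End_main`. -/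
theorem StepB_main {G : Type} [Group G] [Finite G] {x : G} (h : Min G x) {B : Finset (G → ℂ)}
    (hB : PBlock G B) (u : G) (hu : u * u = 1) (hc : x * u = u * x) : u = 1 ∨ u = x := by
  by_contra hcon
  push Not at hcon
  obtain ⟨hu1, hux⟩ := hcon
  have hx : x * x = 1 := h.isol.1
  have hxxu : x * (x * u) = u := by rw [← mul_assoc, hx, one_mul]
  have hw : (x * u) * (x * u) = 1 := by
    calc (x * u) * (x * u) = (x * u) * (u * x) := by rw [← hc]
      _ = x * (u * u) * x := by group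
      _ = 1 := by rw [hu, mul_one, hx]
  have hw1 : x * u ≠ 1 := by
    intro e
    apply hux
    rw [← hxxu, e, mul_one]
  have hwx : x * u ≠ x := fun e => hu1 (mul_left_cancel (e.trans (mul_one x).symm))
  have hwc : x * (x * u) = (x * u) * x := by
    rw [hxxu, mul_assoc, ← hc, hxxu]
  have hui : u⁻¹ = u := inv_eq_of_mul_eq_one_left hu
  have key : ∀ χ ∈ B, (χ x - χ 1) * ((χ x + χ 1) * χ u) = 0 := by
    intro χ hχ
    have e1 := StepB_mul h hB u hu hu1 hux hc χ hχ
    have e2 := StepB_mul h hB (x * u) hw hw1 hwx hwc χ hχ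
    rw [hxxu] at e2
    linear_combination χ x * e1 + χ 1 * e2
  have hpu : ∃ m : ℕ, u ^ 2 ^ m = 1 := ⟨1, by rw [pow_one, pow_two, hu]⟩
  have hpx : ∃ m : ℕ, x ^ 2 ^ m = 1 := ⟨1, by rw [pow_one, pow_two, hx]⟩
  have hodd : Odd (orderOf (1 : G)) := by rw [orderOf_one]; exact odd_one
  have s1 : ∑ χ ∈ B, χ 1 * χ u = 0 := by
    have := hB.orth 1 u 1 1 ⟨0, by simp⟩ hpu hodd hodd (by simp) (by simp)
      (fun e => hu1 ((by simpa using e : (1 : G) = u).symm))
    simpa [hui] using this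
  have s2 : ∑ χ ∈ B, χ x * χ u = 0 := by
    have hnc : ¬ IsConj x u := by
      intro e
      obtain ⟨g, hg⟩ := isConj_iff.mp e
      apply hux
      rw [← hg]
      exact Base_comm h.isol g (by rw [hg]; exact hc)
    have := hB.orth x u 1 1 hpx hpu hodd hodd (by simp) (by simp) hnc
    simpa [hui] using this
  have s3 : ∑ χ ∈ B, (χ x + χ 1) * χ u = 0 := by
    have : ∑ χ ∈ B, (χ x + χ 1) * χ u = ∑ χ ∈ B, χ x * χ u + ∑ χ ∈ B, χ 1 * χ u := by
      rw [← Finset.sum_add_distrib]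
      exact Finset.sum_congr rfl fun χ _ => by ring
    rw [this, s1, s2, add_zero]
  rw [Finset.sum_eq_single (fun _ : G => (1 : ℂ))] at s3
  · norm_num at s3
  · intro χ hχ hne
    rcases mul_eq_zero.mp (key χ hχ) with h5 | h5
    · exact absurd (End_main h χ (hB.irr χ hχ) hne (sub_eq_zero.mp h5)) id
    · exact h5
  · intro h5
    exact absurd hB.one h5

end Pool.Agent.Zst
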