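import Pool.Agent.Zst.Start
import Pool.Agent.Zst.StepB
import Pool.Agent.Zst.CycEx
import Pool.Agent.Zst.CaseI
import Pool.Agent.Zst.CaseII
import Pool.Agent.Zst.CaseIII
import Pool.Agent.Zst.CaseIV
import Pool.Agent.Zst.PMain

/-! Glauberman's theorem for `2`-elements. -/

namespace Pool.Agent.Zst

open Pool.Agent.KB

/-- The final case distinction. -/
theorem Fin_noMin (G : Type) [Group G] [Finite G] (x : G) : ¬ Min G x := by
  intro h
  obtain ⟨B, hB⟩ := PBlk_main G
  have hu : ∀ u : G, u * u = 1 → x * u = u * x → u = 1 ∨ u = x := fun u h1 h2 =>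
    StepB_main h hB u h1 h2
  have hx : x * x = 1 := h.isol.1
  have hx1 : x ≠ 1 := by
    rintro rfl
    obtain ⟨g, hg⟩ := h.nc
    exact hg (by rw [one_mul, mul_one])
  have hdata : ∀ y : G, y * y = x → ∃ K : Subgroup G, Cyc G x y 2 K ∧ IsConj y y⁻¹ := by
    intro y hy
    obtain ⟨a, n, K, hC, ha⟩ := CycEx_main hx hx1 hu y hy
    by_cases hc : IsConj a a⁻¹
    · by_cases hn : 3 ≤ n
      · exact (CaseII_main h hC hu hB hc hn).elim
      · have hn2 : n = 2 := le_antisymm (by omega) hC.two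
        subst hn2
        have hay : a = y := by simpa using ha
        subst hay
        exact ⟨K, hC, hc⟩
    · exact (CaseI_main h hC hu hB hc).elim
  obtain ⟨i, hi⟩ := CycEx_root h hu
  obtain ⟨K₁, h1, hci⟩ := hdata i hi
  have hi4 : i ^ 4 = 1 := by
    rw [show (4 : ℕ) = 2 + 2 from rfl, pow_add, pow_two, hi, hx]
  have hii : i ≠ i⁻¹ := by
    intro hc
    have : i * i = 1 := mul_eq_one_iff_eq_inv.2 hc
    rw [hi] at this
    exact hx1 this
  obtain ⟨g, hg⟩ := isConj_iff.1 hci
  have hinv : i⁻¹ = i ^ 3 := by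
    rw [inv_eq_iff_mul_eq_one, ← pow_succ', hi4]
  obtain ⟨j, hj, hji⟩ : ∃ j : G, j * j = x ∧ j * i * j⁻¹ = i⁻¹ := by
    rcases InvL_main h1 hu g 3 (hg.trans hinv) with h2 | ⟨-, h2⟩
    · exact absurd (h2.symm.trans hg) hii
    · exact h2
  obtain ⟨K₂, h2, hcj⟩ := hdata j hj
  have hk : (i * j) * (i * j) = x := by
    have : (i * j) * (i * j) = i * (j * i * j⁻¹) * (j * j) := by group
    rw [this, hji, mul_inv_cancel, one_mul, hj]
  obtain ⟨K₃, h3, hck⟩ := hdata (i * j) hk
  have hki : (i * j) * i * (i * j)⁻¹ = i⁻¹ := by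
    have : (i * j) * i * (i * j)⁻¹ = i * (j * i * j⁻¹) * i⁻¹ := by group
    rw [this, hji]
    group
  by_cases hc1 : IsConj i j
  · by_cases hc2 : IsConj i (i * j)
    · exact CaseIV_main h hB h1 hj hji hc1 hc2
    · exact CaseIII_main h hB h1 h3 hki hc2
  · exact CaseIII_main h hB h1 h2 hji hc1

theorem Fin_ZS (G : Type) [Group G] [Finite G] (x : G) (hx : Isol x) : ZS x :=
  Start_main (fun G _ _ x => Fin_noMin G x) G x hx

/-- Induction on the order of `G`. -/
private theorem Fin_aux (N : ℕ) : ∀ (G : Type) [Group G] [Finite G], Nat.card G = N →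
    OddFree G → ∀ x : G, (∃ m : ℕ, x ^ 2 ^ m = 1) →
    (∀ (k : ℕ) (g : G) (T : Subgroup G), IsPGroup 2 T → x ^ k ∈ T → g * x ^ k * g⁻¹ ∈ T →
      g * x ^ k * g⁻¹ = x ^ k) → ∀ g, x * g = g * x := by
  induction N using Nat.strong_induction_on with
  | _ N ih =>
    intro G _ _ hG hO x hx iso
    classical
    by_cases hx1 : x = 1
    · intro g
      rw [hx1, one_mul, mul_one]
    -- the involution `t`
    obtain ⟨m, hm, hmin⟩ : ∃ m : ℕ, x ^ 2 ^ m = 1 ∧ ∀ j < m, x ^ 2 ^ j ≠ 1 :=
      ⟨Nat.find hx, Nat.find_spec hx, fun j hj => Nat.find_min hx hj⟩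
    have hm0 : m ≠ 0 := by
      rintro rfl
      rw [pow_zero, pow_one] at hm
      exact hx1 hm
    obtain ⟨l, rfl⟩ := Nat.exists_eq_succ_of_ne_zero hm0
    set t : G := x ^ 2 ^ l with ht
    have ht1 : t ≠ 1 := hmin l (Nat.lt_succ_self l)
    have htt : t * t = 1 := by
      rw [ht, ← pow_add, ← two_mul, ← pow_succ']
      exact hm
    have hisol : Isol t := Base_of htt fun g T hT h1 h2 => iso _ g T hT h1 h2
    obtain ⟨M, hM1, hM2, hM3⟩ := Fin_ZS G t hisol
    have hMb : M = ⊥ := hO M hM1 hM2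
    have htc : ∀ g, t * g = g * t := by
      intro g
      have h1 := hM3 g
      rw [hMb, Subgroup.mem_bot] at h1
      have h2 : t * g = (t * g * t⁻¹ * g⁻¹) * (g * t) := by group
      rw [h2, h1, one_mul]
    have hcen : t ∈ Subgroup.center G := Subgroup.mem_center_iff.2 fun g => (htc g).symm
    have hle : Subgroup.zpowers t ≤ Subgroup.center G := (Subgroup.zpowers_le).2 hcen
    have hnorm : (Subgroup.zpowers t).Normal := by
      refine ⟨fun n hn g => ?_⟩
      have h1 : g * n = n * g := (Subgroup.mem_center_iff.1 (hle hn)) g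
      rw [h1, mul_assoc, mul_inv_cancel, mul_one]
      exact hn
    have hlt : Nat.card (G ⧸ Subgroup.zpowers t) < N := by
      have h1 : Nat.card G = Nat.card (G ⧸ Subgroup.zpowers t) * Nat.card (Subgroup.zpowers t) :=
        Subgroup.card_eq_card_quotient_mul_card_subgroup _
      have h2 : 1 < Nat.card (Subgroup.zpowers t) := by
        rw [Subgroup.one_lt_card_iff_ne_bot]
        intro h3
        exact ht1 (Subgroup.zpowers_eq_bot.1 h3)
      have h3 : 0 < Nat.card (G ⧸ Subgroup.zpowers t) := Nat.card_pos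
      rw [← hG, h1]
      exact lt_mul_of_one_lt_right h3 h2
    have hO' : OddFree (G ⧸ Subgroup.zpowers t) := Cen_quo hO t htt htc
    have htp : IsPGroup 2 (Subgroup.zpowers t) := by
      rintro ⟨g, hg⟩
      obtain ⟨k, rfl⟩ := Subgroup.mem_zpowers_iff.1 hg
      refine ⟨1, Subtype.ext ?_⟩
      change (t ^ k) ^ 2 ^ 1 = 1
      rw [pow_one, pow_two, ← zpow_add, ← two_mul, zpow_mul, zpow_two, htt, one_zpow]
    have hxp : IsPGroup 2 (Subgroup.zpowers x) := by
      rintro ⟨g, hg⟩
      obtain ⟨k, rfl⟩ := Subgroup.mem_zpowers_iff.1 hg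
      refine ⟨l + 1, Subtype.ext ?_⟩
      change (x ^ k) ^ 2 ^ (l + 1) = 1
      rw [← zpow_natCast, ← zpow_mul, mul_comm, zpow_mul, zpow_natCast, hm, one_zpow]
    have key := ih _ hlt (G ⧸ Subgroup.zpowers t) rfl hO' (QuotientGroup.mk' _ x)
      ⟨l + 1, by rw [← map_pow, hm, map_one]⟩ (by
        intro k g' T' hT' h1 h2
        obtain ⟨g, rfl⟩ := QuotientGroup.mk'_surjective _ g'
        have hT : IsPGroup 2 (T'.comap (QuotientGroup.mk' (Subgroup.zpowers t))) := by
          refine hT'.comap_of_ker_isPGroup _ ?_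
          rw [QuotientGroup.ker_mk']
          exact htp
        have h3 := iso k g _ hT (by
          rw [Subgroup.mem_comap, map_pow]
          exact h1) (by
          rw [Subgroup.mem_comap, map_mul, map_mul, map_pow, map_inv]
          exact h2)
        rw [← map_pow, ← map_inv, ← map_mul, ← map_mul, h3])
    intro g
    have h1 := key (QuotientGroup.mk' _ g)
    have h2 : x⁻¹ * (g * x * g⁻¹) ∈ Subgroup.zpowers t := by
      rw [← QuotientGroup.ker_mk' (Subgroup.zpowers t), MonoidHom.mem_ker]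
      simp only [map_mul, map_inv]
      rw [← h1]
      group
    have h3 : Subgroup.zpowers t ≤ Subgroup.zpowers x :=
      Subgroup.zpowers_le.2 (Subgroup.npow_mem_zpowers x _)
    have h4 : g * x * g⁻¹ ∈ Subgroup.zpowers x := by
      have h5 := (Subgroup.zpowers x).mul_mem (Subgroup.mem_zpowers x) (h3 h2)
      rwa [mul_inv_cancel_left] at h5
    have h5 := iso 1 g _ hxp (by rw [pow_one]; exact Subgroup.mem_zpowers x) (by
      rw [pow_one]; exact h4)
    rw [pow_one] at h5
    calc x * g = (g * x * g⁻¹) * g := by rw [h5]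
      _ = g * x := by group

/-- `2`-elements all of whose powers are isolated are central if there is no nontrivial normal
subgroup of odd order. -/
theorem Fin_main (G : Type) [Group G] [Finite G] (hO : OddFree G) (x : G)
    (hx : ∃ m : ℕ, x ^ 2 ^ m = 1)
    (iso : ∀ (k : ℕ) (g : G) (T : Subgroup G), IsPGroup 2 T → x ^ k ∈ T → g * x ^ k * g⁻¹ ∈ T →
      g * x ^ k * g⁻¹ = x ^ k) : ∀ g, x * g = g * x :=
  Fin_aux _ G rfl hO x hx iso

end Pool.Agent.Zst
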