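import Pool.Agent.Zst.InvL

/-! Centralizers of the elements of order at least four of the cyclic group. -/

namespace Pool.Agent.Zst

open Pool.Agent.KB

/-- `y` is a power of every element of order at least four. -/
theorem Fus_pow {G : Type} [Group G] [Finite G] {x a : G} {n : ℕ} {K : Subgroup G}
    (hC : Cyc G x a n K) (s : ℕ) (hs : a ^ (2 * s) ≠ 1) :
    ∃ j : ℕ, a ^ 2 ^ (n - 2) = (a ^ s) ^ j := by
  have h2 := hC.two
  have hs0 : s ≠ 0 := by
    rintro rfl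
    exact hs (by simp)
  obtain ⟨e, m, hm, hsm⟩ := Nat.exists_eq_two_pow_mul_odd hs0
  have he : e ≤ n - 2 := by
    by_contra hcon
    apply hs
    apply orderOf_dvd_iff_pow_eq_one.1
    rw [hC.ord, hsm, ← mul_assoc, ← pow_succ']
    exact Dvd.dvd.mul_right (pow_dvd_pow _ (by omega)) _
  have hcop : Nat.Coprime m (2 ^ n) := (Nat.coprime_two_right.2 hm).pow_right n
  have hk : 1 < 2 ^ n := Nat.one_lt_two_pow (by omega)
  obtain ⟨m', -, hm'⟩ := Nat.exists_mul_mod_eq_one_of_coprime hcop hk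
  refine ⟨m' * 2 ^ (n - 2 - e), ?_⟩
  rw [← pow_mul]
  have h3 : s * (m' * 2 ^ (n - 2 - e)) = 2 ^ (n - 2) * (m * m') := by
    have h4 : 2 ^ (n - 2) = 2 ^ e * 2 ^ (n - 2 - e) := by rw [← pow_add]; congr 1; omega
    rw [hsm, h4]; ring
  rw [h3, ← Nat.div_add_mod (m * m') (2 ^ n), hm', mul_add, mul_one, pow_add]
  have h5 : a ^ (2 ^ (n - 2) * (2 ^ n * (m * m' / 2 ^ n))) = 1 := by
    rw [mul_left_comm, pow_mul, ← hC.ord, pow_orderOf_eq_one, one_pow]
  rw [h5, one_mul]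

/-- The centralizer of `a ^ s`. -/
theorem Fus_cen {G : Type} [Group G] [Finite G] {x a : G} {n : ℕ} {K : Subgroup G}
    (hC : Cyc G x a n K) (s : ℕ) (hs : a ^ (2 * s) ≠ 1) :
    ∃ K' : Subgroup G, K' ≤ K ∧ Odd (Nat.card K') ∧ (∀ k ∈ K', a ^ s * k = k * a ^ s) ∧
      (∀ c : G, a ^ s * c = c * a ^ s → ∀ k ∈ K', c * k * c⁻¹ ∈ K') ∧
      (∀ c : G, a ^ s * c = c * a ^ s → ∃ k ∈ K', ∃ i : ℕ, c = k * a ^ i) ∧
      Nat.card {c : G // a ^ s * c = c * a ^ s} = 2 ^ n * Nat.card K' := by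
  obtain ⟨j, hj⟩ := Fus_pow hC s hs
  have hy : ∀ c : G, a ^ s * c = c * a ^ s → a ^ 2 ^ (n - 2) * c = c * a ^ 2 ^ (n - 2) := by
    intro c hc
    rw [hj]
    exact (Commute.pow_left hc j : Commute ((a ^ s) ^ j) c)
  have hmem : ∀ k : G, k ∈ K ⊓ Subgroup.centralizer {a ^ s} ↔ k ∈ K ∧ a ^ s * k = k * a ^ s := by
    intro k
    rw [Subgroup.mem_inf, Subgroup.mem_centralizer_singleton_iff]
    exact ⟨fun h => ⟨h.1, h.2.symm⟩, fun h => ⟨h.1, h.2.symm⟩⟩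
  have hdec : ∀ c : G, a ^ s * c = c * a ^ s →
      ∃ k ∈ K ⊓ Subgroup.centralizer {a ^ s}, ∃ i : ℕ, c = k * a ^ i := by
    intro c hc
    obtain ⟨k, hk, i, rfl⟩ := hC.dec c (hy c hc)
    refine ⟨k, (hmem k).2 ⟨hk, ?_⟩, i, rfl⟩
    have h1 : a ^ s * (k * a ^ i) = (k * a ^ s) * a ^ i := by
      rw [hc, mul_assoc, mul_assoc, ← pow_add, ← pow_add, add_comm]
    rw [← mul_assoc] at h1
    exact mul_right_cancel h1
  refine ⟨K ⊓ Subgroup.centralizer {a ^ s}, inf_le_left, ?_, fun k hk => ((hmem k).1 hk).2, ?_,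
    hdec, ?_⟩
  · exact Odd.of_dvd_nat hC.odd (Subgroup.card_dvd_of_le inf_le_left)
  · intro c hc k hk
    obtain ⟨hk1, hk2⟩ := (hmem k).1 hk
    refine (hmem _).2 ⟨hC.nor c (hy c hc) k hk1, ?_⟩
    have h1 : Commute (a ^ s) c := hc
    have h2 : Commute (a ^ s) k := hk2
    exact (h1.mul_right h2).mul_right h1.inv_right
  · -- the bijection
    have hpos : 0 < 2 ^ n := by positivity
    let f : Fin (2 ^ n) × (K ⊓ Subgroup.centralizer {a ^ s} : Subgroup G) →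
        {c : G // a ^ s * c = c * a ^ s} := fun q => ⟨(q.2 : G) * a ^ (q.1 : ℕ), by
      have h1 : Commute (a ^ s) (q.2 : G) := ((hmem _).1 q.2.2).2
      have h2 : Commute (a ^ s) (a ^ (q.1 : ℕ)) := Commute.pow_pow_self a _ _
      exact h1.mul_right h2⟩
    have hf : Function.Bijective f := by
      constructor
      · rintro ⟨i, k⟩ ⟨i', k'⟩ hff
        have h1 : (k : G) * a ^ (i : ℕ) = (k' : G) * a ^ (i' : ℕ) := congrArg Subtype.val hff
        have h2 : (k' : G)⁻¹ * k = a ^ (i' : ℕ) * (a ^ (i : ℕ))⁻¹ := by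
          rw [eq_mul_inv_iff_mul_eq, mul_assoc, h1, inv_mul_cancel_left]
        have h3 : (k' : G)⁻¹ * k ∈ K :=
          K.mul_mem (K.inv_mem ((hmem _).1 k'.2).1) ((hmem _).1 k.2).1
        have h4 : ((k' : G)⁻¹ * k) ^ 2 ^ n = 1 := by
          rw [h2]
          have h5 : Commute (a ^ (i' : ℕ)) (a ^ (i : ℕ))⁻¹ := (Commute.pow_pow_self a _ _).inv_right
          rw [h5.mul_pow, inv_pow, InvL_pow hC, InvL_pow hC, inv_one, one_mul]
        have h5 := InvL_K hC h3 h4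
        have h6 : (k : G) = k' := (inv_mul_eq_one.1 h5).symm
        rw [h6] at h1
        have h7 := mul_left_cancel h1
        have h8 : (i : ℕ) = i' := by
          have h9 := (pow_inj_mod (x := a) (n := i) (m := i')).1 h7
          rw [hC.ord, Nat.mod_eq_of_lt i.2, Nat.mod_eq_of_lt i'.2] at h9
          exact h9
        exact Prod.ext (Fin.ext h8) (Subtype.ext h6)
      · rintro ⟨c, hc⟩
        obtain ⟨k, hk, i, rfl⟩ := hdec c hc
        refine ⟨(⟨i % 2 ^ n, Nat.mod_lt _ hpos⟩, ⟨k, hk⟩), Subtype.ext ?_⟩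
        change k * a ^ (i % 2 ^ n) = k * a ^ i
        rw [← hC.ord, pow_mod_orderOf]
    rw [← Nat.card_congr (Equiv.ofBijective f hf), Nat.card_prod, Nat.card_fin]

theorem Fus_two {G : Type} [Group G] [Finite G] {x a : G} {n : ℕ} {K : Subgroup G}
    (hC : Cyc G x a n K) (s : ℕ) : ∃ m : ℕ, (a ^ s) ^ 2 ^ m = 1 := ⟨n, InvL_pow hC s⟩

/-- The norm of the column of `a ^ s`. -/
theorem Fus_val {G : Type} [Group G] [Finite G] {x a : G} {n : ℕ} {K : Subgroup G}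
    (hC : Cyc G x a n K) {B : Finset (G → ℂ)} (hB : PBlock G B) (s : ℕ) (hs : a ^ (2 * s) ≠ 1) :
    ∑ χ ∈ B, χ (a ^ s) * χ (a ^ s)⁻¹ = 2 ^ n := by
  obtain ⟨K', -, h2, h3, h4, -, h6⟩ := Fus_cen hC s hs
  exact hB.norm (a ^ s) K' n (Fus_two hC s) h2 h3 h4 h6

end Pool.Agent.Zst
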