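import Pool.Agent.Zst.FusA

/-! Fusion of the elements of order at least four of the cyclic group. -/

namespace Pool.Agent.Zst

open Pool.Agent.KB

/-- Conjugate elements of order at least four of `⟨a⟩` are equal or inverse. -/
theorem Fus_main {G : Type} [Group G] [Finite G] {x a : G} {n : ℕ} {K : Subgroup G}
    (hC : Cyc G x a n K) (hu : ∀ u : G, u * u = 1 → x * u = u * x → u = 1 ∨ u = x) (s t : ℕ)
    (hs : a ^ (2 * s) ≠ 1) (h : IsConj (a ^ s) (a ^ t)) :
    a ^ t = a ^ s ∨ (a ^ t = (a ^ s)⁻¹ ∧ IsConj a a⁻¹) := by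
  obtain ⟨g, hg⟩ := isConj_iff.1 h
  have ht : a ^ (2 * t) ≠ 1 := by
    intro h1
    apply hs
    have h2 : g * a ^ (2 * s) * g⁻¹ = 1 := by
      rw [mul_comm 2 s, pow_mul, ← conj_pow, hg, ← pow_mul, mul_comm t 2, h1]
    have h3 : a ^ (2 * s) = g⁻¹ * (g * a ^ (2 * s) * g⁻¹) * g := by group
    rw [h3, h2]; group
  obtain ⟨K', hK1, hK2, hK3, hK4, hK5, hK6⟩ := Fus_cen hC t ht
  set C' : Subgroup G := Subgroup.centralizer {a ^ t} with hC'
  have hmem : ∀ c : G, c ∈ C' ↔ a ^ t * c = c * a ^ t := by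
    intro c
    rw [hC', Subgroup.mem_centralizer_singleton_iff]
    exact ⟨fun h => h.symm, fun h => h.symm⟩
  have hcard : Nat.card C' = 2 ^ n * Nat.card K' := by
    rw [← hK6]
    exact Nat.card_congr (Equiv.subtypeEquivRight hmem)
  -- the two cyclic subgroups
  have hsyl : ∀ b : C', orderOf (b : G) = 2 ^ n →
      ∃ P : Sylow 2 C', (P : Subgroup C') = Subgroup.zpowers b := by
    intro b hb
    have hb' : orderOf b = 2 ^ n := by rw [← Subgroup.orderOf_coe, hb]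
    have h1 : IsPGroup 2 (Subgroup.zpowers b) :=
      IsPGroup.of_card (n := n) (by rw [Nat.card_zpowers, hb'])
    have h2 : ¬ 2 ∣ (Subgroup.zpowers b).index := by
      have h3 := (Subgroup.zpowers b).card_mul_index
      rw [Nat.card_zpowers, hb', hcard] at h3
      have h4 := Nat.eq_of_mul_eq_mul_left (by positivity) h3
      rw [h4, ← even_iff_two_dvd, Nat.not_even_iff_odd]
      exact hK2
    exact ⟨h1.toSylow h2, rfl⟩
  have haC : a ∈ C' := (hmem a).2 (pow_mul_comm' a t)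
  have hgaC : g * a * g⁻¹ ∈ C' := by
    rw [hmem, ← hg]
    have h1 : g * a ^ s * g⁻¹ * (g * a * g⁻¹) = g * (a ^ s * a) * g⁻¹ := by group
    have h2 : g * a * g⁻¹ * (g * a ^ s * g⁻¹) = g * (a * a ^ s) * g⁻¹ := by group
    rw [h1, h2, pow_mul_comm' a s]
  obtain ⟨P, hP⟩ := hsyl ⟨a, haC⟩ hC.ord
  obtain ⟨P', hP'⟩ := hsyl ⟨g * a * g⁻¹, hgaC⟩ (by
    change orderOf (g * a * g⁻¹) = 2 ^ n
    rw [← hC.ord]
    exact orderOf_injective (MulAut.conj g).toMonoidHom (MulAut.conj g).injective a)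
  obtain ⟨c, hc⟩ := MulAction.exists_smul_eq C' P' P
  have h1 : c * ⟨g * a * g⁻¹, hgaC⟩ * c⁻¹ ∈ (P : Subgroup C') := by
    rw [← hc]
    refine Subgroup.smul_mem_pointwise_smul _ (MulAut.conj c) (P' : Subgroup C') ?_
    rw [hP']
    exact Subgroup.mem_zpowers _
  rw [hP] at h1
  obtain ⟨r, hr⟩ := mem_powers_iff_mem_zpowers.2 h1
  have hr' : a ^ r = ((c : G) * g) * a * ((c : G) * g)⁻¹ := by
    have h2 := congrArg (fun z : C' => (z : G)) hr
    have h3 : ((c : G) * g) * a * ((c : G) * g)⁻¹ = (c : G) * (g * a * g⁻¹) * (c : G)⁻¹ := by group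
    rw [h3]
    exact h2
  have hcc : (c : G) * a ^ t * (c : G)⁻¹ = a ^ t := by
    have h2 := (hmem _).1 c.2
    rw [← h2]; group
  have hks : ((c : G) * g) * a ^ s * ((c : G) * g)⁻¹ = a ^ t := by
    have h3 : ((c : G) * g) * a ^ s * ((c : G) * g)⁻¹ = (c : G) * (g * a ^ s * g⁻¹) * (c : G)⁻¹ := by
      group
    rw [h3, hg, hcc]
  rw [← conj_pow] at hks
  rcases InvL_main hC hu ((c : G) * g) r hr'.symm with h2 | ⟨h2, -⟩
  · left
    rw [← hks, h2]
  · right
    refine ⟨by rw [← hks, h2, inv_pow], isConj_iff.2 ⟨_, h2⟩⟩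

end Pool.Agent.Zst
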