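import Pool.Agent.Zst.Base

/-! The automizer of the cyclic group `⟨a⟩`. -/

namespace Pool.Agent.Zst

open Pool.Agent.KB

variable {G : Type} [Group G] [Finite G] {x a : G} {n : ℕ} {K : Subgroup G}

/-- elements of `K` of `2`-power order are trivial -/
theorem InvL_K (hC : Cyc G x a n K) {k : G} (hk : k ∈ K) {m : ℕ} (hm : k ^ 2 ^ m = 1) : k = 1 := by
  have h1 : orderOf k ∣ 2 ^ m := orderOf_dvd_of_pow_eq_one hm
  have h2 : orderOf k ∣ Nat.card K := Subgroup.orderOf_dvd_natCard K hk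
  have h3 : Nat.Coprime (Nat.card K) (2 ^ m) := (Nat.coprime_two_right.2 hC.odd).pow_right m
  have h4 : orderOf k = 1 := Nat.eq_one_of_dvd_coprimes h3 h2 h1
  exact orderOf_eq_one_iff.1 h4

/-- powers of `a` have `2`-power order -/
theorem InvL_pow (hC : Cyc G x a n K) (i : ℕ) : (a ^ i) ^ 2 ^ n = 1 := by
  rw [← pow_mul, mul_comm, pow_mul, ← hC.ord, pow_orderOf_eq_one, one_pow]

/-- `g * y * g⁻¹ = y` says that `g` commutes with `y`, so `g = k * a ^ i`. -/
theorem InvL_fix (hC : Cyc G x a n K) (g : G) (t : ℕ) (hg : g * a * g⁻¹ = a ^ t)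
    (hy : a ^ 2 ^ (n - 2) * g = g * a ^ 2 ^ (n - 2)) : g * a * g⁻¹ = a := by
  obtain ⟨k, hk, i, rfl⟩ := hC.dec g hy
  have h1 : k * a ^ i * a * (k * a ^ i)⁻¹ = k * a * k⁻¹ := by group
  rw [h1] at hg ⊢
  have hac : a ^ 2 ^ (n - 2) * a = a * a ^ 2 ^ (n - 2) := (pow_mul_comm' a _)
  have h2 : k * a * k⁻¹ * a⁻¹ ∈ K := by
    have h3 := hC.nor a hac k⁻¹ (K.inv_mem hk)
    have h4 : k * a * k⁻¹ * a⁻¹ = k * (a * k⁻¹ * a⁻¹) := by group
    rw [h4]
    exact K.mul_mem hk h3
  have h3 : (k * a * k⁻¹ * a⁻¹) ^ 2 ^ n = 1 := by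
    rw [hg]
    have h4 : Commute (a ^ t) a⁻¹ := ((Commute.refl a).pow_left t).inv_right
    rw [h4.mul_pow, InvL_pow hC, inv_pow, ← hC.ord, pow_orderOf_eq_one, inv_one, one_mul]
  have h4 := InvL_K hC h2 h3
  rwa [mul_inv_eq_one] at h4

/-- order of `y` -/
theorem InvL_y (hC : Cyc G x a n K) (hx1 : x ≠ 1) :
    a ^ 2 ^ (n - 2) * a ^ 2 ^ (n - 2) = x ∧ x * x = 1 ∧ orderOf (a ^ 2 ^ (n - 2)) = 4 := by
  have h2 := hC.two
  have h3 : a ^ 2 ^ (n - 2) * a ^ 2 ^ (n - 2) = x := by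
    rw [← pow_add, ← two_mul, ← pow_succ', show n - 2 + 1 = n - 1 by omega, hC.inv]
  have h4 : x * x = 1 := by
    rw [← hC.inv, ← pow_add, ← two_mul, ← pow_succ', show n - 1 + 1 = n by omega, ← hC.ord,
      pow_orderOf_eq_one]
  refine ⟨h3, h4, ?_⟩
  have h5 : orderOf (a ^ 2 ^ (n - 2)) = 2 ^ 2 := by
    apply orderOf_eq_prime_pow
    · rw [pow_one, pow_two, h3]
      exact hx1
    · rw [show 2 ^ (1 + 1) = 2 + 2 by norm_num, pow_add, pow_two, h3, h4]
  rw [h5]
  norm_num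

/-- The automizer of `⟨a⟩` has order at most two. -/
theorem InvL_main (hC : Cyc G x a n K)
    (hu : ∀ u : G, u * u = 1 → x * u = u * x → u = 1 ∨ u = x) (g : G) (t : ℕ)
    (hg : g * a * g⁻¹ = a ^ t) :
    g * a * g⁻¹ = a ∨ (g * a * g⁻¹ = a⁻¹ ∧ ∃ w : G, w * w = x ∧ w * a * w⁻¹ = a⁻¹) := by
  have h2 := hC.two
  have hx1 : x ≠ 1 := by
    rw [← hC.inv]
    intro h
    have h3 := orderOf_dvd_of_pow_eq_one h
    rw [hC.ord] at h3
    have h4 := (Nat.pow_dvd_pow_iff_le_right (by norm_num : 1 < 2)).1 h3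
    omega
  obtain ⟨hyy, hxx, hyo⟩ := InvL_y hC hx1
  set y := a ^ 2 ^ (n - 2) with hy
  have hcy : ∀ s : ℕ, y ^ s = (a ^ s) ^ 2 ^ (n - 2) := by
    intro s
    rw [hy, ← pow_mul, ← pow_mul, mul_comm]
  have hgy : g * y * g⁻¹ = y ^ t := by
    rw [hcy, ← hg, conj_pow]
  -- `t` is odd
  have htodd : t % 4 = 1 ∨ t % 4 = 3 := by
    have h3 : orderOf (y ^ t) = 4 := by
      rw [← hgy, ← hyo]
      exact orderOf_injective (MulAut.conj g).toMonoidHom (MulAut.conj g).injective _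
    rw [orderOf_pow, hyo] at h3
    have h4 : Nat.gcd 4 t = 1 := by
      have h5 : Nat.gcd 4 t ∣ 4 := Nat.gcd_dvd_left 4 t
      obtain ⟨c, hc⟩ := h5
      have h6 : 0 < Nat.gcd 4 t := Nat.gcd_pos_of_pos_left _ (by norm_num)
      have h7 : 4 / Nat.gcd 4 t = c := Nat.div_eq_of_eq_mul_right h6 hc
      rw [h7] at h3
      nlinarith
    have h5 : ¬ 2 ∣ t := by
      intro h6
      have : 2 ∣ Nat.gcd 4 t := Nat.dvd_gcd (by norm_num) h6
      rw [h4] at this
      norm_num at this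
    omega
  have hymod : ∀ s : ℕ, y ^ s = y ^ (s % 4) := by
    intro s
    rw [← hyo, pow_mod_orderOf]
  rcases htodd with ht | ht
  · left
    refine InvL_fix hC g t hg ?_
    rw [← hy]
    have h3 : g * y * g⁻¹ = y := by rw [hgy, hymod, ht, pow_one]
    calc y * g = (g * y * g⁻¹) * g := by rw [h3]
      _ = g * y := by group
  · -- inversion
    have hyinv : y⁻¹ = y ^ 3 := by
      rw [inv_eq_iff_mul_eq_one, ← pow_succ']
      have := pow_orderOf_eq_one y
      rwa [hyo] at this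
    have hyne : y ≠ y⁻¹ := by
      intro h
      have h3 : y * y = 1 := mul_eq_one_iff_eq_inv.2 h
      rw [hyy] at h3
      exact hx1 h3
    have hgi : g * y * g⁻¹ = y⁻¹ := by rw [hgy, hymod, ht, hyinv]
    have hgi' : g * y = y⁻¹ * g := by
      calc g * y = (g * y * g⁻¹) * g := by group
        _ = y⁻¹ * g := by rw [hgi]
    -- the two-part of `g`
    obtain ⟨m, hm, r, hr⟩ : ∃ m : ℕ, m % 2 = 1 ∧ ∃ r : ℕ, (g ^ m) ^ 2 ^ r = 1 := by
      obtain ⟨r, m, hm, hrm⟩ := Nat.exists_eq_two_pow_mul_odd (orderOf_pos g).ne'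
      refine ⟨m, Nat.odd_iff.1 hm, r, ?_⟩
      rw [← pow_mul, mul_comm, ← hrm, pow_orderOf_eq_one]
    set w := g ^ m with hw
    -- `w` inverts `y`
    have hgg : (g ^ 2) * y = y * g ^ 2 := by
      rw [pow_two, mul_assoc, hgi', ← mul_assoc]
      have h3 : g * y⁻¹ = y * g := by
        have h4 : (g * y * g⁻¹)⁻¹ = y := by rw [hgi, inv_inv]
        have h5 : (g * y * g⁻¹)⁻¹ = g * y⁻¹ * g⁻¹ := by group
        rw [h5] at h4
        calc g * y⁻¹ = (g * y⁻¹ * g⁻¹) * g := by group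
          _ = y * g := by rw [h4]
      rw [h3, mul_assoc]
    have hwy : w * y * w⁻¹ = y⁻¹ := by
      obtain ⟨q, hq⟩ : ∃ q, m = 2 * q + 1 := ⟨m / 2, by omega⟩
      have h3 : Commute (g ^ 2) y := hgg
      have h4 : w = (g ^ 2) ^ q * g := by rw [hw, hq, pow_succ, pow_mul]
      have h5 : (g ^ 2) ^ q * y⁻¹ = y⁻¹ * (g ^ 2) ^ q := (h3.pow_left q).inv_right.eq
      rw [h4]
      calc (g ^ 2) ^ q * g * y * ((g ^ 2) ^ q * g)⁻¹
          = (g ^ 2) ^ q * (g * y * g⁻¹) * ((g ^ 2) ^ q)⁻¹ := by group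
        _ = (g ^ 2) ^ q * y⁻¹ * ((g ^ 2) ^ q)⁻¹ := by rw [hgi]
        _ = y⁻¹ := by rw [h5, mul_inv_cancel_right]
    -- powers of `g` normalize
    have hpow : ∀ s : ℕ, ∃ t' : ℕ, g ^ s * a * (g ^ s)⁻¹ = a ^ t' := by
      intro s
      induction s with
      | zero => exact ⟨1, by simp⟩
      | succ s ih =>
        obtain ⟨t', ht'⟩ := ih
        refine ⟨t * t', ?_⟩
        have h3 : g ^ (s + 1) * a * (g ^ (s + 1))⁻¹ = g * (g ^ s * a * (g ^ s)⁻¹) * g⁻¹ := by
          rw [pow_succ']; group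
        rw [h3, ht', ← conj_pow, hg, ← pow_mul]
    have hinvn : ∀ s : ℕ, ∃ t' : ℕ, (g ^ s)⁻¹ * a * g ^ s = a ^ t' := by
      intro s
      obtain ⟨t', ht'⟩ := hpow (s * (orderOf g - 1))
      refine ⟨t', ?_⟩
      have h3 : (g ^ s)⁻¹ = g ^ (s * (orderOf g - 1)) := by
        rw [inv_eq_iff_mul_eq_one, ← pow_add]
        have h4 : s + s * (orderOf g - 1) = orderOf g * s := by
          have := orderOf_pos g
          obtain ⟨o, ho⟩ : ∃ o, orderOf g = o + 1 := ⟨orderOf g - 1, by omega⟩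
          rw [ho, Nat.add_sub_cancel]
          ring
        rw [h4, pow_mul, pow_orderOf_eq_one, one_pow]
      have h5 : g ^ s = (g ^ (s * (orderOf g - 1)))⁻¹ := by rw [← h3, inv_inv]
      rw [h3]
      conv_lhs => rw [h5]
      rw [← h3] at ht' ⊢
      rw [inv_inv] at ht' ⊢
      exact ht'
    have hwa : w * a * w⁻¹ = a ^ t := by
      obtain ⟨q, hq⟩ : ∃ q, m = q + 1 := ⟨m - 1, by omega⟩
      have hcom : a ^ 2 ^ (n - 2) * g ^ q = g ^ q * a ^ 2 ^ (n - 2) := by
        rw [← hy]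
        obtain ⟨q', hq'⟩ : ∃ q', q = 2 * q' := ⟨q / 2, by omega⟩
        rw [hq', pow_mul]
        have h3 : Commute (g ^ 2) y := hgg
        exact (h3.pow_left q').eq.symm
      obtain ⟨t', ht'⟩ := hpow q
      have h3 := InvL_fix hC (g ^ q) t' ht' hcom
      have h4 : w * a * w⁻¹ = g * (g ^ q * a * (g ^ q)⁻¹) * g⁻¹ := by
        rw [hw, hq, pow_succ']; group
      rw [h4, h3, hg]
    -- `w * w` commutes with `a`
    have hwwy : a ^ 2 ^ (n - 2) * (w * w) = (w * w) * a ^ 2 ^ (n - 2) := by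
      rw [← hy]
      have h3 : Commute (g ^ 2) y := hgg
      have h4 : w * w = (g ^ 2) ^ m := by rw [hw, ← pow_add, ← two_mul, pow_mul]
      rw [h4]
      exact (h3.pow_left m).eq.symm
    have hwwa : (w * w) * a * (w * w)⁻¹ = a := by
      have h4 : w * w = g ^ (m + m) := by rw [hw, ← pow_add]
      obtain ⟨t', ht'⟩ := hpow (m + m)
      rw [← h4] at ht'
      exact InvL_fix hC (w * w) t' ht' hwwy
    have hwwa' : Commute (w * w) a := by
      show w * w * a = a * (w * w)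
      calc w * w * a = ((w * w) * a * (w * w)⁻¹) * (w * w) := by group
        _ = a * (w * w) := by rw [hwwa]
    -- `w * w` is a power of `a`
    obtain ⟨i, hi⟩ : ∃ i : ℕ, w * w = a ^ i := by
      obtain ⟨k, hk, i, hki⟩ := hC.dec (w * w) hwwy
      refine ⟨i, ?_⟩
      have hkk : k = (w * w) * (a ^ i)⁻¹ := by rw [hki]; group
      have hk2 : k ^ 2 ^ (r + n) = 1 := by
        have h3 : Commute (w * w) (a ^ i)⁻¹ := (hwwa'.pow_right i).inv_right
        rw [hkk, h3.mul_pow]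
        have h4 : (w * w) ^ 2 ^ (r + n) = 1 := by
          rw [← pow_two, ← pow_mul, mul_comm, pow_mul, pow_add, pow_mul, hr, one_pow, one_pow]
        have h5 : ((a ^ i)⁻¹) ^ 2 ^ (r + n) = 1 := by
          rw [inv_pow, add_comm, pow_add, pow_mul, InvL_pow hC, one_pow, inv_one]
        rw [h4, h5, one_mul]
      have hk1 := InvL_K hC hk hk2
      rw [hki, hk1, one_mul]
    have h4x : ∀ s : ℕ, a ^ (2 * s) = 1 → a ^ s = 1 ∨ a ^ s = x := by
      intro s hs
      refine hu _ ?_ ?_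
      · rw [← pow_add, ← two_mul, hs]
      · rw [← hC.inv]; exact pow_mul_comm a _ _
    have h8 : ∀ s : ℕ, a ^ (s * (t - 1)) = 1 → a ^ (2 * s) = 1 := by
      intro s hs
      have h9 : orderOf a ∣ s * (t - 1) := orderOf_dvd_of_pow_eq_one hs
      rw [hC.ord] at h9
      apply orderOf_dvd_iff_pow_eq_one.1
      rw [hC.ord]
      obtain ⟨q, hq, hq2⟩ : ∃ q, t - 1 = 2 * q ∧ Nat.Coprime 2 q :=
        ⟨(t - 1) / 2, by omega, by rw [Nat.coprime_two_left, Nat.odd_iff]; omega⟩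
      rw [hq, ← mul_assoc, mul_comm s 2] at h9
      exact (Nat.Coprime.pow_left n hq2).dvd_of_dvd_mul_right h9
    have hone : a ^ (t - 1) * a = a ^ t := by rw [← pow_succ]; congr 1; omega
    -- `w * w ∈ {1, x}`
    have hi2 : a ^ (2 * i) = 1 := by
      apply h8
      have h9 : w * (w * w) * w⁻¹ = w * w := by group
      rw [hi, ← conj_pow, hwa, ← pow_mul] at h9
      have h10 : a ^ (i * (t - 1)) * a ^ i = a ^ i := by
        rw [← pow_add]
        have : i * (t - 1) + i = t * i := by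
          obtain ⟨q, hq⟩ : ∃ q, t = q + 1 := ⟨t - 1, by omega⟩
          rw [hq, Nat.add_sub_cancel]; ring
        rw [this, h9]
      exact mul_eq_right.1 h10
    have hwx : x * w = w * x := by
      have h9 : w * x * w⁻¹ = x := by
        rw [← hyy]
        have h10 : w * (y * y) * w⁻¹ = (w * y * w⁻¹) * (w * y * w⁻¹) := by group
        rw [h10, hwy, ← mul_inv_rev, hyy]
        exact inv_eq_of_mul_eq_one_left hxx
      calc x * w = (w * x * w⁻¹) * w := by rw [h9]
        _ = w * x := by group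
    have hwny : ¬ (w * y = y * w) := by
      intro h9
      have h10 : w * y * w⁻¹ = y := by rw [h9, mul_inv_cancel_right]
      exact hyne (h10.symm.trans hwy)
    have hww : w * w = x := by
      rcases h4x i hi2 with h9 | h9
      · exfalso
        rw [← hi] at h9
        rcases hu w h9 hwx with h10 | h10
        · exact hwny (by rw [h10, one_mul, mul_one])
        · apply hwny
          rw [h10, ← hyy, mul_assoc]
      · rw [hi, h9]
    -- `a ^ (t + 1) ∈ {1, x}`
    have ht1 : a ^ (2 * (t + 1)) = 1 := by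
      apply h8
      have h9 : w * w * a * (w * w)⁻¹ = w * (w * a * w⁻¹) * w⁻¹ := by group
      rw [hwwa, hwa, ← conj_pow, hwa, ← pow_mul] at h9
      have h10 : a ^ ((t + 1) * (t - 1)) * a = a := by
        rw [← pow_succ]
        have : (t + 1) * (t - 1) + 1 = t * t := by
          obtain ⟨q, hq⟩ : ∃ q, t = q + 1 := ⟨t - 1, by omega⟩
          rw [hq, Nat.add_sub_cancel]; ring
        rw [this, ← h9]
      exact mul_eq_right.1 h10
    have hat : a ^ (t + 1) = 1 := by
      rcases h4x _ ht1 with h9 | h9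
      · exact h9
      · exfalso
        have h10 : (a * w) * (a * w) = 1 := by
          have h11 : (a * w) * (a * w) = a * (w * a * w⁻¹) * (w * w) := by group
          rw [h11, hwa, ← pow_succ', h9, hww, hxx]
        have h12 : x * (a * w) = (a * w) * x := by
          have h13 : x * a = a * x := by rw [← hC.inv]; exact pow_mul_comm' a _
          rw [← mul_assoc, h13, mul_assoc, hwx, mul_assoc]
        apply hwny
        have hay : a * y = y * a := by rw [hy]; exact (pow_mul_comm' a _).symm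
        rcases hu _ h10 h12 with h13 | h13
        · have h14 : w = a⁻¹ := eq_inv_of_mul_eq_one_right h13
          rw [h14]
          exact (Commute.inv_left hay : Commute a⁻¹ y)
        · have h14 : w = a⁻¹ * x := eq_inv_mul_of_mul_eq h13
          have h15 : Commute a⁻¹ y := Commute.inv_left hay
          have h16 : Commute x y := by
            rw [← hyy]; exact (Commute.refl y).mul_left (Commute.refl y)
          rw [h14]
          exact (h15.mul_left h16).eq
    have hfin : a ^ t = a⁻¹ := by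
      rw [eq_inv_iff_mul_eq_one, ← pow_succ, hat]
    exact Or.inr ⟨hg.trans hfin, w, hww, hwa.trans hfin⟩

end Pool.Agent.Zst
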