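import Pool.Agent.Zst.Base

/-! Proper subgroups of a minimal counterexample which contain `x`. -/

namespace Pool.Agent.Zst

open Pool.Agent.KB

/-- PROOF. The order of `N ⊔ K` divides `Nat.card N * Nat.card K` (for example
`Subgroup.relIndex_sup_right` and `Subgroup.relIndex_mul_card`, or the second isomorphism
theorem). -/
theorem Norm_sup {H : Type} [Group H] [Finite H] (N K : Subgroup H) (hN : N.Normal)
    (hK : K.Normal) (h1 : Odd (Nat.card N)) (h2 : Odd (Nat.card K)) : Odd (Nat.card (N ⊔ K : Subgroup H)) := by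
  have _ := hN
  have e1 : Nat.card K * K.relIndex (N ⊔ K) = Nat.card (N ⊔ K : Subgroup H) := by
    have h3 := Subgroup.card_mul_index (K.subgroupOf (N ⊔ K))
    rwa [Nat.card_congr (Subgroup.subgroupOfEquivOfLe (le_sup_right : K ≤ N ⊔ K)).toEquiv] at h3
  have e2 : K.relIndex (N ⊔ K) = K.relIndex N := Subgroup.relIndex_sup_right _ _
  rw [← e1, e2]
  exact h2.mul (Odd.of_dvd_nat h1 (Subgroup.relIndex_dvd_card K N))

/-- PROOF. `H` is smaller than `G` and `x` is isolated in `H` (`Base_sub`), so `h.ind` applies to `H`; map the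
subgroup to `G` with `H.subtype`. -/
theorem Norm_prop {G : Type} [Group G] [Finite G] {x : G} (h : Min G x) (H : Subgroup G)
    (hH : H ≠ ⊤) (hx : x ∈ H) : ∃ N : Subgroup G, N ≤ H ∧ (∀ c ∈ H, ∀ n ∈ N, c * n * c⁻¹ ∈ N) ∧
      Odd (Nat.card N) ∧ ∀ c ∈ H, x * c * x⁻¹ * c⁻¹ ∈ N := by
  have hlt : Nat.card H < Nat.card G := by
    refine lt_of_le_of_ne (Subgroup.card_le_card_group H) fun h1 => hH ?_
    exact Subgroup.eq_top_of_card_eq H h1
  obtain ⟨N, hN, hodd, hc⟩ := h.ind H ⟨x, hx⟩ hlt (Base_sub h.isol H hx)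
  refine ⟨N.map H.subtype, Subgroup.map_subtype_le N, ?_, ?_, ?_⟩
  · rintro c hcH _ ⟨n, hn, rfl⟩
    exact ⟨⟨c, hcH⟩ * n * ⟨c, hcH⟩⁻¹, hN.conj_mem n hn _, rfl⟩
  · rwa [Nat.card_congr (N.equivMapOfInjective H.subtype H.subtype_injective).toEquiv.symm]
  · intro c hcH
    exact ⟨_, hc ⟨c, hcH⟩, rfl⟩

/-- PROOF. Suppose `M ≠ ⊤`. Let `N₀` be a subgroup of maximal order among the subgroups of `G`
contained in `M`, normalized by `M` and of odd order (`⊥` is one of them). For `N₁` another such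
subgroup `N₀ ⊔ N₁` is again such a subgroup (`Norm_sup`, applied in the group `M`), so `N₁ ≤ N₀`.
For `g ∈ G` the conjugate `g N₀ g⁻¹` is such a subgroup because `M` is normal, so it is contained in
`N₀`: `N₀` is normal in `G`, so `N₀ = ⊥` by `h.free`. The subgroup `N` of `Norm_prop` is contained
in `N₀`, so `x` commutes with every element of `M`. For `g ∈ G` the conjugate `g * x * g⁻¹` lies in
`M`, so it commutes with `x`, so it equals `x` by `Base_comm`. This contradicts `h.nc`. -/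
theorem Norm_main {G : Type} [Group G] [Finite G] {x : G} (h : Min G x) (M : Subgroup G)
    (hM : M.Normal) (hx : x ∈ M) : M = ⊤ := by
  by_contra hne
  set P : Subgroup G → Prop := fun N => N ≤ M ∧ (∀ c ∈ M, ∀ n ∈ N, c * n * c⁻¹ ∈ N) ∧
    Odd (Nat.card N) with hP
  have hbot : P ⊥ := by
    refine ⟨bot_le, fun c _ n hn => ?_, ?_⟩
    · rw [Subgroup.mem_bot] at hn ⊢
      rw [hn]; group
    · rw [Subgroup.card_bot]; exact odd_one
  obtain ⟨N₀, hN₀, hmax⟩ := Set.exists_max_image {N | P N} (fun N => Nat.card N) (Set.toFinite _)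
    ⟨⊥, hbot⟩
  have hN₀' : P N₀ := hN₀
  have hsup : ∀ N₁, P N₁ → N₁ ≤ N₀ := by
    intro N₁ hN₁
    have h1 : P (N₀ ⊔ N₁) := by
      refine ⟨sup_le hN₀'.1 hN₁.1, fun c hc n hn => ?_, ?_⟩
      · have h2 : (N₀ ⊔ N₁).map (MulAut.conj c).toMonoidHom ≤ N₀ ⊔ N₁ := by
          rw [Subgroup.map_sup]
          refine sup_le_sup ?_ ?_
          · rintro _ ⟨m, hm, rfl⟩
            exact hN₀'.2.1 c hc m hm
          · rintro _ ⟨m, hm, rfl⟩
            exact hN₁.2.1 c hc m hm
        exact h2 ⟨n, hn, rfl⟩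
      · have h3 : ∀ N : Subgroup G, P N → (N.subgroupOf M).Normal ∧
            Odd (Nat.card (N.subgroupOf M)) := by
          intro N hN
          refine ⟨⟨fun n hn g => ?_⟩, ?_⟩
          · exact hN.2.1 g g.2 n hn
          · rw [Nat.card_congr (Subgroup.subgroupOfEquivOfLe hN.1).toEquiv]
            exact hN.2.2
        have h4 := Norm_sup (N₀.subgroupOf M) (N₁.subgroupOf M) (h3 N₀ hN₀').1 (h3 N₁ hN₁).1
          (h3 N₀ hN₀').2 (h3 N₁ hN₁).2
        have h5 : (N₀.subgroupOf M ⊔ N₁.subgroupOf M).map M.subtype = N₀ ⊔ N₁ := by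
          rw [Subgroup.map_sup, Subgroup.map_subgroupOf_eq_of_le hN₀'.1,
            Subgroup.map_subgroupOf_eq_of_le hN₁.1]
        rw [← h5]
        rwa [Nat.card_congr ((N₀.subgroupOf M ⊔ N₁.subgroupOf M).equivMapOfInjective M.subtype
          M.subtype_injective).toEquiv.symm]
    have h2 := hmax _ h1
    have h3 : N₀ = N₀ ⊔ N₁ := Subgroup.eq_of_le_of_card_ge le_sup_left h2
    rw [h3]
    exact le_sup_right
  have hnorm : N₀.Normal := by
    refine ⟨fun n hn g => ?_⟩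
    have h1 : P (N₀.map (MulAut.conj g).toMonoidHom) := by
      refine ⟨?_, ?_, ?_⟩
      · rintro _ ⟨m, hm, rfl⟩
        exact hM.conj_mem m (hN₀'.1 hm) g
      · rintro c hc _ ⟨m, hm, rfl⟩
        refine ⟨(g⁻¹ * c * g) * m * (g⁻¹ * c * g)⁻¹, hN₀'.2.1 _ ?_ m hm, ?_⟩
        · have := hM.conj_mem c hc g⁻¹
          rwa [inv_inv] at this
        · simp only [MulEquiv.coe_toMonoidHom, MulAut.conj_apply]
          group
      · rw [Nat.card_congr (N₀.equivMapOfInjective (MulAut.conj g).toMonoidHom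
          (MulAut.conj g).injective).toEquiv.symm]
        exact hN₀'.2.2
    exact hsup _ h1 ⟨n, hn, rfl⟩
  have hN₀b : N₀ = ⊥ := h.free N₀ hnorm hN₀'.2.2
  obtain ⟨N, hN1, hN2, hN3, hN4⟩ := Norm_prop h M hne hx
  have hNb : N ≤ ⊥ := hN₀b ▸ hsup N ⟨hN1, hN2, hN3⟩
  have hcomm : ∀ c ∈ M, x * c = c * x := by
    intro c hc
    have h1 := hNb (hN4 c hc)
    rw [Subgroup.mem_bot, mul_inv_eq_one, mul_inv_eq_iff_eq_mul] at h1
    exact h1
  obtain ⟨g, hg⟩ := h.nc
  apply hg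
  have h1 : g * x * g⁻¹ = x := Base_comm h.isol g (hcomm _ (hM.conj_mem x hx g))
  rw [mul_inv_eq_iff_eq_mul] at h1
  exact h1.symm

end Pool.Agent.Zst
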