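import Pool.Agent.Zst.ThirdB
import Pool.Agent.Zst.KerB
import Pool.Agent.KBQ.SMTb

/-! The principal block: orthogonality of sections. -/

namespace Pool.Agent.Zst

open Pool.Agent.KB Pool.Agent.KB.ContrAux Pool.Agent.KBL Pool.Agent.KBZ Pool.Agent.KBU
  Pool.Agent.KBQ

open Classical in
private theorem POrth_sum {G : Type} [Group G] (𝔪 : Ideal AInt) (B : Finset (G → ℂ))
    (hB : ∀ χ, χ ∈ B ↔ χ ∈ block 𝔪 (fun _ => (1 : ℂ))) {K : ℕ} (X : Fin K → G → ℂ)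
    (hXi : Function.Injective X) (hX : Set.range X = Irr G) (f : (G → ℂ) → ℂ) :
    ∑ χ ∈ B, f χ = ∑ i with X i ∈ block 𝔪 (fun _ => (1 : ℂ)), f (X i) := by
  symm
  refine Finset.sum_bij (fun i _ => X i) ?_ ?_ ?_ ?_
  · intro i hi
    rw [Finset.mem_filter] at hi
    exact (hB _).2 hi.2
  · intro i _ j _ h
    exact hXi h
  · intro χ hχ
    have h1 := (hB χ).1 hχ
    have h2 : χ ∈ Set.range X := by rw [hX]; exact h1.1
    obtain ⟨i, rfl⟩ := h2
    exact ⟨i, Finset.mem_filter.2 ⟨Finset.mem_univ _, h1⟩, rfl⟩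
  · intro i _
    rfl

/-- the `p`-parts by a common power -/
private theorem POrth_pow {G : Type} [Group G] [Fintype G] (p : ℕ) (hp : p.Prime) (w w' : G) (n n' : ℕ)
    (hw : w ^ (p ^ n) = 1) (hw' : w' ^ (p ^ n') = 1) (y y' : G) (hy : ¬ p ∣ orderOf y)
    (hy' : ¬ p ∣ orderOf y') (hc : Commute w y) (hc' : Commute w' y') :
    ∃ N : ℕ, (w * y) ^ N = w ∧ (w' * y') ^ N = w' := by
  have hcop : Nat.Coprime (p ^ (n + n')) (orderOf y * orderOf y') := by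
    apply Nat.Coprime.pow_left
    rw [Nat.Prime.coprime_iff_not_dvd hp, hp.dvd_mul]
    rintro (h | h)
    · exact hy h
    · exact hy' h
  obtain ⟨N, hN1, hN0⟩ := Nat.chineseRemainder hcop 1 0
  have hd : orderOf y * orderOf y' ∣ N := (Nat.modEq_zero_iff_dvd).1 hN0
  have key : ∀ (v z : G) (m : ℕ), v ^ (p ^ m) = 1 → p ^ m ∣ p ^ (n + n') → orderOf z ∣ N →
      Commute v z → (v * z) ^ N = v := by
    intro v z m hv hm hz hvz
    rw [hvz.mul_pow, orderOf_dvd_iff_pow_eq_one.1 hz, mul_one]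
    conv_rhs => rw [← pow_one v]
    rw [pow_eq_pow_iff_modEq]
    exact hN1.of_dvd ((orderOf_dvd_of_pow_eq_one hv).trans hm)
  exact ⟨N, key w y n hw (pow_dvd_pow p (Nat.le_add_right _ _)) ((dvd_mul_right _ _).trans hd) hc,
    key w' y' n' hw' (pow_dvd_pow p (Nat.le_add_left _ _)) ((dvd_mul_left _ _).trans hd) hc'⟩

/-- PROOF. `SMTb_off` for `χ₀ = 1`, `w = u`, `C` the centralizer of `u` (as a subgroup, `ι` the inclusion), `y = r`,
`z = v * s`: if `v * s` were conjugate to `u * c` with `c` a `p`-regular element commuting with `u`, then `v` (the `p`-part, a power of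
`v * s`) would be conjugate to `u` (compare `Bess_conj`). -/
theorem PBlk_orth {G : Type} [Group G] [Fintype G] (p : ℕ) (hp : p.Prime) (𝔪 : Ideal AInt)
    (h𝔪 : 𝔪.IsMaximal) (hp𝔪 : (p : AInt) ∈ 𝔪) (B : Finset (G → ℂ))
    (hB : ∀ χ, χ ∈ B ↔ χ ∈ block 𝔪 (fun _ => (1 : ℂ))) (u v r s : G)
    (hu : ∃ m : ℕ, u ^ p ^ m = 1) (hv : ∃ m : ℕ, v ^ p ^ m = 1) (hr : ¬ p ∣ orderOf r)
    (hs : ¬ p ∣ orderOf s) (hur : u * r = r * u) (hvs : v * s = s * v) (h : ¬ IsConj u v) :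
    ∑ χ ∈ B, χ (u * r) * χ (v * s)⁻¹ = 0 := by
  classical
  obtain ⟨m, hm⟩ := hu
  obtain ⟨m', hm'⟩ := hv
  obtain ⟨K, X, hXi, hX, -, -⟩ := Col_main G
  obtain ⟨C, hC⟩ : ∃ C : Subgroup G, C = Subgroup.centralizer ({u} : Set G) := ⟨_, rfl⟩
  have hCm : ∀ x : G, x ∈ C ↔ u * x = x * u := by
    intro x
    rw [hC, Subgroup.mem_centralizer_singleton_iff]
    exact eq_comm
  have hrange : ∀ x : G, (∃ y, C.subtype y = x) ↔ u * x = x * u := by
    intro x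
    rw [← hCm]
    exact ⟨fun ⟨y, hy⟩ => hy ▸ y.2, fun hx => ⟨⟨x, hx⟩, rfl⟩⟩
  have hrC : r ∈ C := (hCm r).2 hur
  rw [POrth_sum 𝔪 B hB X hXi hX (fun χ => χ (u * r) * χ (v * s)⁻¹)]
  refine SMTb_off p hp 𝔪 h𝔪 hp𝔪 (fun _ => (1 : ℂ)) (Third_one G) u m hm C.subtype
    C.subtype_injective hrange X hXi hX ⟨r, hrC⟩ ?_ (v * s) ?_
  · rw [← Subgroup.orderOf_coe]
    exact hr
  · intro c hc hconj
    apply h
    obtain ⟨k, hk⟩ := isConj_iff.1 hconj
    have hc' : ¬ p ∣ orderOf (c : G) := by rwa [Subgroup.orderOf_coe]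
    obtain ⟨N, e1, e2⟩ := POrth_pow p hp v u m' m hm' hm s (c : G) hs hc' hvs ((hCm c).1 c.2)
    have h2 := congrArg (fun z => z ^ N) hk
    simp only [conj_pow] at h2
    rw [e1] at h2
    have h3 : (u * C.subtype c) ^ N = u := e2
    rw [h3] at h2
    exact (isConj_iff.2 ⟨k, h2⟩).symm

end Pool.Agent.Zst
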