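import Pool.Agent.Zst.Fus
import Pool.Agent.Zst.Char

/-! Norms of the multiplicities. -/

namespace Pool.Agent.Zst

open Pool.Agent.KB

private theorem Pair_conj {G : Type} [Group G] {χ : G → ℂ} (hχ : χ ∈ Irr G) {g h : G}
    (hgh : IsConj g h) : χ g = χ h := by
  obtain ⟨n, ρ, hρ, rfl⟩ := hχ
  obtain ⟨c, rfl⟩ := isConj_iff.mp hgh
  rw [Representation.char_conj]

private theorem Pair_pow2 {G : Type} [Group G] [Finite G] {x a : G} {n : ℕ} {K : Subgroup G}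
    (hC : Cyc G x a n K) (s : ℕ) : ∃ m : ℕ, (a ^ s) ^ 2 ^ m = 1 :=
  ⟨n, by rw [← pow_mul, mul_comm, pow_mul, ← hC.ord, pow_orderOf_eq_one, one_pow]⟩

private theorem Pair_inj {G : Type} [Group G] [Finite G] {x a : G} {n : ℕ} {K : Subgroup G}
    (hC : Cyc G x a n K) {s t : ℕ} (hs : s < 2 ^ n) (ht : t < 2 ^ n) (h : a ^ s = a ^ t) :
    s = t := by
  rw [pow_inj_mod, hC.ord, Nat.mod_eq_of_lt hs, Nat.mod_eq_of_lt ht] at h
  exact h

private theorem Pair_sum {G : Type} [Group G] (a : G) (n : ℕ) (B : Finset (G → ℂ)) (α : ℕ → ℂ) :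
    ∑ χ ∈ B, (∑ t ∈ Finset.range (2 ^ n), α t * χ (a ^ t)) *
        (∑ t ∈ Finset.range (2 ^ n), α t * χ (a ^ t)⁻¹) =
      ∑ s ∈ Finset.range (2 ^ n), ∑ t ∈ Finset.range (2 ^ n),
        α s * α t * ∑ χ ∈ B, χ (a ^ s) * χ (a ^ t)⁻¹ := by
  rw [Finset.sum_congr rfl fun χ _ => Finset.sum_mul_sum _ _ _ _, Finset.sum_comm]
  refine Finset.sum_congr rfl fun s _ => ?_
  rw [Finset.sum_comm]
  refine Finset.sum_congr rfl fun t _ => ?_
  rw [Finset.mul_sum]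
  refine Finset.sum_congr rfl fun χ _ => ?_
  ring

/-- PROOF. `hB.orth` with `r = s = 1`. -/
theorem Pair_orth {G : Type} [Group G] [Finite G] {B : Finset (G → ℂ)} (hB : PBlock G B) (u v : G)
    (hu : ∃ m : ℕ, u ^ 2 ^ m = 1) (hv : ∃ m : ℕ, v ^ 2 ^ m = 1) (h : ¬ IsConj u v) :
    ∑ χ ∈ B, χ u * χ v⁻¹ = 0 := by
  have h := hB.orth u v 1 1 hu hv (by rw [orderOf_one]; exact odd_one)
    (by rw [orderOf_one]; exact odd_one) (by rw [mul_one, one_mul]) (by rw [mul_one, one_mul]) h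
  simpa only [mul_one] using h

/-- PROOF. Expand the product and exchange the sums: `∑_{s,t} α s α t ∑_χ χ(a^s) χ((a^t)⁻¹)`; only the terms with
`a ^ (2 s) ≠ 1`, `a ^ (2 t) ≠ 1` contribute (`hα`). If `a ^ s` and `a ^ t` are conjugate then `s = t` by `Fus_main`
(`¬ IsConj a a⁻¹`, `s, t < 2 ^ n = orderOf a`) and the inner sum is `2 ^ n` (`Fus_val`); otherwise it is `0` (`Pair_orth`). -/
theorem Pair_one {G : Type} [Group G] [Finite G] {x a : G} {n : ℕ} {K : Subgroup G}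
    (hC : Cyc G x a n K) (hu : ∀ u : G, u * u = 1 → x * u = u * x → u = 1 ∨ u = x)
    {B : Finset (G → ℂ)} (hB : PBlock G B) (ha : ¬ IsConj a a⁻¹) (α : ℕ → ℂ)
    (hα : ∀ t : ℕ, a ^ (2 * t) = 1 → α t = 0) :
    ∑ χ ∈ B, (∑ t ∈ Finset.range (2 ^ n), α t * χ (a ^ t)) *
        (∑ t ∈ Finset.range (2 ^ n), α t * χ (a ^ t)⁻¹) =
      2 ^ n * ∑ t ∈ Finset.range (2 ^ n), α t ^ 2 := by
  rw [Pair_sum, Finset.mul_sum]
  refine Finset.sum_congr rfl fun s hs => ?_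
  by_cases h1 : a ^ (2 * s) = 1
  · rw [hα s h1]
    simp
  rw [Finset.sum_eq_single s]
  · rw [Fus_val hC hB s h1]
    ring
  · intro t ht hts
    by_cases h2 : IsConj (a ^ s) (a ^ t)
    · rcases Fus_main hC hu s t h1 h2 with h3 | ⟨-, h3⟩
      · exact absurd (Pair_inj hC (Finset.mem_range.1 ht) (Finset.mem_range.1 hs) h3) hts
      · exact absurd h3 ha
    · rw [Pair_orth hB _ _ (Pair_pow2 hC s) (Pair_pow2 hC t) h2, mul_zero]
  · intro h2
    exact absurd hs h2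

/-- PROOF. As `Pair_one`; now `a ^ s` is conjugate to `a ^ s` and to `(a ^ s)⁻¹ = a ^ (2 ^ n - s)`, which are different as
`a ^ (2 s) ≠ 1`, and to no other `a ^ t` (`Fus_main`). So the sum is
`2 ^ n ∑_s α s (α s + α (2 ^ n - s))`. -/
theorem Pair_two {G : Type} [Group G] [Finite G] {x a : G} {n : ℕ} {K : Subgroup G}
    (hC : Cyc G x a n K) (hu : ∀ u : G, u * u = 1 → x * u = u * x → u = 1 ∨ u = x)
    {B : Finset (G → ℂ)} (hB : PBlock G B) (ha : IsConj a a⁻¹) (α : ℕ → ℂ)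
    (hα : ∀ t : ℕ, a ^ (2 * t) = 1 → α t = 0)
    (hs : ∀ t : ℕ, 0 < t → t < 2 ^ n → α (2 ^ n - t) = α t) :
    ∑ χ ∈ B, (∑ t ∈ Finset.range (2 ^ n), α t * χ (a ^ t)) *
        (∑ t ∈ Finset.range (2 ^ n), α t * χ (a ^ t)⁻¹) =
      2 ^ n * 2 * ∑ t ∈ Finset.range (2 ^ n), α t ^ 2 := by
  rw [Pair_sum, Finset.mul_sum]
  refine Finset.sum_congr rfl fun s hs' => ?_
  by_cases h1 : a ^ (2 * s) = 1
  · rw [hα s h1]
    simp
  have hsn := Finset.mem_range.1 hs'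
  have hs0 : 0 < s := by
    rcases Nat.eq_zero_or_pos s with h2 | h2
    · exact absurd (by rw [h2, mul_zero, pow_zero]) h1
    · exact h2
  have hinv : a ^ (2 ^ n - s) = (a ^ s)⁻¹ := by
    rw [eq_inv_iff_mul_eq_one, ← pow_add, Nat.sub_add_cancel hsn.le, ← hC.ord,
      pow_orderOf_eq_one]
  have hne : 2 ^ n - s ≠ s := by
    intro h2
    refine h1 ?_
    have h3 : 2 * s = 2 ^ n := by omega
    rw [h3, ← hC.ord, pow_orderOf_eq_one]
  have hlt : 2 ^ n - s < 2 ^ n := by omega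
  have hconj : IsConj (a ^ s) (a ^ s)⁻¹ := by
    rw [← inv_pow]
    exact ha.pow s
  have hval : ∑ χ ∈ B, χ (a ^ s) * χ (a ^ (2 ^ n - s))⁻¹ = 2 ^ n := by
    rw [← Fus_val hC hB s h1]
    refine Finset.sum_congr rfl fun χ hχ => ?_
    rw [hinv, inv_inv, ← Pair_conj (hB.irr χ hχ) hconj]
  rw [← Finset.sum_subset (s₁ := {s, 2 ^ n - s})]
  · rw [Finset.sum_pair hne.symm, Fus_val hC hB s h1, hval, hs s hs0 hsn]
    ring
  · intro t ht
    rcases Finset.mem_insert.1 ht with h2 | h2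
    · rw [h2]
      exact hs'
    · rw [Finset.mem_singleton.1 h2]
      exact Finset.mem_range.2 hlt
  · intro t ht hts
    by_cases h2 : IsConj (a ^ s) (a ^ t)
    · exfalso
      refine hts ?_
      rcases Fus_main hC hu s t h1 h2 with h3 | ⟨h3, -⟩
      · rw [Pair_inj hC (Finset.mem_range.1 ht) hsn h3]
        exact Finset.mem_insert_self _ _
      · rw [← hinv] at h3
        rw [Pair_inj hC (Finset.mem_range.1 ht) hlt h3]
        exact Finset.mem_insert_of_mem (Finset.mem_singleton_self _)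
    · rw [Pair_orth hB _ _ (Pair_pow2 hC s) (Pair_pow2 hC t) h2, mul_zero]

/-- The values of the multiplicities in the relations. `F` is `χ(1)`, `χ(x)` or `χ(x)^2/χ(1)`.
PROOF. Exchange the sums. -/
theorem Pair_rel {G : Type} [Group G] (a : G) (n : ℕ) (B : Finset (G → ℂ)) (F : (G → ℂ) → ℂ)
    (α : ℕ → ℂ) (hα : ∀ t : ℕ, a ^ (2 * t) = 1 → α t = 0)
    (h : ∀ t : ℕ, a ^ (2 * t) ≠ 1 → ∑ χ ∈ B, F χ * χ (a ^ t)⁻¹ = 0) :
    ∑ χ ∈ B, F χ * (∑ t ∈ Finset.range (2 ^ n), α t * χ (a ^ t)⁻¹) = 0 := by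
  simp only [Finset.mul_sum]
  rw [Finset.sum_comm]
  refine Finset.sum_eq_zero fun t _ => ?_
  by_cases h1 : a ^ (2 * t) = 1
  · rw [hα t h1]
    simp
  · have h2 : ∑ χ ∈ B, F χ * (α t * χ (a ^ t)⁻¹) = α t * ∑ χ ∈ B, F χ * χ (a ^ t)⁻¹ := by
      rw [Finset.mul_sum]
      refine Finset.sum_congr rfl fun χ _ => ?_
      ring
    rw [h2, h t h1, mul_zero]

end Pool.Agent.Zst
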