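import Mathlib

/-! The number of `p`-regular elements is prime to `p`. -/

namespace Pool.Agent.Zst

/-- the `p`-part and the `p'`-part of an element, as powers -/
private theorem RegC_split {G : Type} [Group G] [Finite G] (p : ℕ) (hp : p.Prime) (c : G) :
    ∃ (N a : ℕ), ¬ p ∣ orderOf (c ^ N) ∧ (c * (c ^ N)⁻¹) ^ (p ^ a) = 1 := by
  have hc0 : orderOf c ≠ 0 := (orderOf_pos c).ne'
  obtain ⟨a, m, hm, hcm⟩ := Nat.exists_eq_pow_mul_and_not_dvd hc0 p hp.ne_one
  have hcop : Nat.Coprime (p ^ a) m := by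
    apply Nat.Coprime.pow_left
    rwa [Nat.Prime.coprime_iff_not_dvd hp]
  obtain ⟨N, hN0, hN1⟩ := Nat.chineseRemainder hcop 0 1
  have hd : p ^ a ∣ N := (Nat.modEq_zero_iff_dvd).1 hN0
  refine ⟨N, a, ?_, ?_⟩
  · intro h
    have h1 : (c ^ N) ^ m = 1 := by
      rw [← pow_mul, ← orderOf_dvd_iff_pow_eq_one, hcm]
      exact Nat.mul_dvd_mul_right hd m
    exact hm (h.trans (orderOf_dvd_of_pow_eq_one h1))
  · have h1 : Commute c (c ^ N)⁻¹ := ((Commute.refl c).pow_right N).inv_right
    rw [h1.mul_pow, inv_pow, mul_inv_eq_one, ← pow_mul, pow_eq_pow_iff_modEq, hcm]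
    have h2 : p ^ a * 1 ≡ p ^ a * N [MOD p ^ a * m] := Nat.ModEq.mul_left' _ hN1.symm
    rw [mul_one, mul_comm (p ^ a) N] at h2
    exact h2

/-- PROOF. Let `P` be a Sylow `p`-subgroup. `P` acts on the set of the elements of order prime to `p` by conjugation, so
their number is congruent modulo `p` to the number of those which commute with `P`
(`IsPGroup.card_modEq_card_fixedPoints`). Let `C` be the centralizer of `P` and `Z = C ⊓ P`. If `c ∈ C` has `p`-power order
then `⟨c⟩ P` is a `p`-group, so `c ∈ P`, `c ∈ Z`. Every `c ∈ C` is uniquely `z * r` with `z`, `r` powers of `c`, `z` of `p`-power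
order, `r` of order prime to `p`; `Z` is central in `C`; so `(z, r) ↦ z * r` is a bijection from `Z × {r ∈ C | p ∤ orderOf r}` to
`C`. `Z` is a Sylow `p`-subgroup of `C` (a `p`-subgroup of `C` consists of elements of `Z`), so the number of these `r` is the index
`[C : Z]`, which is not divisible by `p`. -/
theorem RegC_main (G : Type) [Group G] [Finite G] (p : ℕ) (hp : p.Prime) :
    ¬ p ∣ Nat.card {g : G // ¬ p ∣ orderOf g} := by
  classical
  have := Fact.mk hp
  obtain ⟨P⟩ : Nonempty (Sylow p G) := inferInstance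
  -- the action
  let act : MulAction P {g : G // ¬ p ∣ orderOf g} :=
    { smul := fun x g => ⟨(x : G) * g.1 * (x : G)⁻¹, by
        have h1 : orderOf ((x : G) * g.1 * (x : G)⁻¹) = orderOf g.1 :=
          orderOf_injective (MulAut.conj (x : G)).toMonoidHom (MulAut.conj (x : G)).injective g.1
        rw [h1]
        exact g.2⟩
      one_smul := fun g => Subtype.ext (by
        show ((1 : P) : G) * g.1 * ((1 : P) : G)⁻¹ = g.1
        simp)
      mul_smul := fun x y g => Subtype.ext (by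
        show ((x * y : P) : G) * g.1 * ((x * y : P) : G)⁻¹ =
          (x : G) * ((y : G) * g.1 * (y : G)⁻¹) * (x : G)⁻¹
        push_cast
        group) }
  have hmod := P.isPGroup'.card_modEq_card_fixedPoints (α := {g : G // ¬ p ∣ orderOf g})
  intro hdvd
  have hdvd2 : p ∣ Nat.card (MulAction.fixedPoints P {g : G // ¬ p ∣ orderOf g}) :=
    (Nat.ModEq.dvd_iff hmod (dvd_refl p)).1 hdvd
  -- the centralizer
  obtain ⟨C, hC⟩ : ∃ C : Subgroup G, C = Subgroup.centralizer (P : Set G) := ⟨_, rfl⟩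
  have hCm : ∀ c : G, c ∈ C ↔ ∀ x ∈ P, x * c = c * x := by
    intro c
    rw [hC, Subgroup.mem_centralizer_iff]
    rfl
  -- elements of `p`-power order
  have hCP : ∀ c ∈ C, ∀ a : ℕ, c ^ (p ^ a) = 1 → c ∈ P := by
    intro c hc a hca
    have h1 : IsPGroup p (Subgroup.zpowers c) := by
      rintro ⟨g, hg⟩
      obtain ⟨i, rfl⟩ := Subgroup.mem_zpowers_iff.1 hg
      refine ⟨a, Subtype.ext ?_⟩
      show (c ^ i) ^ (p ^ a) = 1
      rw [← zpow_natCast, zpow_comm, zpow_natCast, hca, one_zpow]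
    have h2 : Subgroup.zpowers c ≤ Subgroup.normalizer (P : Set G) := by
      rw [Subgroup.zpowers_le]
      show c ∈ Subgroup.normalizer ((P : Subgroup G) : Set G)
      rw [Subgroup.mem_normalizer_iff]
      intro x
      have h3 : ∀ x ∈ P, c * x * c⁻¹ = x := by
        intro x hx
        rw [← (hCm c).1 hc x hx, mul_inv_cancel_right]
      constructor
      · intro hx
        rw [h3 x hx]
        exact hx
      · intro hx
        have h4 := (hCm c).1 hc _ hx
        have h5 : c * x * c⁻¹ = x := by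
          have h6 : c * x = c * (c * x * c⁻¹) := by
            rw [← h4]
            group
          exact (mul_left_cancel h6).symm
        rwa [h5] at hx
    have h3 := h1.inf_normalizer_sylow P
    have h4 : c ∈ Subgroup.zpowers c ⊓ (P : Subgroup G) := by
      rw [← h3]
      exact ⟨Subgroup.mem_zpowers c, h2 (Subgroup.mem_zpowers c)⟩
    exact h4.2
  -- the central subgroup of `C`
  obtain ⟨Z, hZ⟩ : ∃ Z : Subgroup C, Z = (P : Subgroup G).subgroupOf C := ⟨_, rfl⟩
  have hZm : ∀ c : C, c ∈ Z ↔ (c : G) ∈ P := by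
    intro c
    rw [hZ, Subgroup.mem_subgroupOf]
    rfl
  have hZc : ∀ z ∈ Z, ∀ c : C, z * c = c * z := by
    intro z hz c
    exact Subtype.ext ((hCm c).1 c.2 z ((hZm z).1 hz))
  have hZn : Z.Normal := ⟨fun z hz c => by rw [← hZc z hz c, mul_inv_cancel_right]; exact hz⟩
  have hZp : ∀ z ∈ Z, ∃ a : ℕ, z ^ (p ^ a) = 1 := by
    intro z hz
    obtain ⟨a, ha⟩ := P.isPGroup' ⟨(z : G), (hZm z).1 hz⟩
    refine ⟨a, Subtype.ext ?_⟩
    have h1 : (z : G) ^ (p ^ a) = 1 := congrArg (fun x : P => (x : G)) ha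
    rw [Subgroup.coe_pow, Subgroup.coe_one]
    exact h1
  have hfin : Finite (C ⧸ Z) := inferInstance
  -- the fixed points are the cosets
  have hcard : Nat.card (MulAction.fixedPoints P {g : G // ¬ p ∣ orderOf g}) = Nat.card (C ⧸ Z) := by
    have hfix : ∀ r : MulAction.fixedPoints P {g : G // ¬ p ∣ orderOf g}, r.1.1 ∈ C := by
      rintro ⟨⟨r, hr⟩, hrf⟩
      rw [hCm]
      intro x hx
      have h1 := congrArg Subtype.val (hrf ⟨x, hx⟩)
      have h2 : x * r * x⁻¹ = r := h1
      show x * r = r * x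
      calc x * r = x * r * x⁻¹ * x := by group
        _ = r * x := by rw [h2]
    refine Nat.card_congr (Equiv.ofBijective
      (fun r => (QuotientGroup.mk (⟨r.1.1, hfix r⟩ : C) : C ⧸ Z)) ⟨?_, ?_⟩)
    · intro r s hrs
      have h1 : (⟨r.1.1, hfix r⟩ : C)⁻¹ * ⟨s.1.1, hfix s⟩ ∈ Z := QuotientGroup.eq.1 hrs
      obtain ⟨r', hr'⟩ : ∃ r' : C, r' = ⟨r.1.1, hfix r⟩ := ⟨_, rfl⟩
      obtain ⟨s', hs'⟩ : ∃ s' : C, s' = ⟨s.1.1, hfix s⟩ := ⟨_, rfl⟩
      rw [← hr', ← hs'] at h1
      have hro : ¬ p ∣ orderOf r' := by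
        rw [← Subgroup.orderOf_coe, hr']
        exact r.1.2
      have hso : ¬ p ∣ orderOf s' := by
        rw [← Subgroup.orderOf_coe, hs']
        exact s.1.2
      obtain ⟨a, ha⟩ := hZp _ h1
      have hcomm : Commute r' s' := by
        have h2 := hZc _ h1 r'
        have h3 : r'⁻¹ * s' * r' = s' := by
          rw [h2, mul_inv_cancel_left]
        show r' * s' = s' * r'
        calc r' * s' = r' * (r'⁻¹ * s' * r') := by rw [h3]
          _ = s' * r' := by group
      have h4 : orderOf (r'⁻¹ * s') ∣ orderOf r' * orderOf s' := by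
        have h5 : (r'⁻¹ * s') ^ (orderOf r' * orderOf s') = 1 := by
          rw [(hcomm.inv_left).mul_pow, inv_pow, pow_mul, pow_orderOf_eq_one, one_pow, inv_one,
            mul_comm (orderOf r'), pow_mul, pow_orderOf_eq_one, one_pow, one_mul]
        exact orderOf_dvd_of_pow_eq_one h5
      have h5 : orderOf (r'⁻¹ * s') ∣ p ^ a := orderOf_dvd_of_pow_eq_one ha
      have h6 : Nat.Coprime (p ^ a) (orderOf r' * orderOf s') := by
        apply Nat.Coprime.pow_left
        rw [Nat.Prime.coprime_iff_not_dvd hp, hp.dvd_mul]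
        rintro (h | h)
        · exact hro h
        · exact hso h
      have h7 : orderOf (r'⁻¹ * s') = 1 := Nat.eq_one_of_dvd_coprimes h6 h5 h4
      rw [orderOf_eq_one_iff, inv_mul_eq_one] at h7
      rw [hr', hs'] at h7
      have h8 : r.1.1 = s.1.1 := congrArg (fun c : C => (c : G)) h7
      exact Subtype.ext (Subtype.ext h8)
    · intro q
      obtain ⟨c, rfl⟩ := QuotientGroup.mk_surjective q
      obtain ⟨N, a, h1, h2⟩ := RegC_split p hp c
      have hreg : ¬ p ∣ orderOf (((c ^ N : C)) : G) := by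
        rwa [Subgroup.orderOf_coe]
      have hmem : (⟨((c ^ N : C) : G), hreg⟩ : {g : G // ¬ p ∣ orderOf g}) ∈
          MulAction.fixedPoints P {g : G // ¬ p ∣ orderOf g} := by
        intro x
        refine Subtype.ext ?_
        show (x : G) * ((c ^ N : C) : G) * (x : G)⁻¹ = ((c ^ N : C) : G)
        rw [(hCm _).1 (c ^ N).2 x x.2, mul_inv_cancel_right]
      refine ⟨⟨⟨((c ^ N : C) : G), hreg⟩, hmem⟩, ?_⟩
      refine QuotientGroup.eq.2 ?_
      show (c ^ N)⁻¹ * c ∈ Z
      have h3 : (c ^ N)⁻¹ * c = c * (c ^ N)⁻¹ :=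
        (((Commute.refl c).pow_right N).inv_right).eq.symm
      rw [h3, hZm]
      exact hCP _ (c * (c ^ N)⁻¹).2 a (congrArg Subtype.val h2)
  rw [hcard] at hdvd2
  obtain ⟨q, hq⟩ := exists_prime_orderOf_dvd_card' p hdvd2
  obtain ⟨c, rfl⟩ := QuotientGroup.mk_surjective q
  have h1 : c ^ p ∈ Z := by
    rw [← QuotientGroup.eq_one_iff]
    have h2 := pow_orderOf_eq_one (QuotientGroup.mk c : C ⧸ Z)
    rw [hq] at h2
    exact h2
  obtain ⟨a, ha⟩ := hZp _ h1
  have h2 : c ∈ Z := by
    rw [hZm]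
    refine hCP _ c.2 (a + 1) ?_
    have h3 : c ^ (p ^ (a + 1)) = 1 := by
      rw [pow_succ', pow_mul]
      exact ha
    exact congrArg Subtype.val h3
  have h3 : (QuotientGroup.mk c : C ⧸ Z) = 1 := (QuotientGroup.eq_one_iff c).2 h2
  rw [h3, orderOf_one] at hq
  exact hp.one_lt.ne hq

end Pool.Agent.Zst
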