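import Pool.Agent.Zst.Base

/-! Reduction to minimal counterexamples. -/

namespace Pool.Agent.Zst

open Pool.Agent.KB

/-- PROOF. Strong induction on `Nat.card G`. If `OddFree G`: if `x` is central take `N = ⊥`;
otherwise `Min G x` holds (`ind` is the induction hypothesis), contradiction. If not `OddFree G`
there is a normal subgroup `N ≠ ⊥` of odd order; `G ⧸ N` is smaller, the image of `x` is isolated
(`Base_map`), so by induction there is a normal `M' ≤ G ⧸ N` of odd order which contains the
commutators with the image of `x`; `M = M'.comap (QuotientGroup.mk' N)` is normal, its order is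
`Nat.card M' * Nat.card N` (odd), and it contains `x * g * x⁻¹ * g⁻¹`. -/
theorem Start_main (h : ∀ (G : Type) [Group G] [Finite G] (x : G), ¬ Min G x) (G : Type) [Group G]
    [Finite G] (x : G) (hx : Isol x) : ZS x := by
  have key : ∀ n : ℕ, ∀ (G : Type) [Group G] [Finite G] (x : G), Nat.card G = n → Isol x → ZS x := by
    intro n
    induction n using Nat.strong_induction_on with
    | _ n ih =>
    intro G _ _ x hn hx
    have ind : ∀ (H : Type) [Group H] [Finite H] (y : H), Nat.card H < Nat.card G → Isol y →
        ZS y := fun H _ _ y hlt hy => ih (Nat.card H) (hn ▸ hlt) H y rfl hy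
    by_cases hf : OddFree G
    · by_cases hc : ∃ g : G, x * g ≠ g * x
      · exact absurd ⟨hf, hx, hc, ind⟩ (h G x)
      · push Not at hc
        refine ⟨⊥, inferInstance, by simp, fun g => ?_⟩
        rw [hc g]
        simp
    · unfold OddFree at hf
      push Not at hf
      obtain ⟨N, hN, hodd, hne⟩ := hf
      haveI := hN
      have h1 := Subgroup.card_eq_card_quotient_mul_card_subgroup N
      have h2 : 1 < Nat.card N := (Subgroup.one_lt_card_iff_ne_bot N).2 hne
      have h3 : 0 < Nat.card (G ⧸ N) := Nat.card_pos
      have hcard : Nat.card (G ⧸ N) < Nat.card G := by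
        rw [h1]
        exact lt_mul_of_one_lt_right h3 h2
      obtain ⟨M', hM', hodd', hcom⟩ := ind (G ⧸ N) (QuotientGroup.mk' N x) hcard
        (Base_map hx _ (QuotientGroup.mk'_surjective N))
      refine ⟨M'.comap (QuotientGroup.mk' N), hM'.comap _, ?_, fun g => ?_⟩
      · have h4 : (M'.comap (QuotientGroup.mk' N)).index = M'.index :=
          Subgroup.index_comap_of_surjective _ (QuotientGroup.mk'_surjective N)
        have h5 := (M'.comap (QuotientGroup.mk' N)).card_mul_index
        have h6 := M'.card_mul_index
        have h7 : M'.index ≠ 0 := Subgroup.index_ne_zero_of_finite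
        have h8 : Nat.card (M'.comap (QuotientGroup.mk' N)) = Nat.card M' * Nat.card N := by
          apply Nat.eq_of_mul_eq_mul_right (Nat.pos_of_ne_zero h7)
          rw [← h4, h5, h4, h1, ← h6]
          ring
        rw [h8]
        exact hodd'.mul hodd
      · rw [Subgroup.mem_comap]
        have h4 := hcom (QuotientGroup.mk' N g)
        simpa using h4
  exact key _ G x rfl hx

end Pool.Agent.Zst
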