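import Pool.Agent.Zst.Norm
import Pool.Agent.Zst.Cen

/-! The product of `x` with a conjugate of another involution commuting with `x`. -/

namespace Pool.Agent.Zst

open Pool.Agent.KB

/-- Conjugation inside the centralizer of `v`. -/
theorem StepA_fus {G : Type} [Group G] [Finite G] {x : G} (hx : Isol x) (v k : G)
    (h1 : v * x = x * v) (h2 : v * (k * x * k⁻¹) = (k * x * k⁻¹) * v) :
    ∃ c : G, v * c = c * v ∧ c * (k * x * k⁻¹) * c⁻¹ = x := by
  set H : Subgroup G := Subgroup.centralizer {v} with hH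
  have hmem : ∀ g : G, g ∈ H ↔ v * g = g * v := by
    intro g
    rw [hH, Subgroup.mem_centralizer_singleton_iff]
    exact ⟨fun h => h.symm, fun h => h.symm⟩
  have hxH : x ∈ H := (hmem x).2 h1
  have hkH : k * x * k⁻¹ ∈ H := (hmem _).2 h2
  have hp : ∀ (y : H), y * y = 1 → IsPGroup 2 (Subgroup.zpowers y) := by
    rintro y hy ⟨g, hg⟩
    obtain ⟨i, rfl⟩ := Subgroup.mem_zpowers_iff.1 hg
    refine ⟨1, Subtype.ext ?_⟩
    change (y ^ i) ^ 2 ^ 1 = 1
    rw [pow_one, pow_two, ← zpow_add, ← two_mul, zpow_mul, zpow_two, hy, one_zpow]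
  obtain ⟨P, hP⟩ := (hp ⟨x, hxH⟩ (Subtype.ext hx.1)).exists_le_sylow
  obtain ⟨P', hP'⟩ := (hp ⟨_, hkH⟩ (Subtype.ext (Base_csq hx k))).exists_le_sylow
  obtain ⟨c, hc⟩ := MulAction.exists_smul_eq H P' P
  refine ⟨c, (hmem _).1 c.2, ?_⟩
  have hx' : (⟨x, hxH⟩ : H) ∈ P := hP (Subgroup.mem_zpowers _)
  have hk' : c * ⟨_, hkH⟩ * c⁻¹ ∈ P := by
    rw [← hc]
    exact Subgroup.smul_mem_pointwise_smul _ (MulAut.conj c) (P' : Subgroup H)
      (hP' (Subgroup.mem_zpowers _))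
  have hT : IsPGroup 2 ((P : Subgroup H).map H.subtype) := P.2.map _
  have h3 := Base_two hx ((c : G) * k) 1 ((P : Subgroup H).map H.subtype) hT (by
    refine ⟨_, hk', ?_⟩
    simp only [Subgroup.coe_subtype, Subgroup.coe_mul, Subgroup.coe_inv]
    group) (by
    refine ⟨_, hx', ?_⟩
    simp)
  have h4 : (c : G) * k * x * ((c : G) * k)⁻¹ = (c : G) * (k * x * k⁻¹) * (c : G)⁻¹ := by group
  rw [h4] at h3
  rw [h3]
  group

/-- The product of `x` with a conjugate of `u`. -/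
theorem StepA_main {G : Type} [Group G] [Finite G] {x : G} (h : Min G x) (u : G) (hu : u * u = 1)
    (hu1 : u ≠ 1) (hux : u ≠ x) (hc : x * u = u * x) (g : G) :
    ∃ (z r : G) (N : Subgroup G), x * (g * u * g⁻¹) = z * r ∧ z * z = 1 ∧ IsConj (x * u) z ∧
      (∀ n ∈ N, z * n = n * z) ∧ (∀ c, z * c = c * z → ∀ n ∈ N, c * n * c⁻¹ ∈ N) ∧
      Odd (Nat.card N) ∧ r ∈ N := by
  set v := g * u * g⁻¹ with hv
  set w := x * v with hw
  have hxx : x * x = 1 := h.isol.1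
  have hvv : v * v = 1 := by
    have : v * v = g * (u * u) * g⁻¹ := by rw [hv]; group
    rw [this, hu]; group
  have hxi : x⁻¹ = x := inv_eq_of_mul_eq_one_left hxx
  have hvi : v⁻¹ = v := inv_eq_of_mul_eq_one_left hvv
  have hvw : v = x * w := by rw [hw, ← mul_assoc, hxx, one_mul]
  have hinv1 : x * w * x⁻¹ = w⁻¹ := by
    rw [hw, mul_inv_rev, hxi, hvi]
    calc x * (x * v) * x = (x * x) * (v * x) := by group
      _ = v * x := by rw [hxx, one_mul]
  have hinv : ∀ j : ℕ, x * w ^ j * x⁻¹ = (w ^ j)⁻¹ := by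
    intro j
    rw [← conj_pow, hinv1, inv_pow]
  have hinv' : ∀ j : ℕ, x * w ^ j = (w ^ j)⁻¹ * x := by
    intro j
    rw [← hinv j]; group
  have hpos : 0 < orderOf w := orderOf_pos w
  -- (1)
  have h1 : Odd (orderOf (w ^ 2)) := by
    have h2 : w ^ 2 = x * (v * x * v⁻¹) := by
      rw [pow_two, hw, hvi]; group
    rw [h2]
    exact h.isol.2 v
  -- (2)
  have h2 : ¬ Odd (orderOf w) := by
    intro hodd
    obtain ⟨j, hj⟩ := hodd
    have h3 : w = w ^ (j + 1) * w ^ (j + 1) := by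
      rw [← pow_add]
      have : j + 1 + (j + 1) = orderOf w + 1 := by omega
      rw [this, pow_succ, pow_orderOf_eq_one, one_mul]
    have h4 : v = (w ^ (j + 1))⁻¹ * x * w ^ (j + 1) := by
      rw [← hinv' (j + 1), mul_assoc, ← h3]
      exact hvw
    have h5 : u = (g⁻¹ * (w ^ (j + 1))⁻¹) * x * (g⁻¹ * (w ^ (j + 1))⁻¹)⁻¹ := by
      have h6 : u = g⁻¹ * v * g := by rw [hv]; group
      rw [h6, h4]; group
    have h6 := Base_comm h.isol (g⁻¹ * (w ^ (j + 1))⁻¹) (by rw [← h5]; exact hc)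
    rw [← h5] at h6
    exact hux h6
  -- (3)
  obtain ⟨l, hl⟩ : ∃ l, orderOf w = 2 * l := by
    rw [Nat.not_odd_iff_even] at h2
    obtain ⟨l, hl⟩ := h2
    exact ⟨l, by omega⟩
  have hlodd : Odd l := by
    rw [orderOf_pow, hl] at h1
    have h3 : Nat.gcd (2 * l) 2 = 2 := by
      rw [Nat.gcd_comm]
      exact Nat.gcd_eq_left (Dvd.intro _ rfl)
    rw [h3, Nat.mul_div_cancel_left _ (by norm_num)] at h1
    exact h1
  have hlpos : 0 < l := by omega
  have hwl : w ^ (2 * l) = 1 := by rw [← hl, pow_orderOf_eq_one]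
  set z := w ^ l with hz
  have hzz : z * z = 1 := by rw [hz, ← pow_add, ← two_mul, hwl]
  have hz1 : z ≠ 1 := by
    intro h3
    have h4 := Nat.le_of_dvd hlpos (orderOf_dvd_of_pow_eq_one h3)
    omega
  have hzi : z⁻¹ = z := inv_eq_of_mul_eq_one_left hzz
  have hxz : x * z = z * x := by
    rw [hz, hinv' l, ← hz, hzi]
  obtain ⟨j, hj⟩ := hlodd
  -- (4)
  have h4 : IsConj (x * u) z := by
    set k := (w ^ j)⁻¹ * g with hk
    have h5 : x * z = k * u * k⁻¹ := by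
      have h6 : k * u * k⁻¹ = (w ^ j)⁻¹ * v * w ^ j := by rw [hk, hv]; group
      rw [h6, hvw, ← mul_assoc, ← hinv' j, hz, hj]
      rw [mul_assoc, mul_assoc, ← pow_succ', ← pow_add]
      congr 2
      omega
    have h6 : z = x * (k * u * k⁻¹) := by rw [← h5, ← mul_assoc, hxx, one_mul]
    have h7 : (k * u * k⁻¹) * x = x * (k * u * k⁻¹) := by
      rw [← h5, mul_assoc, ← hxz, ← mul_assoc]
    have h8 : (k * u * k⁻¹) * (k * x * k⁻¹) = (k * x * k⁻¹) * (k * u * k⁻¹) := by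
      have e1 : (k * u * k⁻¹) * (k * x * k⁻¹) = k * (u * x) * k⁻¹ := by group
      have e2 : (k * x * k⁻¹) * (k * u * k⁻¹) = k * (x * u) * k⁻¹ := by group
      rw [e1, e2, hc]
    obtain ⟨c, hc1, hc2⟩ := StepA_fus h.isol (k * u * k⁻¹) k h7 h8
    refine isConj_iff.2 ⟨c * k, ?_⟩
    have e1 : c * k * (x * u) * (c * k)⁻¹ = (c * (k * x * k⁻¹) * c⁻¹) * (c * (k * u * k⁻¹) * c⁻¹) := by
      group
    have e2 : c * (k * u * k⁻¹) * c⁻¹ = k * u * k⁻¹ := by rw [← hc1]; group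
    rw [e1, hc2, e2, ← h6]
  -- (5)
  set H : Subgroup G := Subgroup.centralizer {z} with hH
  have hmem : ∀ g : G, g ∈ H ↔ z * g = g * z := by
    intro g
    rw [hH, Subgroup.mem_centralizer_singleton_iff]
    exact ⟨fun h => h.symm, fun h => h.symm⟩
  have hHtop : H ≠ ⊤ := by
    intro h5
    refine hz1 (Cen_main h z hzz fun g => (hmem g).1 ?_)
    rw [h5]
    exact Subgroup.mem_top g
  obtain ⟨N, hN1, hN2, hN3, hN4⟩ := Norm_prop h H hHtop ((hmem x).2 hxz.symm)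
  refine ⟨z, w ^ (l + 1), N, ?_, hzz, h4, fun n hn => (hmem n).1 (hN1 hn),
    fun c hc n hn => hN2 c ((hmem c).2 hc) n hn, hN3, ?_⟩
  · rw [hz, ← pow_add]
    have : l + (l + 1) = 2 * l + 1 := by omega
    rw [this, pow_succ, hwl, one_mul]
  · -- `s ^ 2 ∈ N` for powers `s` of `w`
    have h6 : ∀ i : ℕ, (w ^ i)⁻¹ * (w ^ i)⁻¹ ∈ N := by
      intro i
      have h7 : w ^ i ∈ H := (hmem _).2 (by rw [hz, ← pow_add, ← pow_add, add_comm])
      have h8 := hN4 _ h7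
      rwa [hinv i] at h8
    have h7 := N.inv_mem (h6 (j + 1))
    have h8 : ((w ^ (j + 1))⁻¹ * (w ^ (j + 1))⁻¹)⁻¹ = w ^ (l + 1) := by
      rw [mul_inv_rev, inv_inv, ← pow_add]
      congr 1
      omega
    rwa [h8] at h7

end Pool.Agent.Zst
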