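import Pool.Agent.KBQ.IndA
import Pool.Agent.KBL.Orth
import Pool.Agent.Zst.Defs

/-! The sum of the regular elements. -/

namespace Pool.Agent.Zst

open Pool.Agent.KB Pool.Agent.KB.ContrAux Pool.Agent.KBL Pool.Agent.KBZ Pool.Agent.KBU
  Pool.Agent.KBQ

/-- The trivial character. -/
theorem Third_one (G : Type) [Group G] [Finite G] : (fun _ : G => (1 : ℂ)) ∈ Irr G := by
  refine ⟨1, (1 : G →* ((Fin 1 → ℂ) →ₗ[ℂ] (Fin 1 → ℂ))), ?_, ?_⟩
  · have h1 : IsSimpleOrder (Submodule ℂ (Fin 1 → ℂ)) := by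
      have h2 : IsSimpleModule ℂ (Fin 1 → ℂ) := by
        rw [isSimpleModule_iff_finrank_eq_one]
        simp
      exact (isSimpleModule_iff ℂ (Fin 1 → ℂ)).1 h2
    refine { exists_pair_ne := ⟨⊥, ⊤, fun h => ?_⟩, eq_bot_or_eq_top := fun S => ?_ }
    · have h2 := congrArg Subrepresentation.toSubmodule h
      exact bot_ne_top h2
    · rcases h1.eq_bot_or_eq_top S.toSubmodule with h2 | h2
      · left
        exact Subrepresentation.toSubmodule_injective h2
      · right
        exact Subrepresentation.toSubmodule_injective h2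
  · funext g
    show LinearMap.trace ℂ (Fin 1 → ℂ) (1 : (Fin 1 → ℂ) →ₗ[ℂ] (Fin 1 → ℂ)) = 1
    rw [LinearMap.trace_one]
    simp

open Classical in
/-- The sum of the `p`-regular elements. -/
noncomputable def rsum (p : ℕ) (G : Type) [Group G] [Fintype G] : MonoidAlgebra AInt G :=
  ∑ g : G with ¬ p ∣ orderOf g, MonoidAlgebra.of AInt G g

open Classical in
private theorem ThirdA_coeff (p : ℕ) (G : Type) [Group G] [Fintype G] (x : G) :
    (rsum p G).coeff x = if ¬ p ∣ orderOf x then (1 : AInt) else 0 := by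
  unfold rsum
  rw [MonoidAlgebra.coeff_sum, Finsupp.finsetSum_apply]
  have h1 : ∀ h : G, (MonoidAlgebra.of AInt G h).coeff x = if h = x then (1 : AInt) else 0 := by
    intro h
    rw [MonoidAlgebra.of_apply, MonoidAlgebra.coeff_single_apply]
  simp only [h1]
  rw [Finset.sum_ite_eq']
  simp

/-- PROOF. The coefficient at `g` is `1` if `g` is `p`-regular and `0` otherwise; conjugate elements have the same order. -/
theorem Third_ctr (p : ℕ) (G : Type) [Group G] [Fintype G] : Ctr (rsum p G) := by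
  classical
  intro g x
  have h1 : orderOf (g * x * g⁻¹) = orderOf x :=
    orderOf_injective (MulAut.conj g).toMonoidHom (MulAut.conj g).injective x
  rw [ThirdA_coeff, ThirdA_coeff, h1]

/-- PROOF. Compare coefficients (`Br_coeff`); `ι` preserves orders. -/
theorem Third_trc (p : ℕ) {G C : Type} [Group G] [Fintype G] [Group C] [Fintype C] (ι : C →* G)
    (hι : Function.Injective ι) : trc ι (rsum p G) = rsum p C := by
  classical
  refine MonoidAlgebra.ext ?_
  ext x
  rw [Br_coeff, ThirdA_coeff, ThirdA_coeff, orderOf_injective ι hι x]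

private theorem ThirdA_ev (p : ℕ) {G : Type} [Group G] [Fintype G] (χ : G → ℂ) :
    ev χ (rsum p G) = T p χ (fun _ => 1) := by
  classical
  unfold ev T
  rw [Finset.sum_filter]
  refine Finset.sum_congr rfl fun g _ => ?_
  rw [ThirdA_coeff]
  split_ifs <;> simp

/-- PROOF. `omg χ (rsum p G) = (∑_{g p-regular} χ g) / χ 1`, and the sum is `T p χ 1` (`Orth_main` for `1` and `χ`; `T` is
symmetric, or apply `Orth_main` to the block of `χ`). -/
theorem Third_zero {G : Type} [Group G] [Fintype G] (p : ℕ) (hp : p.Prime) (𝔪 : Ideal AInt)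
    (h𝔪 : 𝔪.IsMaximal) (hp𝔪 : (p : AInt) ∈ 𝔪) (χ : G → ℂ) (hχ : χ ∈ Irr G)
    (h : χ ∉ block 𝔪 (fun _ => (1 : ℂ))) : omg χ (rsum p G) = 0 := by
  unfold omg
  rw [ThirdA_ev, KBL.CDAux.T_symm, Orth_main p hp 𝔪 h𝔪 hp𝔪 _ χ (Third_one G) hχ h, zero_div]

/-- PROOF. Definition. -/
theorem Third_val {G : Type} [Group G] [Fintype G] (p : ℕ) :
    omg (fun _ : G => (1 : ℂ)) (rsum p G) = (Nat.card {g : G // ¬ p ∣ orderOf g} : ℂ) := by
  classical
  unfold omg
  rw [ThirdA_ev]
  unfold T
  rw [Nat.card_eq_fintype_card, Fintype.card_subtype]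
  simp

end Pool.Agent.Zst
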