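import Pool.Agent.Zst.ThirdA
import Pool.Agent.Zst.RegC

/-! The third main theorem for centralizers of p-elements (principal block). -/

namespace Pool.Agent.Zst

open Pool.Agent.KB Pool.Agent.KB.ContrAux Pool.Agent.KBL Pool.Agent.KBZ Pool.Agent.KBU
  Pool.Agent.KBQ

/-- PROOF. For central `α`: `omg 1 α - omg 1 (trc ι α) = ∑_g α(g) - ∑_{c} α(ι c)`. The `p`-group `⟨w⟩` acts on `G` by
conjugation with set of fixed points `ι C`, and `α` is constant on the orbits, so the difference is a sum over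
nontrivial orbits, each contributing `p ^ k * α(g)` with `k ≥ 1`: it is divisible by `p` in `AInt`. (Compare `Br_mul`.) -/
theorem Third_triv {G C : Type} [Group G] [Fintype G] [Group C] [Fintype C] (p : ℕ)
    (hp : p.Prime) (𝔪 : Ideal AInt) (hp𝔪 : (p : AInt) ∈ 𝔪) (w : G) (n : ℕ) (hw : w ^ (p ^ n) = 1)
    (ι : C →* G) (hι : Function.Injective ι) (hr : ∀ x : G, (∃ y, ι y = x) ↔ w * x = x * w) :
    Ind 𝔪 ι (fun _ => (1 : ℂ)) (fun _ => (1 : ℂ)) := by
  classical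
  intro α hα
  have hD : IsPGroup p (Subgroup.zpowers w) := by
    rintro ⟨g, hg⟩
    obtain ⟨i, rfl⟩ := Subgroup.mem_zpowers_iff.1 hg
    refine ⟨n, Subtype.ext ?_⟩
    show (w ^ i) ^ (p ^ n) = 1
    rw [← zpow_natCast, zpow_comm, zpow_natCast, hw, one_zpow]
  obtain ⟨c, hc⟩ := @Act_main (Subgroup.zpowers w) G AInt _ _ _ (Br_act (Subgroup.zpowers w)) _ p
    hp hD (fun y => α.coeff y) (fun g y => hα g y)
  have hfix : ∑ y : C, α.coeff (ι y) = ∑ y : G, α.coeff y - p * c := by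
    rw [← hc, sub_sub_cancel]
    refine Finset.sum_bij (fun z _ => ι z) ?_ ?_ ?_ ?_
    · intro z _
      refine (@Finset.mem_filter _ _ (_) _ _).2 ⟨Finset.mem_univ _, fun g => ?_⟩
      obtain ⟨i, hi⟩ := Subgroup.mem_zpowers_iff.1 g.2
      have h1 : Commute w (ι z) := (hr (ι z)).1 ⟨z, rfl⟩
      have h2 : (g : G) * ι z = ι z * g := by
        rw [← hi]
        exact (h1.zpow_left i).eq
      show (g : G) * ι z * (g : G)⁻¹ = ι z
      rw [h2, mul_inv_cancel_right]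
    · intro a _ b _ h
      exact hι h
    · intro y hy
      have hy := (@Finset.mem_filter _ _ (_) _ _).1 hy
      have h2 : w * y * w⁻¹ = y := hy.2 ⟨w, Subgroup.mem_zpowers w⟩
      have h1 : w * y = y * w := by
        calc w * y = w * y * w⁻¹ * w := by group
          _ = y * w := by rw [h2]
      obtain ⟨z, hz⟩ := (hr y).2 h1
      exact ⟨z, Finset.mem_univ _, hz⟩
    · intro z _
      rfl
  have e1 : omg (fun _ : G => (1 : ℂ)) α = ((∑ y : G, α.coeff y : AInt) : ℂ) := by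
    unfold omg ev
    push_cast
    simp
  have e2 : omg (fun _ : C => (1 : ℂ)) (trc ι α) = ((∑ y : C, α.coeff (ι y) : AInt) : ℂ) := by
    unfold omg ev
    simp only [Br_coeff]
    push_cast
    simp
  refine ⟨p * c, 𝔪.mul_mem_right _ hp𝔪, ?_⟩
  rw [e1, e2, hfix]
  push_cast
  ring

/-- PROOF. If `ψ ∈ block 𝔪 1`: `Third_triv` and `IndA_block`. Conversely let `Ind 𝔪 ι ψ 1` and suppose `ψ ∉ block 𝔪 1`. For
`α = rsum p G` (`Third_ctr`): `omg 1 α - omg ψ (trc ι α) = Nat.card {g // ¬ p ∣ orderOf g} - 0` (`Third_trc`, `Third_zero` in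
`C`, `Third_val`) lies in `𝔪`; this integer is prime to `p` (`RegC_main`) and `p ∈ 𝔪`, so `1 ∈ 𝔪` (compare `LimA_int`),
contradiction. -/
theorem Third_main {G C : Type} [Group G] [Fintype G] [Group C] [Fintype C] (p : ℕ)
    (hp : p.Prime) (𝔪 : Ideal AInt) (h𝔪 : 𝔪.IsMaximal) (hp𝔪 : (p : AInt) ∈ 𝔪) (w : G) (n : ℕ)
    (hw : w ^ (p ^ n) = 1) (ι : C →* G) (hι : Function.Injective ι)
    (hr : ∀ x : G, (∃ y, ι y = x) ↔ w * x = x * w) (ψ : C → ℂ) (hψ : ψ ∈ Irr C) :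
    Ind 𝔪 ι ψ (fun _ => (1 : ℂ)) ↔ ψ ∈ block 𝔪 (fun _ => (1 : ℂ)) := by
  constructor
  · intro h
    by_contra hn
    have h1 := h (rsum p G) (Third_ctr p G)
    rw [Third_trc p ι hι, Third_zero p hp 𝔪 h𝔪 hp𝔪 ψ hψ hn, Third_val, sub_zero] at h1
    have h2 : (p : ℤ) ∣ ((Nat.card {g : G // ¬ p ∣ orderOf g} : ℕ) : ℤ) :=
      InM_int hp h𝔪 hp𝔪 (by exact_mod_cast h1)
    exact RegC_main G p hp (by exact_mod_cast h2)
  · intro h
    exact IndA_block 𝔪 ι (fun _ => (1 : ℂ)) ψ (fun _ => (1 : ℂ)) (fun _ => (1 : ℂ)) (Third_one C)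
      (Third_one G) h (KBL.CDAux.mem_self (Third_one G)) (Third_triv p hp 𝔪 hp𝔪 w n hw ι hι hr)

end Pool.Agent.Zst
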