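import Mathlib

/-! Finite 2-groups with a unique involution, first part. -/

namespace Pool.Agent.Zst

private theorem TwoA_count {P : Type} [CommGroup P] [Fintype P] [DecidableEq P] (x : P)
    (hx : ∀ u : P, u * u = 1 → u = 1 ∨ u = x) (e : ℕ) :
    (Finset.univ.filter fun a : P => a ^ 2 ^ e = 1).card ≤ 2 ^ e := by
  induction e with
  | zero =>
    have h : (Finset.univ.filter fun a : P => a ^ 2 ^ 0 = 1) ⊆ {1} := by
      intro a ha
      rw [Finset.mem_filter, pow_zero, pow_one] at ha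
      rw [Finset.mem_singleton]
      exact ha.2
    exact (Finset.card_le_card h).trans (by simp)
  | succ e ih =>
    have h1 := Finset.card_le_mul_card_image (f := fun a : P => a * a)
      (Finset.univ.filter fun a : P => a ^ 2 ^ (e + 1) = 1) 2 (by
        intro b hb
        rw [Finset.mem_image] at hb
        obtain ⟨a0, -, rfl⟩ := hb
        have h2 : (Finset.univ.filter fun a : P => a ^ 2 ^ (e + 1) = 1).filter
            (fun a => a * a = a0 * a0) ⊆ {a0, a0 * x} := by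
          intro a ha
          have ha2 : a * a = a0 * a0 := (Finset.mem_filter.1 ha).2
          have h3 : (a0⁻¹ * a) * (a0⁻¹ * a) = 1 := by
            have : (a0⁻¹ * a) * (a0⁻¹ * a) = a0⁻¹ * a0⁻¹ * (a * a) := by
              rw [mul_mul_mul_comm]
            rw [this, ha2]
            group
          rw [Finset.mem_insert, Finset.mem_singleton]
          rcases hx _ h3 with h4 | h4
          · left
            exact (inv_mul_eq_one.1 h4).symm
          · right
            rw [← h4]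
            group
        exact (Finset.card_le_card h2).trans Finset.card_le_two)
    have h2 : (Finset.univ.filter fun a : P => a ^ 2 ^ (e + 1) = 1).image (fun a => a * a) ⊆
        Finset.univ.filter fun a : P => a ^ 2 ^ e = 1 := by
      intro b hb
      rw [Finset.mem_image] at hb
      obtain ⟨a, ha, rfl⟩ := hb
      rw [Finset.mem_filter] at ha ⊢
      refine ⟨Finset.mem_univ _, ?_⟩
      rw [← pow_two, ← pow_mul, ← pow_succ']
      exact ha.2
    calc _ ≤ 2 * _ := h1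
      _ ≤ 2 * 2 ^ e := Nat.mul_le_mul_left 2 ((Finset.card_le_card h2).trans ih)
      _ = 2 ^ (e + 1) := by rw [pow_succ']

/-- PROOF. `isCyclic_of_card_pow_eq_one_le`: it is enough that `g ^ m = 1` has at most `m` solutions for all `m > 0`.
The order of `P` is a power of two; with `2 ^ e` the exact power of `2` dividing `m` (and `gcd (m, |P|) ∣ 2 ^ e`) the solutions of `g ^ m = 1`
are those of `g ^ 2 ^ e = 1`, and by induction on `e` there are at most `2 ^ e` of them: squaring is a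
homomorphism whose kernel has at most two elements (`hx`). -/
theorem TwoGrp_abel {P : Type} [CommGroup P] [Finite P] (hP : IsPGroup 2 P) (x : P)
    (hx : ∀ u : P, u * u = 1 → u = 1 ∨ u = x) : IsCyclic P := by
  classical
  have := Fintype.ofFinite P
  apply isCyclic_of_card_pow_eq_one_le
  intro n hn
  obtain ⟨e, m, hm, rfl⟩ := Nat.exists_eq_two_pow_mul_odd hn.ne'
  have h1 : (Finset.univ.filter fun a : P => a ^ (2 ^ e * m) = 1) ⊆
      Finset.univ.filter fun a : P => a ^ 2 ^ e = 1 := by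
    intro a ha
    rw [Finset.mem_filter] at ha ⊢
    refine ⟨Finset.mem_univ _, ?_⟩
    obtain ⟨k, hk⟩ := hP a
    have h2 : orderOf a ∣ 2 ^ k := orderOf_dvd_of_pow_eq_one hk
    have h3 : orderOf a ∣ 2 ^ e * m := orderOf_dvd_of_pow_eq_one ha.2
    have h4 : Nat.Coprime (orderOf a) m :=
      Nat.Coprime.coprime_dvd_left h2 ((Nat.coprime_two_left.2 hm).pow_left k)
    exact orderOf_dvd_iff_pow_eq_one.1 (h4.dvd_of_dvd_mul_right h3)
  refine (Finset.card_le_card h1).trans ((TwoA_count x hx e).trans ?_)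
  exact Nat.le_mul_of_pos_right _ hm.pos

/-- PROOF. `u = c ^ i * q` commutes... : `(c ^ i * q) * (c ^ i * q) = c ^ i * (q * c ^ i * q⁻¹) * q ^ 2 =
c ^ (i + i * t + j)`. Pure arithmetic part: let `l ≥ 2`, `t ≡ 1` modulo `4`, `t ^ 2 ≡ 1` modulo `2 ^ l`,
`j * t ≡ j` modulo `2 ^ l` and `t ≢ 1` modulo `2 ^ l`. Then there is `i` with `i + i * t + j ≡ 0` modulo `2 ^ l`.
Indeed `t = 1 + 2 ^ (l - 1)` modulo `2 ^ l` (as `(t - 1) (t + 1) ≡ 0` and `t + 1 ≡ 2` modulo `4`), so `l ≥ 3` and `j` is even, and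
`i * (1 + t) + j = 2 (i * ((1 + t) / 2) + j / 2)` with `(1 + t) / 2` odd, so invertible modulo `2 ^ (l - 1)`. -/
theorem TwoGrp_arith (l t j : ℕ) (hl : 2 ≤ l) (h4 : t % 4 = 1) (h2 : t ^ 2 ≡ 1 [MOD 2 ^ l])
    (hj : j * t ≡ j [MOD 2 ^ l]) (ht : ¬ t ≡ 1 [MOD 2 ^ l]) :
    ∃ i : ℕ, i + i * t + j ≡ 0 [MOD 2 ^ l] := by
  obtain ⟨a, rfl⟩ : ∃ a, t = 4 * a + 1 := ⟨t / 4, by omega⟩
  have hjd : 2 ^ l ∣ j * (4 * a) := by
    have h5 := (Nat.modEq_iff_dvd' (by nlinarith : j ≤ j * (4 * a + 1))).1 hj.symm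
    have h6 : j * (4 * a + 1) - j = j * (4 * a) := by
      rw [Nat.mul_add, Nat.mul_one, Nat.add_sub_cancel]
    rwa [h6] at h5
  have hnd : ¬ 2 ^ l ∣ 4 * a := by
    intro h5
    apply ht
    have h6 : (4 * a) % 2 ^ l = 0 := Nat.mod_eq_zero_of_dvd h5
    have h7 : 4 * a ≡ 0 [MOD 2 ^ l] := (Nat.modEq_zero_iff_dvd).2 h5
    simpa using h7.add_right 1
  have hje : Even j := by
    by_contra hodd
    rw [Nat.not_even_iff_odd] at hodd
    have h5 : Nat.Coprime (2 ^ l) j := (Nat.coprime_two_left.2 hodd).pow_left l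
    exact hnd (h5.dvd_of_dvd_mul_left hjd)
  obtain ⟨j', rfl⟩ := hje
  have hcop : Nat.Coprime (2 * a + 1) (2 ^ l) :=
    Nat.Coprime.pow_right l (Nat.coprime_two_right.2 ⟨a, rfl⟩)
  have hne : NeZero (2 ^ l) := ⟨by positivity⟩
  have hu : IsUnit ((2 * a + 1 : ℕ) : ZMod (2 ^ l)) := (ZMod.isUnit_iff_coprime _ _).2 hcop
  obtain ⟨u, hu⟩ := hu
  refine ⟨((-(j' : ZMod (2 ^ l))) * ((u⁻¹ : (ZMod (2 ^ l))ˣ) : ZMod (2 ^ l))).val, ?_⟩
  rw [← ZMod.natCast_eq_natCast_iff]
  push_cast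
  rw [ZMod.natCast_zmod_val]
  have h5 : (2 * (a : ZMod (2 ^ l)) + 1) = (u : ZMod (2 ^ l)) := by
    rw [hu]; push_cast; ring
  have h6 : (u : ZMod (2 ^ l)) * ((u⁻¹ : (ZMod (2 ^ l))ˣ) : ZMod (2 ^ l)) = 1 := Units.mul_inv u
  linear_combination (-(j' : ZMod (2 ^ l)) * 2 * ((u⁻¹ : (ZMod (2 ^ l))ˣ) : ZMod (2 ^ l))) * h5 -
    2 * (j' : ZMod (2 ^ l)) * h6

end Pool.Agent.Zst
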