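import Pool.Agent.Zst.TwoA

/-! Finite 2-groups with a unique involution, second part. -/

namespace Pool.Agent.Zst

/-- the case of an abelian group given by the commutativity -/
private theorem TwoB_comm {P : Type} [Group P] [Finite P] (hP : IsPGroup 2 P) (x : P)
    (hx : ∀ u : P, u * u = 1 → u = 1 ∨ u = x) (hc : ∀ a b : P, a * b = b * a) : IsCyclic P := by
  let _ : CommGroup P := { (inferInstance : Group P) with mul_comm := hc }
  exact TwoGrp_abel hP x hx

private theorem TwoB_conj {P : Type} [Group P] {q c : P} {t : ℕ} (h : q * c * q⁻¹ = c ^ t) (s : ℕ) :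
    q * c ^ s * q⁻¹ = c ^ (s * t) := by
  rw [← conj_pow, h, ← pow_mul, mul_comm]

private theorem TwoB_aux (n : ℕ) : ∀ {P : Type} [Group P] [Finite P] (_ : Nat.card P = n)
    (_ : IsPGroup 2 P) (x y : P) (_ : ∀ u : P, u * u = 1 → u = 1 ∨ u = x) (_ : y * y = x)
    (_ : x ≠ 1) (_ : ∀ g, y * g = g * y), IsCyclic P := by
  induction n using Nat.strong_induction_on with
  | _ n ih =>
    intro P _ _ hn hP x y hx hy hx1 hc
    have : Fact (Nat.Prime 2) := ⟨Nat.prime_two⟩
    obtain ⟨N, hN⟩ := (IsPGroup.iff_card (p := 2)).1 hP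
    -- `x` is an involution
    have hxx : x * x = 1 := by
      have h2 : 2 ∣ Nat.card P := by
        have h3 : Nat.card P ≠ 1 := by
          intro h4
          have : Subsingleton P := (Nat.card_eq_one_iff_unique.1 h4).1
          exact hx1 (Subsingleton.elim _ _)
        rw [hN] at h3 ⊢
        exact dvd_pow_self 2 (by rintro rfl; exact h3 rfl)
      obtain ⟨u, hu⟩ := exists_prime_orderOf_dvd_card' 2 h2
      have hu2 : u * u = 1 := by
        rw [← pow_two, ← hu, pow_orderOf_eq_one]
      rcases hx u hu2 with h3 | h3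
      · rw [h3, orderOf_one] at hu
        omega
      · rw [← h3, hu2]
    have hy4 : orderOf y = 2 ^ 2 := by
      apply orderOf_eq_prime_pow
      · rw [pow_one, pow_two, hy]
        exact hx1
      · have : y ^ 2 ^ (1 + 1) = (y * y) * (y * y) := by
          rw [← pow_two, ← pow_two, ← pow_mul]
          norm_num
        rw [this, hy, hxx]
    by_cases htop : Subgroup.zpowers y = ⊤
    · exact ⟨y, fun g => by
        have : g ∈ (⊤ : Subgroup P) := Subgroup.mem_top g
        rwa [← htop] at this⟩
    -- a subgroup of index two containing `y`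
    have hcy : Nat.card (Subgroup.zpowers y) = 2 ^ 2 := by rw [Nat.card_zpowers, hy4]
    have hN3 : 3 ≤ N := by
      have h3 : Nat.card (Subgroup.zpowers y) ∣ Nat.card P := Subgroup.card_subgroup_dvd_card _
      rw [hcy, hN] at h3
      have h4 : 2 ≤ N := (Nat.pow_dvd_pow_iff_le_right (by norm_num)).1 h3
      rcases h4.eq_or_lt with h5 | h5
      · exfalso
        apply htop
        apply Subgroup.eq_top_of_card_eq
        rw [hcy, hN, h5]
      · exact h5
    obtain ⟨M, hM, hyM'⟩ := Sylow.exists_subgroup_card_pow_prime_le (p := 2) (m := N - 1)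
      (by rw [hN]; exact pow_dvd_pow 2 (by omega)) (Subgroup.zpowers y) hcy (by omega)
    have hyM : y ∈ M := hyM' (Subgroup.mem_zpowers y)
    have hxM : x ∈ M := by rw [← hy]; exact M.mul_mem hyM hyM
    have hMi : M.index = 2 := by
      have h3 := M.card_mul_index
      rw [hM, hN] at h3
      have h4 : (2 : ℕ) ^ N = 2 ^ (N - 1) * 2 := by
        rw [← pow_succ]
        congr 1
        omega
      rw [h4] at h3
      exact Nat.eq_of_mul_eq_mul_left (by positivity) h3
    have hMn : M.Normal := Subgroup.normal_of_index_eq_two hMi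
    have hlt : Nat.card M < n := by
      rw [hM, ← hn, hN]
      exact Nat.pow_lt_pow_right (by norm_num) (by omega)
    have hMc : IsCyclic M := ih _ hlt (P := M) rfl (hP.to_subgroup M) ⟨x, hxM⟩ ⟨y, hyM⟩
      (fun u hu => by
        have h3 : (u : P) * u = 1 := congrArg Subtype.val hu
        rcases hx _ h3 with h4 | h4
        · exact Or.inl (Subtype.ext h4)
        · exact Or.inr (Subtype.ext h4))
      (Subtype.ext hy) (fun h => hx1 (congrArg Subtype.val h)) (fun g => Subtype.ext (hc g))
    obtain ⟨⟨c, hcM⟩, hcgen⟩ := hMc.exists_generator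
    have hgen : ∀ g ∈ M, ∃ k : ℕ, g = c ^ k := by
      intro g hg
      have h3 := hcgen ⟨g, hg⟩
      rw [← mem_powers_iff_mem_zpowers, Submonoid.mem_powers_iff] at h3
      obtain ⟨k, hk⟩ := h3
      exact ⟨k, (congrArg Subtype.val hk).symm⟩
    have hco : orderOf c = 2 ^ (N - 1) := by
      have h3 : orderOf (⟨c, hcM⟩ : M) = Nat.card M :=
        orderOf_eq_card_of_forall_mem_zpowers hcgen
      rw [← hM, ← h3, ← Subgroup.orderOf_coe]
    obtain ⟨q, hq⟩ : ∃ q : P, q ∉ M := by
      by_contra hcon
      push Not at hcon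
      have : M = ⊤ := by
        rw [eq_top_iff]
        exact fun g _ => hcon g
      rw [this, Subgroup.index_top] at hMi
      omega
    obtain ⟨t, ht⟩ := hgen (q * c * q⁻¹) (hMn.conj_mem c hcM q)
    obtain ⟨j, hj⟩ := hgen (q * q) (Subgroup.mul_self_mem_of_index_two hMi q)
    obtain ⟨s, hs⟩ := hgen y hyM
    set l := N - 1 with hl
    have hl2 : 2 ≤ l := by omega
    have hmod : ∀ a b : ℕ, c ^ a = c ^ b ↔ a ≡ b [MOD 2 ^ l] := fun a b => by
      rw [← hco]
      exact pow_eq_pow_iff_modEq
    have hct : ∀ k, q * c ^ k * q⁻¹ = c ^ (k * t) := TwoB_conj ht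
    -- `t ^ 2 ≡ 1`
    have ht2 : t ^ 2 ≡ 1 [MOD 2 ^ l] := by
      rw [← hmod, pow_one]
      have h3 : q * (q * c * q⁻¹) * q⁻¹ = c ^ (t * t) := by rw [ht, hct]
      have h4 : q * (q * c * q⁻¹) * q⁻¹ = (q * q) * c * (q * q)⁻¹ := by group
      rw [h4, hj] at h3
      rw [pow_two, ← h3]
      have h5 : c ^ j * c * (c ^ j)⁻¹ = c := by
        rw [(Commute.refl c).pow_left j |>.eq]
        group
      exact h5
    have hjt : j * t ≡ j [MOD 2 ^ l] := by
      rw [← hmod, ← hct, ← hj]
      group
    have hst : s * t ≡ s [MOD 2 ^ l] := by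
      rw [← hmod, ← hct, ← hs]
      rw [← hc q]
      group
    -- `4 ∣ t - 1`
    have ht4 : t % 4 = 1 := by
      have hints : ((2 : ℤ) ^ l) ∣ (s : ℤ) * (t - 1) := by
        have h3 := (Nat.modEq_iff_dvd).1 hst.symm
        push_cast at h3
        have h4 : (s : ℤ) * t - s = s * (t - 1) := by ring
        rwa [h4] at h3
      -- `2 ^ (l - 1)` does not divide `s`
      have hns : ¬ ((2 : ℤ) ^ (l - 1)) ∣ (s : ℤ) := by
        intro h3
        have h4 : 2 ^ (l - 1) ∣ s := by exact_mod_cast h3
        apply hx1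
        rw [← hy, hs, ← pow_add, ← pow_zero c, hmod]
        apply (Nat.modEq_zero_iff_dvd).2
        have h5 : s + s = 2 * s := by ring
        rw [h5]
        have h6 : 2 ^ l = 2 * 2 ^ (l - 1) := by
          rw [← pow_succ']
          congr 1
          omega
        rw [h6]
        exact Nat.mul_dvd_mul_left 2 h4
      by_contra hcon
      apply hns
      -- the exact power of two in `t - 1` is at most two
      have h3 : ∃ (e : ℕ) (m : ℤ), e ≤ 1 ∧ Odd m ∧ (t : ℤ) - 1 = 2 ^ e * m := by
        have h4 : t % 4 = 0 ∨ t % 4 = 2 ∨ t % 4 = 3 := by omega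
        rcases h4 with h4 | h4 | h4
        · exact ⟨0, (t : ℤ) - 1, by omega, by
            refine ⟨(t : ℤ) / 2 - 1, ?_⟩
            omega, by ring⟩
        · exact ⟨0, (t : ℤ) - 1, by omega, by
            refine ⟨(t : ℤ) / 2 - 1, ?_⟩
            omega, by ring⟩
        · refine ⟨1, ((t : ℤ) - 1) / 2, le_rfl, ?_, ?_⟩
          · refine ⟨((t : ℤ) - 3) / 4, ?_⟩
            omega
          · omega
      obtain ⟨e, m, he, hmodd, hte⟩ := h3
      rw [hte] at hints
      have h4 : IsCoprime ((2 : ℤ) ^ l) m := by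
        apply IsCoprime.pow_left
        exact (Int.isCoprime_iff_gcd_eq_one.2 (by
          have := Int.gcd_eq_natAbs (a := 2) (b := m)
          rw [this]
          exact Nat.coprime_two_left.2 (Int.natAbs_odd.2 hmodd)))
      have h5 : ((2 : ℤ) ^ l) ∣ s * 2 ^ e := by
        have h6 : (s : ℤ) * (2 ^ e * m) = (s * 2 ^ e) * m := by ring
        rw [h6] at hints
        exact h4.dvd_of_dvd_mul_right hints
      have h6 : ((2 : ℤ) ^ (l - 1)) * 2 ^ 1 ∣ (s : ℤ) * 2 ^ 1 := by
        rw [← pow_add]
        have h7 : l - 1 + 1 = l := by omega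
        rw [h7]
        refine h5.trans (mul_dvd_mul_left _ (pow_dvd_pow 2 he))
      exact Int.dvd_of_mul_dvd_mul_right (by norm_num) h6
    by_cases ht1 : t ≡ 1 [MOD 2 ^ l]
    · -- the abelian case
      have hqc : q * c = c * q := by
        rw [← hmod, pow_one, ← ht] at ht1
        calc q * c = (q * c * q⁻¹) * q := by group
          _ = c * q := by rw [ht1]
      have hqM : ∀ m ∈ M, q * m = m * q := by
        intro m hm
        obtain ⟨k, rfl⟩ := hgen m hm
        exact (Commute.pow_right (show Commute q c from hqc) k).eq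
      have hMM : ∀ m ∈ M, ∀ m' ∈ M, m * m' = m' * m := by
        intro m hm m' hm'
        obtain ⟨k, rfl⟩ := hgen m hm
        obtain ⟨k', rfl⟩ := hgen m' hm'
        rw [← pow_add, ← pow_add, add_comm]
      have hdec : ∀ a : P, ∃ m ∈ M, a = m ∨ a = q * m := by
        intro a
        by_cases ha : a ∈ M
        · exact ⟨a, ha, Or.inl rfl⟩
        · refine ⟨q⁻¹ * a, ?_, Or.inr (by group)⟩
          rw [Subgroup.mul_mem_iff_of_index_two hMi]
          exact ⟨fun h => absurd (M.inv_mem_iff.1 h) hq, fun h => absurd h ha⟩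
      apply TwoB_comm hP x hx
      intro a b
      obtain ⟨m, hm, ha⟩ := hdec a
      obtain ⟨m', hm', hb⟩ := hdec b
      have e1 := hMM m hm m' hm'
      have e2 := hqM m hm
      have e3 := hqM m' hm'
      rcases ha with ha | ha <;> rcases hb with hb | hb <;> rw [ha, hb]
      · exact e1
      · calc m * (q * m') = (m * q) * m' := by group
          _ = q * (m * m') := by rw [← e2]; group
          _ = q * m' * m := by rw [e1]; group
      · calc q * m * m' = q * (m * m') := by group
          _ = (q * m') * m := by rw [e1]; group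
          _ = m' * (q * m) := by rw [e3]; group
      · calc q * m * (q * m') = q * (m * q) * m' := by group
          _ = q * q * (m * m') := by rw [← e2]; group
          _ = q * (q * m') * m := by rw [e1]; group
          _ = q * (m' * q) * m := by rw [e3]
          _ = q * m' * (q * m) := by group
    · obtain ⟨i, hi⟩ := TwoGrp_arith l t j hl2 ht4 ht2 hjt ht1
      exfalso
      have h3 : (c ^ i * q) * (c ^ i * q) = 1 := by
        have h4 : (c ^ i * q) * (c ^ i * q) = c ^ i * (q * c ^ i * q⁻¹) * (q * q) := by group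
        rw [h4, hct, hj, ← pow_add, ← pow_add, ← pow_zero c, hmod]
        exact hi
      have h4 : c ^ i * q ∈ M := by
        rcases hx _ h3 with h5 | h5
        · rw [h5]; exact M.one_mem
        · rw [h5]; exact hxM
      exact hq ((Subgroup.mul_mem_cancel_left M (M.pow_mem hcM i)).1 h4)

/-- PROOF. Induction on the order of `P`. If `P = ⟨y⟩` this is clear. Otherwise `⟨y⟩` is contained in a subgroup `M` of
index two (a maximal subgroup of a `2`-group containing `⟨y⟩` is normal of index `2`; for example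
`IsPGroup` is nilpotent; or `Sylow.exists_subgroup_card_pow_succ` /
`Sylow.exists_subgroup_card_pow_prime_le` starting from `⟨y⟩`). By induction `M = ⟨c⟩`, of order `2 ^ l`, `l ≥ 2` since `y`
has order four (`y * y = x ≠ 1`, `x * x = 1`: note that `x * x = 1` follows because `P` has an involution, which is `x` by
`hx`). Let `q ∉ M`; `M` is normal, so `q * c * q⁻¹ = c ^ t`, and `q * q = c ^ j`. `y = c ^ (2 ^ (l - 2) * m)` with `m` odd
commutes with `q`, so `t ≡ 1` modulo `4`; `q ^ 2` commutes with `c`, so `t ^ 2 ≡ 1` modulo `2 ^ l`; `q ^ 2` commutes with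
`q`, so `j * t ≡ j`. If `t ≡ 1` modulo `2 ^ l` then `P = ⟨c, q⟩` is abelian and `TwoGrp_abel` gives the claim. Otherwise
`TwoGrp_arith` gives `i` with `(c ^ i * q) * (c ^ i * q) = c ^ (i + i * t + j) = 1`, so `c ^ i * q` is `1` or `x`, which lie in
`M` (`x = y * y`): contradiction to `q ∉ M`. -/
theorem TwoGrp_main {P : Type} [Group P] [Finite P] (hP : IsPGroup 2 P) (x y : P)
    (hx : ∀ u : P, u * u = 1 → u = 1 ∨ u = x) (hy : y * y = x) (hx1 : x ≠ 1)
    (hc : ∀ g, y * g = g * y) : IsCyclic P :=
  TwoB_aux (Nat.card P) rfl hP x y hx hy hx1 hc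

end Pool.Agent.Zst
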